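import Mathlib

/-!
Noncommutative algebra in a monoid: transparency relations for units.
-/

namespace Pool.Agent.Y524

variable {A : Type*} [Monoid A]

/-- Transparency of the unit `u` for the pair `l` (kills a letter), `k` (kills the dual letter). -/
structure TTp (l k : A) (u : Aˣ) : Prop where
  a : l * u = l * u * l
  a' : l * ((u⁻¹ : Aˣ) : A) = l * ((u⁻¹ : Aˣ) : A) * l
  b : k * l * u * k = l * u * k
  b' : k * l * ((u⁻¹ : Aˣ) : A) * k = l * ((u⁻¹ : Aˣ) : A) * k

lemma absorb_mul {l u v : A} (hu : l * u = l * u * l) (hv : l * v = l * v * l) :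
    l * (u * v) = l * (u * v) * l := by
  calc l * (u * v) = (l * u) * v := by rw [mul_assoc]
    _ = (l * u * l) * v := by rw [← hu]
    _ = l * u * (l * v) := by simp only [mul_assoc]
    _ = l * u * (l * v * l) := by rw [← hv]
    _ = (l * u * l) * v * l := by simp only [mul_assoc]
    _ = (l * u) * v * l := by rw [← hu]
    _ = l * (u * v) * l := by simp only [mul_assoc]

lemma transp_mul {l k u v : A} (hu : l * u = l * u * l) (hub : k * l * u * k = l * u * k)
    (hvb : k * l * v * k = l * v * k) :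
    k * l * (u * v) * k = l * (u * v) * k := by
  calc k * l * (u * v) * k = k * (l * u) * v * k := by simp only [mul_assoc]
    _ = k * (l * u * l) * v * k := by rw [← hu]
    _ = k * l * u * (l * v * k) := by simp only [mul_assoc]
    _ = k * l * u * (k * l * v * k) := by rw [← hvb]
    _ = (k * l * u * k) * (l * v * k) := by simp only [mul_assoc]
    _ = (l * u * k) * (l * v * k) := by rw [hub]
    _ = l * u * (k * l * v * k) := by simp only [mul_assoc]
    _ = l * u * (l * v * k) := by rw [hvb]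
    _ = (l * u * l) * v * k := by simp only [mul_assoc]
    _ = (l * u) * v * k := by rw [← hu]
    _ = l * (u * v) * k := by simp only [mul_assoc]

namespace TTp

lemma mul {l k : A} {u v : Aˣ} (hu : TTp l k u) (hv : TTp l k v) : TTp l k (u * v) where
  a := by rw [Units.val_mul]; exact absorb_mul hu.a hv.a
  a' := by rw [mul_inv_rev, Units.val_mul]; exact absorb_mul hv.a' hu.a'
  b := by rw [Units.val_mul]; exact transp_mul hu.a hu.b hv.b
  b' := by rw [mul_inv_rev, Units.val_mul]; exact transp_mul hv.a' hv.b' hu.b'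

lemma inv {l k : A} {u : Aˣ} (hu : TTp l k u) : TTp l k u⁻¹ where
  a := hu.a'
  a' := by simpa using hu.a
  b := hu.b'
  b' := by simpa using hu.b

lemma one {l k : A} (hl : l * l = l) (hk : k * k = k) (hlk : l * k = k * l) :
    TTp l k (1 : Aˣ) where
  a := by simp [hl]
  a' := by simp [hl]
  b := by simp only [Units.val_one, mul_one]; rw [mul_assoc, hlk, ← mul_assoc, hk]
  b' := by
    simp only [inv_one, Units.val_one, mul_one]; rw [mul_assoc, hlk, ← mul_assoc, hk]

end TTp

/-- A unit which is the identity modulo `l` on the image of `k`. -/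
structure Idm (l k : A) (u : Aˣ) : Prop where
  a : l * u = l * u * l
  a' : l * ((u⁻¹ : Aˣ) : A) = l * ((u⁻¹ : Aˣ) : A) * l
  c : l * u * k = l * k
  c' : l * ((u⁻¹ : Aˣ) : A) * k = l * k

lemma Idm.inv {l k : A} {u : Aˣ} (h : Idm l k u) : Idm l k u⁻¹ where
  a := h.a'
  a' := by simpa using h.a
  c := h.c'
  c' := by simpa using h.c

/-- Conjugating by a transparent unit. -/
lemma conj_transp {l k : A} (hl : l * l = l) {u : Aˣ} (hu : TTp l k u) {X : A}
    (ha : l * X = l * X * l) (hc : l * X * k = l * k) :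
    l * (u * X * ((u⁻¹ : Aˣ) : A)) * k = l * k := by
  have key : l * X * ((u⁻¹ : Aˣ) : A) * k = l * ((u⁻¹ : Aˣ) : A) * k := by
    calc l * X * ((u⁻¹ : Aˣ) : A) * k = (l * X * l) * ((u⁻¹ : Aˣ) : A) * k := by rw [← ha]
      _ = l * X * (l * ((u⁻¹ : Aˣ) : A) * k) := by simp only [mul_assoc]
      _ = l * X * (k * l * ((u⁻¹ : Aˣ) : A) * k) := by rw [← hu.b']
      _ = (l * X * k) * (l * ((u⁻¹ : Aˣ) : A) * k) := by simp only [mul_assoc]
      _ = (l * k) * (l * ((u⁻¹ : Aˣ) : A) * k) := by rw [hc]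
      _ = l * (k * l * ((u⁻¹ : Aˣ) : A) * k) := by simp only [mul_assoc]
      _ = l * (l * ((u⁻¹ : Aˣ) : A) * k) := by rw [hu.b']
      _ = (l * l) * ((u⁻¹ : Aˣ) : A) * k := by simp only [mul_assoc]
      _ = l * ((u⁻¹ : Aˣ) : A) * k := by rw [hl]
  calc l * (u * X * ((u⁻¹ : Aˣ) : A)) * k = (l * u) * X * ((u⁻¹ : Aˣ) : A) * k := by
        simp only [mul_assoc]
    _ = (l * u * l) * X * ((u⁻¹ : Aˣ) : A) * k := by rw [← hu.a]
    _ = l * u * (l * X * ((u⁻¹ : Aˣ) : A) * k) := by simp only [mul_assoc]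
    _ = l * u * (l * ((u⁻¹ : Aˣ) : A) * k) := by rw [key]
    _ = (l * u * l) * ((u⁻¹ : Aˣ) : A) * k := by simp only [mul_assoc]
    _ = (l * u) * ((u⁻¹ : Aˣ) : A) * k := by rw [← hu.a]
    _ = l * (u * ((u⁻¹ : Aˣ) : A)) * k := by simp only [mul_assoc]
    _ = l * k := by rw [Units.mul_inv, mul_one]

lemma Idm.conj {l k : A} (hl : l * l = l) {u X : Aˣ} (hu : TTp l k u) (hX : Idm l k X) :
    l * ((u * X * u⁻¹ : Aˣ) : A) * k = l * k ∧
      l * (((u * X * u⁻¹)⁻¹ : Aˣ) : A) * k = l * k := by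
  constructor
  · rw [Units.val_mul, Units.val_mul]
    exact conj_transp hl hu hX.a hX.c
  · have : (u * X * u⁻¹)⁻¹ = u * X⁻¹ * u⁻¹ := by group
    rw [this, Units.val_mul, Units.val_mul]
    exact conj_transp hl hu hX.a' hX.c'

end Pool.Agent.Y524
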