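import Pool.Agent.Y524.Tables

/-!
Finite checks (kernel evaluation of word substitutions).
-/

namespace Pool.Agent.Y524

set_option maxRecDepth 100000

lemma cD_inv : ∀ (k : Fin 12) (s : Bool), chk [tD k s, tD k (!s)] [] = true := by decide +kernel
lemma cJ_inv : ∀ (k : Fin 12) (s : Bool), chk [tJ k s, tJ k (!s)] [] = true := by decide +kernel
lemma cF_inv : ∀ (k : Fin 8) (s : Bool), chk [tF k s, tF k (!s)] [] = true := by decide +kernel
lemma cE5 : chk [tE5, tE5_i] [] = true ∧ chk [tE5_i, tE5] [] = true := by decide +kernel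
lemma cE4 : chk [tE4, tE4_i] [] = true ∧ chk [tE4_i, tE4] [] = true := by decide +kernel
lemma cTh : chk [tTh, tTh_i] [] = true ∧ chk [tTh_i, tTh] [] = true := by decide +kernel
lemma cf1 : chk [tf1, tf1_i] [] = true ∧ chk [tf1_i, tf1] [] = true := by decide +kernel
lemma cf2 : chk [tf2, tf2_i] [] = true ∧ chk [tf2_i, tf2] [] = true := by decide +kernel

lemma cD_bd : ∀ (k : Fin 12) (s : Bool), leq (sb (tD k s) bdw) bdw = true := by decide +kernel
lemma cJ_bd : ∀ (k : Fin 12) (s : Bool), leq (sb (tJ k s) bdw) bdw = true := by decide +kernel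
lemma cF_bd : ∀ (k : Fin 8) (s : Bool), leq (sb (tF k s) bdw) bdw = true := by decide +kernel
lemma cM_bd : ∀ t ∈ [tE5, tE5_i, tE4, tE4_i, tTh, tTh_i, tf1, tf1_i, tf2, tf2_i],
    leq (sb t bdw) bdw = true := by decide +kernel

/-- `r` absorbs `t`: `r t r = r t`. -/
abbrev absb (r t : Tb) : Bool := chk [r, t, r] [r, t]

lemma cD_B : ∀ (k : Fin 12) (s : Bool), absb rB (tD k s) = true := by decide +kernel
lemma cJ_G : ∀ (k : Fin 12) (s : Bool), absb rG (tJ k s) = true := by decide +kernel
lemma cJD : ∀ (k : Fin 12) (s : Bool), chk [ke, tJ k s, kf] [ke, tD k s, kf] = true := by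
  decide +kernel
lemma cDf : ∀ (k : Fin 12) (s : Bool), chk [tD k s, kf] [kf, tD k s, kf] = true := by
  decide +kernel
lemma cDe : ∀ (k : Fin 12) (s : Bool), absb ke (tD k s) = true := by decide +kernel
lemma cJe : ∀ (k : Fin 12) (s : Bool), absb ke (tJ k s) = true := by decide +kernel

/-- Table condition for the transparency subgroup. -/
abbrev tt (l k t : Tb) : Bool := absb l t && chk [k, l, t, k] [l, t, k]

lemma cJ_pq : ∀ (k : Fin 11) (s : Bool), tt kp kq (tJ k.castSucc s) = true := by decide +kernel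
lemma cD_qp : ∀ (k : Fin 11) (s : Bool), tt kq kp (tD k.castSucc s) = true := by decide +kernel
lemma cP : ∀ s : Bool, (chk [kp, tJ 11 s, kq] [kp, kq] && absb kp (tJ 11 s)) = true := by
  decide +kernel
lemma cE : ∀ t ∈ [tE5, tE5_i, tE4, tE4_i], (chk [kq, t, kp] [kq, kp] && absb kq t && absb rB t) = true := by
  decide +kernel
lemma cDel5 : chk [tE5, tD 11 false] [tD 0 true, tD 1 true, tD 0 false, tD 10 false, tD 10 false,
    tD 11 false, tE5] = true := by decide +kernel
lemma cDel4 : chk [tE4, tD 11 false] [tD 2 true, tD 3 true, tD 2 false, tD 10 false, tD 10 false,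
    tD 11 false, tE4] = true := by decide +kernel
lemma cD_5 : ∀ (k : Fin 11) (s : Bool), k = 1 ∨ tt ka5 kb5 (tD k.castSucc s) = true := by
  decide +kernel
lemma cD_4 : ∀ (k : Fin 11) (s : Bool), k = 3 ∨ tt ka4 kb4 (tD k.castSucc s) = true := by
  decide +kernel
lemma cA5 : ∀ s : Bool, (chk [ka5, tD 0 s, kb5] [ka5, kb5]) = true := by decide +kernel
lemma cA4 : ∀ s : Bool, (chk [ka4, tD 2 s, kb4] [ka4, kb4]) = true := by decide +kernel
lemma cF_AB : ∀ (k : Fin 8) (s : Bool), (absb rA (tF k s) && absb rB (tF k s)) = true := by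
  decide +kernel
lemma cTh_AB : ∀ t ∈ [tTh, tTh_i], (absb rA t && absb rB t) = true := by decide +kernel
lemma cTau : ∀ k : Fin 12, chk [tD k false, tD 10 false] [tD 10 false, tD k false] = true := by
  decide +kernel
lemma cS : chk [rC, tD 8 false, tTh] [tS] = true := by decide +kernel

end Pool.Agent.Y524
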