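import Pool.Agent.Y524.Checks
import Pool.Agent.Y524.Alg

/-!
The automorphisms as units of the endomorphism monoid, stabilizers of kernels, and the
relation of triples.
-/

namespace Pool.Agent.Y524

/-- Endomorphisms. -/
abbrev EE := Monoid.End FF

/-- Automorphisms. -/
abbrev UU := EEˣ

lemma cmp_one (t : Tb) : cmp [t] = endo t := by simp
lemma cmp_two (t u : Tb) : cmp [t, u] = endo t * endo u := by simp
lemma cmp_three (t u v : Tb) : cmp [t, u, v] = endo t * endo u * endo v := by simp [mul_assoc]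
lemma cmp_four (t u v w : Tb) : cmp [t, u, v, w] = endo t * endo u * endo v * endo w := by
  simp [mul_assoc]

/-- A unit from a pair of inverse tables. -/
def mkU (t t' : Tb) (h : chk [t, t'] [] = true) (h' : chk [t', t] [] = true) : UU where
  val := endo t
  inv := endo t'
  val_inv := by simpa [mul_assoc] using chk_sound h
  inv_val := by simpa [mul_assoc] using chk_sound h'

@[simp] lemma mkU_val (t t' : Tb) (h h') : ((mkU t t' h h' : UU) : EE) = endo t := rfl
@[simp] lemma mkU_inv (t t' : Tb) (h h') : (((mkU t t' h h')⁻¹ : UU) : EE) = endo t' := rfl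

/-- Letter pushes. -/
def uD (k : Fin 12) : UU := mkU (tD k false) (tD k true) (cD_inv k false) (cD_inv k true)
/-- Joint pushes. -/
def uJ (k : Fin 12) : UU := mkU (tJ k false) (tJ k true) (cJ_inv k false) (cJ_inv k true)
/-- Foot pushes. -/
def uF (k : Fin 8) : UU := mkU (tF k false) (tF k true) (cF_inv k false) (cF_inv k true)
def uE5 : UU := mkU tE5 tE5_i cE5.1 cE5.2
def uE4 : UU := mkU tE4 tE4_i cE4.1 cE4.2
def uTh : UU := mkU tTh tTh_i cTh.1 cTh.2
def uf1 : UU := mkU tf1 tf1_i cf1.1 cf1.2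
def uf2 : UU := mkU tf2 tf2_i cf2.1 cf2.2

lemma uD_val (k : Fin 12) : ((uD k : UU) : EE) = endo (tD k false) := rfl
lemma uD_inv (k : Fin 12) : (((uD k)⁻¹ : UU) : EE) = endo (tD k true) := rfl
lemma uJ_val (k : Fin 12) : ((uJ k : UU) : EE) = endo (tJ k false) := rfl
lemma uJ_inv (k : Fin 12) : (((uJ k)⁻¹ : UU) : EE) = endo (tJ k true) := rfl
lemma uF_val (k : Fin 8) : ((uF k : UU) : EE) = endo (tF k false) := rfl
lemma uF_inv (k : Fin 8) : (((uF k)⁻¹ : UU) : EE) = endo (tF k true) := rfl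

/-- The boundary. -/
def bdF : FF := ev bdw

lemma fix_of {t : Tb} (h : leq (sb t bdw) bdw = true) : endo t bdF = bdF := by
  unfold bdF
  rw [endo_ev, leq_sound _ _ h]

/-- Automorphisms fixing the boundary. -/
def fixB : Subgroup UU where
  carrier := {u | (u : EE) bdF = bdF}
  one_mem' := rfl
  mul_mem' := by
    intro u v hu hv
    change (u : EE) ((v : EE) bdF) = bdF
    rw [hv, hu]
  inv_mem' := by
    intro u hu
    change ((u⁻¹ : UU) : EE) bdF = bdF
    have h : ((u⁻¹ : UU) : EE) ((u : EE) bdF) = bdF := by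
      change (((u⁻¹ : UU) : EE) * (u : EE)) bdF = bdF
      rw [Units.inv_mul]; rfl
    rwa [show (u : EE) bdF = bdF from hu] at h

lemma inv_apply_self (u : UU) (x : FF) : ((u⁻¹ : UU) : EE) ((u : EE) x) = x := by
  change (((u⁻¹ : UU) : EE) * (u : EE)) x = x
  rw [Units.inv_mul]; rfl

lemma apply_inv_self (u : UU) (x : FF) : (u : EE) (((u⁻¹ : UU) : EE) x) = x := by
  change ((u : EE) * ((u⁻¹ : UU) : EE)) x = x
  rw [Units.mul_inv]; rfl

/-- Automorphisms preserving the kernel of `r`. -/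
def Stab (r : EE) : Subgroup UU where
  carrier := {u | ∀ x, r ((u : EE) x) = 1 ↔ r x = 1}
  one_mem' := fun _ => Iff.rfl
  mul_mem' := by
    intro u v hu hv x
    change r ((u : EE) ((v : EE) x)) = 1 ↔ r x = 1
    rw [hu, hv]
  inv_mem' := by
    intro u hu x
    have h := hu (((u⁻¹ : UU) : EE) x)
    rw [apply_inv_self] at h
    exact h.symm

lemma mem_Stab {r : EE} {u : UU} : u ∈ Stab r ↔ ∀ x, r ((u : EE) x) = 1 ↔ r x = 1 := Iff.rfl

lemma Stab_of {r : EE} {u : UU} (h : r * u = r * u * r)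
    (h' : r * ((u⁻¹ : UU) : EE) = r * ((u⁻¹ : UU) : EE) * r) : u ∈ Stab r := by
  intro x
  have h1 : ∀ y, r ((u : EE) y) = r ((u : EE) (r y)) := fun y => DFunLike.congr_fun h y
  have h2 : ∀ y, r (((u⁻¹ : UU) : EE) y) = r (((u⁻¹ : UU) : EE) (r y)) :=
    fun y => DFunLike.congr_fun h' y
  constructor
  · intro hx
    have := h2 ((u : EE) x)
    rw [inv_apply_self, hx, map_one, map_one] at this
    exact this
  · intro hx
    rw [h1, hx, map_one, map_one]

lemma absb_sound {r t : Tb} (h : absb r t = true) : endo r * endo t = endo r * endo t * endo r := by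
  have := chk_sound h
  rw [cmp_three, cmp_two] at this
  exact this.symm

lemma tt_sound {l k t : Tb} (h : tt l k t = true) :
    endo l * endo t = endo l * endo t * endo l ∧
      endo k * endo l * endo t * endo k = endo l * endo t * endo k := by
  rw [tt, Bool.and_eq_true] at h
  refine ⟨absb_sound h.1, ?_⟩
  have := chk_sound h.2
  rwa [cmp_four, cmp_three] at this

/-- Letter condition for retractions. -/
def letck (r k : Tb) : Bool :=
  (List.range 22).all fun j => leq (sb r [2 * j]) [2 * j] ||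
    (leq (sb k [2 * j]) [2 * j] && leq (sb k (sb r [2 * j])) (sb r [2 * j]))

lemma letck_sound {r k : Tb} (h : letck r k = true) (j : ℕ) (hj : j < 22) :
    endo r (gen j) = gen j ∨
      (endo k (gen j) = gen j ∧ endo k (endo r (gen j)) = endo r (gen j)) := by
  unfold letck at h
  rw [List.all_eq_true] at h
  have h1 := h j (List.mem_range.mpr hj)
  rw [Bool.or_eq_true, Bool.and_eq_true] at h1
  rcases h1 with h1 | ⟨h1, h2⟩
  · left
    rw [gen_eq_ev, endo_ev, leq_sound _ _ h1]
  · right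
    rw [gen_eq_ev, endo_ev, endo_ev, endo_ev, leq_sound _ _ h1, leq_sound _ _ h2]
    exact ⟨rfl, rfl⟩

/-- The retraction lemma. -/
lemma retr {r l k X : EE} (hrl : r * l = r) (hrr : r * r = r) (hX : l * X * k = l * k)
    (hlet : ∀ j < 22, r (gen j) = gen j ∨ (k (gen j) = gen j ∧ k (r (gen j)) = r (gen j))) :
    r * X = r * X * r := by
  have h1 : r * X * k = r * k := by
    calc r * X * k = (r * l) * X * k := by rw [hrl]
      _ = r * (l * X * k) := by simp only [mul_assoc]
      _ = r * (l * k) := by rw [hX]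
      _ = (r * l) * k := by simp only [mul_assoc]
      _ = r * k := by rw [hrl]
  have h2 : ∀ y, r (X (k y)) = r (k y) := fun y => DFunLike.congr_fun h1 y
  have h3 : ∀ y, r (r y) = r y := fun y => DFunLike.congr_fun hrr y
  refine End_ext fun j hj => ?_
  change r (X (gen j)) = r (X (r (gen j)))
  rcases hlet j hj with h | ⟨h, h'⟩
  · rw [h]
  · have e1 : r (X (gen j)) = r (gen j) := by
      have := h2 (gen j); rwa [h] at this
    have e2 : r (X (r (gen j))) = r (r (gen j)) := by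
      have := h2 (r (gen j)); rwa [h'] at this
    rw [e1, e2, h3]

lemma retr_Stab {r l k : EE} {X : UU} (hrl : r * l = r) (hrr : r * r = r)
    (hX : l * X * k = l * k) (hX' : l * ((X⁻¹ : UU) : EE) * k = l * k)
    (hlet : ∀ j < 22, r (gen j) = gen j ∨ (k (gen j) = gen j ∧ k (r (gen j)) = r (gen j))) :
    X ∈ Stab r :=
  Stab_of (retr hrl hrr hX hlet) (retr hrl hrr hX' hlet)

/-- The conjugate of an element which is transparent, by a transparent unit, preserves the
kernel. -/
lemma conj_Stab {r l k : EE} {u X : UU} (hl : l * l = l) (hrl : r * l = r) (hrr : r * r = r)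
    (hu : TTp l k u) (hX : Idm l k X)
    (hlet : ∀ j < 22, r (gen j) = gen j ∨ (k (gen j) = gen j ∧ k (r (gen j)) = r (gen j))) :
    u * X * u⁻¹ ∈ Stab r :=
  retr_Stab hrl hrr (Idm.conj hl hu hX).1 (Idm.conj hl hu hX).2 hlet

/-- Triples of endomorphisms (thought of as triples of kernels) related by an automorphism
fixing the boundary. -/
def Eqv (ρ ρ' : Fin 3 → EE) : Prop :=
  ∃ u : UU, u ∈ fixB ∧ ∀ i x, ρ' i ((u : EE) x) = 1 ↔ ρ i x = 1

lemma Eqv.refl (ρ : Fin 3 → EE) : Eqv ρ ρ := ⟨1, one_mem _, fun _ _ => Iff.rfl⟩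

lemma Eqv.symm {ρ ρ' : Fin 3 → EE} (h : Eqv ρ ρ') : Eqv ρ' ρ := by
  obtain ⟨u, hu, h⟩ := h
  refine ⟨u⁻¹, inv_mem hu, fun i x => ?_⟩
  rw [← h i, apply_inv_self]

lemma Eqv.trans {ρ ρ' ρ'' : Fin 3 → EE} (h : Eqv ρ ρ') (h' : Eqv ρ' ρ'') : Eqv ρ ρ'' := by
  obtain ⟨u, hu, h⟩ := h
  obtain ⟨v, hv, h'⟩ := h'
  refine ⟨v * u, mul_mem hv hu, fun i x => ?_⟩
  change ρ'' i ((v : EE) ((u : EE) x)) = 1 ↔ _
  rw [h', h]

/-- The triple of a push. -/
def big (d : UU) : Fin 3 → EE := ![endo rA, endo rB, endo rG * d]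

lemma eqv_triple {a b c a' b' c' : EE} (u : UU) (hu : u ∈ fixB)
    (h0 : ∀ x, a' ((u : EE) x) = 1 ↔ a x = 1) (h1 : ∀ x, b' ((u : EE) x) = 1 ↔ b x = 1)
    (h2 : ∀ x, c' ((u : EE) x) = 1 ↔ c x = 1) : Eqv ![a, b, c] ![a', b', c'] := by
  refine ⟨u, hu, fun i x => ?_⟩
  fin_cases i
  · exact h0 x
  · exact h1 x
  · exact h2 x

end Pool.Agent.Y524
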