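import Pool.Agent.Y524.Core1

/-!
Push groups and deletion lemmas.
-/

namespace Pool.Agent.Y524

set_option maxRecDepth 100000

lemma kidem : ∀ t ∈ [rA, rB, rG, ke, kf, kp, kq, ka5, kb5, ka4, kb4], chk [t, t] [t] = true := by
  decide +kernel
lemma kabs : ∀ t ∈ [(rA, ke), (rA, kq), (rB, kp), (rG, kq), (rG, ka5), (rG, ka4)],
    chk [t.1, t.2] [t.1] = true := by decide +kernel
lemma kcom : ∀ t ∈ [(kp, kq), (ka5, kb5), (ka4, kb4)], chk [t.1, t.2] [t.2, t.1] = true := by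
  decide +kernel
lemma klet : ∀ t ∈ [(rA, kf), (rA, kp), (rB, kq), (rG, kp), (rG, kb5), (rG, kb4)],
    letck t.1 t.2 = true := by decide +kernel

lemma idem_of {t : Tb} (h : t ∈ [rA, rB, rG, ke, kf, kp, kq, ka5, kb5, ka4, kb4]) :
    endo t * endo t = endo t := by
  have := chk_sound (kidem t h)
  rwa [cmp_two, cmp_one] at this

lemma abs_of {r l : Tb}
    (h : (r, l) ∈ [(rA, ke), (rA, kq), (rB, kp), (rG, kq), (rG, ka5), (rG, ka4)]) :
    endo r * endo l = endo r := by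
  have := chk_sound (kabs (r, l) h)
  rwa [cmp_two, cmp_one] at this

lemma com_of {r l : Tb} (h : (r, l) ∈ [(kp, kq), (ka5, kb5), (ka4, kb4)]) :
    endo r * endo l = endo l * endo r := by
  have := chk_sound (kcom (r, l) h)
  rwa [cmp_two, cmp_two] at this

/-- Pairs (push, joint push) for the letters of the five blocks and the twist. -/
def P0 : Subgroup (UU × UU) := Subgroup.closure (Set.range fun k : Fin 11 => (uD k.castSucc, uJ k.castSucc))
/-- All pairs. -/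
def P1 : Subgroup (UU × UU) := Subgroup.closure (Set.range fun k : Fin 12 => (uD k, uJ k))

lemma P0_le_P1 : P0 ≤ P1 := by
  refine Subgroup.closure_mono ?_
  rintro _ ⟨k, rfl⟩
  exact ⟨k.castSucc, rfl⟩

lemma gen_P1 (k : Fin 12) : (uD k, uJ k) ∈ P1 := Subgroup.subset_closure ⟨k, rfl⟩
lemma gen_P0 (k : Fin 11) : (uD k.castSucc, uJ k.castSucc) ∈ P0 := Subgroup.subset_closure ⟨k, rfl⟩

lemma P1_fixB {p : UU × UU} (hp : p ∈ P1) : p.1 ∈ fixB ∧ p.2 ∈ fixB := by
  have h : P1 ≤ fixB.prod fixB := by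
    refine (Subgroup.closure_le _).mpr ?_
    rintro _ ⟨k, rfl⟩
    exact ⟨fix_of (cD_bd k false), fix_of (cJ_bd k false)⟩
  exact h hp

lemma P1_stab {p : UU × UU} (hp : p ∈ P1) : p.1 ∈ Stab (endo rB) ∧ p.2 ∈ Stab (endo rG) := by
  have h : P1 ≤ (Stab (endo rB)).prod (Stab (endo rG)) := by
    refine (Subgroup.closure_le _).mpr ?_
    rintro _ ⟨k, rfl⟩
    exact ⟨Stab_of (absb_sound (cD_B k false)) (absb_sound (cD_B k true)),
      Stab_of (absb_sound (cJ_G k false)) (absb_sound (cJ_G k true))⟩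
  exact h hp

/-- The relation between a push and its joint push. -/
structure QQ (p : UU × UU) : Prop where
  a : endo ke * p.2 * endo kf = endo ke * p.1 * endo kf
  a' : endo ke * ((p.2⁻¹ : UU) : EE) * endo kf = endo ke * ((p.1⁻¹ : UU) : EE) * endo kf
  b : (p.1 : EE) * endo kf = endo kf * p.1 * endo kf
  b' : ((p.1⁻¹ : UU) : EE) * endo kf = endo kf * ((p.1⁻¹ : UU) : EE) * endo kf
  c : endo ke * p.1 = endo ke * p.1 * endo ke
  c' : endo ke * ((p.1⁻¹ : UU) : EE) = endo ke * ((p.1⁻¹ : UU) : EE) * endo ke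
  d : endo ke * p.2 = endo ke * p.2 * endo ke
  d' : endo ke * ((p.2⁻¹ : UU) : EE) = endo ke * ((p.2⁻¹ : UU) : EE) * endo ke

lemma QQ_aux {A : Type*} [Monoid A] {l k j2 j1 d2 d1 : A} (hd : l * j2 = l * j2 * l)
    (ha1 : l * j1 * k = l * d1 * k) (hb1 : d1 * k = k * d1 * k) (ha2 : l * j2 * k = l * d2 * k) :
    l * (j2 * j1) * k = l * (d2 * d1) * k := by
  calc l * (j2 * j1) * k = (l * j2) * j1 * k := by simp only [mul_assoc]
    _ = (l * j2 * l) * j1 * k := by rw [← hd]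
    _ = l * j2 * (l * j1 * k) := by simp only [mul_assoc]
    _ = l * j2 * (l * d1 * k) := by rw [ha1]
    _ = (l * j2 * l) * (d1 * k) := by simp only [mul_assoc]
    _ = (l * j2) * (d1 * k) := by rw [← hd]
    _ = (l * j2) * (k * d1 * k) := by rw [← hb1]
    _ = (l * j2 * k) * (d1 * k) := by simp only [mul_assoc]
    _ = (l * d2 * k) * (d1 * k) := by rw [ha2]
    _ = l * d2 * (k * d1 * k) := by simp only [mul_assoc]
    _ = l * d2 * (d1 * k) := by rw [← hb1]
    _ = l * (d2 * d1) * k := by simp only [mul_assoc]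

lemma QQ_aux2 {A : Type*} [Monoid A] {k d2 d1 : A} (hb1 : d1 * k = k * d1 * k)
    (hb2 : d2 * k = k * d2 * k) : d2 * d1 * k = k * (d2 * d1) * k := by
  calc d2 * d1 * k = d2 * (d1 * k) := by simp only [mul_assoc]
    _ = d2 * (k * d1 * k) := by rw [← hb1]
    _ = (d2 * k) * (d1 * k) := by simp only [mul_assoc]
    _ = (k * d2 * k) * (d1 * k) := by rw [← hb2]
    _ = k * d2 * (k * d1 * k) := by simp only [mul_assoc]
    _ = k * d2 * (d1 * k) := by rw [← hb1]
    _ = k * (d2 * d1) * k := by simp only [mul_assoc]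

lemma QQ_mul {p q : UU × UU} (hp : QQ p) (hq : QQ q) : QQ (p * q) where
  a := by
    rw [Prod.snd_mul, Prod.fst_mul, Units.val_mul, Units.val_mul]
    exact QQ_aux hp.d hq.a hq.b hp.a
  a' := by
    rw [Prod.snd_mul, Prod.fst_mul, mul_inv_rev, mul_inv_rev, Units.val_mul, Units.val_mul]
    exact QQ_aux hq.d' hp.a' hp.b' hq.a'
  b := by
    rw [Prod.fst_mul, Units.val_mul]
    exact QQ_aux2 hq.b hp.b
  b' := by
    rw [Prod.fst_mul, mul_inv_rev, Units.val_mul]
    exact QQ_aux2 hp.b' hq.b'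
  c := by rw [Prod.fst_mul, Units.val_mul]; exact absorb_mul hp.c hq.c
  c' := by rw [Prod.fst_mul, mul_inv_rev, Units.val_mul]; exact absorb_mul hq.c' hp.c'
  d := by rw [Prod.snd_mul, Units.val_mul]; exact absorb_mul hp.d hq.d
  d' := by rw [Prod.snd_mul, mul_inv_rev, Units.val_mul]; exact absorb_mul hq.d' hp.d'

lemma QQ_inv {p : UU × UU} (hp : QQ p) : QQ p⁻¹ where
  a := hp.a'
  a' := by simpa using hp.a
  b := hp.b'
  b' := by simpa using hp.b
  c := hp.c'
  c' := by simpa using hp.c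
  d := hp.d'
  d' := by simpa using hp.d

lemma QQ_one : QQ 1 where
  a := rfl
  a' := rfl
  b := by
    simp only [Prod.fst_one, Units.val_one, one_mul, mul_one]
    exact (idem_of (by simp)).symm
  b' := by
    simp only [Prod.fst_one, inv_one, Units.val_one, one_mul, mul_one]
    exact (idem_of (by simp)).symm
  c := by simp only [Prod.fst_one, Units.val_one, mul_one]; exact (idem_of (by simp)).symm
  c' := by
    simp only [Prod.fst_one, inv_one, Units.val_one, mul_one]; exact (idem_of (by simp)).symm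
  d := by simp only [Prod.snd_one, Units.val_one, mul_one]; exact (idem_of (by simp)).symm
  d' := by
    simp only [Prod.snd_one, inv_one, Units.val_one, mul_one]; exact (idem_of (by simp)).symm

lemma cJD' (k : Fin 12) (s : Bool) :
    endo ke * endo (tJ k s) * endo kf = endo ke * endo (tD k s) * endo kf := by
  have := chk_sound (cJD k s)
  rwa [cmp_three, cmp_three] at this

lemma cDf' (k : Fin 12) (s : Bool) :
    endo (tD k s) * endo kf = endo kf * endo (tD k s) * endo kf := by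
  have := chk_sound (cDf k s)
  rwa [cmp_two, cmp_three] at this

lemma P1_QQ {p : UU × UU} (hp : p ∈ P1) : QQ p := by
  induction hp using Subgroup.closure_induction with
  | mem x hx =>
    obtain ⟨k, rfl⟩ := hx
    exact ⟨cJD' k false, cJD' k true, cDf' k false, cDf' k true, absb_sound (cDe k false),
      absb_sound (cDe k true), absb_sound (cJe k false), absb_sound (cJe k true)⟩
  | one => exact QQ_one
  | mul x y _ _ hx hy => exact QQ_mul hx hy
  | inv x _ hx => exact QQ_inv hx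

lemma QQ_id {A : Type*} [Monoid A] {l k : A} {j d : Aˣ}
    (hd' : l * ((j⁻¹ : Aˣ) : A) = l * ((j⁻¹ : Aˣ) : A) * l) (ha : l * j * k = l * d * k) :
    l * (((j⁻¹ : Aˣ) : A) * d) * k = l * k := by
  calc l * (((j⁻¹ : Aˣ) : A) * d) * k = (l * ((j⁻¹ : Aˣ) : A)) * d * k := by
        simp only [mul_assoc]
    _ = (l * ((j⁻¹ : Aˣ) : A) * l) * d * k := by rw [← hd']
    _ = l * ((j⁻¹ : Aˣ) : A) * (l * d * k) := by simp only [mul_assoc]
    _ = l * ((j⁻¹ : Aˣ) : A) * (l * j * k) := by rw [ha]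
    _ = (l * ((j⁻¹ : Aˣ) : A) * l) * j * k := by simp only [mul_assoc]
    _ = (l * ((j⁻¹ : Aˣ) : A)) * j * k := by rw [← hd']
    _ = l * (((j⁻¹ : Aˣ) : A) * j) * k := by simp only [mul_assoc]
    _ = l * k := by rw [Units.inv_mul, mul_one]

/-- `j⁻¹ d` preserves the alpha kernel. -/
lemma P1_alpha {p : UU × UU} (hp : p ∈ P1) : p.2⁻¹ * p.1 ∈ Stab (endo rA) := by
  have hQ := P1_QQ hp
  refine retr_Stab (l := endo ke) (k := endo kf) (abs_of (by simp)) (idem_of (by simp)) ?_ ?_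
    (letck_sound (klet (rA, kf) (by simp)))
  · rw [Units.val_mul]
    exact QQ_id hQ.d' hQ.a
  · have : (p.2⁻¹ * p.1)⁻¹ = p.1⁻¹ * p.2 := by group
    rw [this, Units.val_mul]
    exact QQ_id hQ.c' hQ.a.symm

/-- Lemma A: the push triple is equivalent to the joint push triple. -/
lemma lemA {p : UU × UU} (hp : p ∈ P1) : Eqv (big p.1) ![endo rA, endo rB * p.2, endo rG] := by
  obtain ⟨h1, h2⟩ := P1_stab hp
  refine eqv_triple (p.2⁻¹ * p.1) (mul_mem (inv_mem (P1_fixB hp).2) (P1_fixB hp).1)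
    (P1_alpha hp) ?_ ?_
  · intro x
    change endo rB ((p.2 : EE) (((p.2⁻¹ : UU) : EE) ((p.1 : EE) x))) = 1 ↔ _
    rw [apply_inv_self]
    exact h1 x
  · intro x
    change endo rG (((p.2⁻¹ : UU) : EE) ((p.1 : EE) x)) = 1 ↔ endo rG ((p.1 : EE) x) = 1
    exact (inv_mem h2) _

lemma P0_TT_J {p : UU × UU} (hp : p ∈ P0) : TTp (endo kp) (endo kq) p.2 := by
  induction hp using Subgroup.closure_induction with
  | mem x hx =>
    obtain ⟨k, rfl⟩ := hx
    obtain ⟨a, b⟩ := tt_sound (cJ_pq k false)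
    obtain ⟨a', b'⟩ := tt_sound (cJ_pq k true)
    exact ⟨a, a', b, b'⟩
  | one => exact TTp.one (idem_of (by simp)) (idem_of (by simp)) (com_of (by simp))
  | mul x y _ _ hx hy => exact hx.mul hy
  | inv x _ hx => exact hx.inv

lemma kqp_com : endo kq * endo kp = endo kp * endo kq := (com_of (by simp)).symm

lemma P0_TT_D {p : UU × UU} (hp : p ∈ P0) : TTp (endo kq) (endo kp) p.1 := by
  induction hp using Subgroup.closure_induction with
  | mem x hx =>
    obtain ⟨k, rfl⟩ := hx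
    obtain ⟨a, b⟩ := tt_sound (cD_qp k false)
    obtain ⟨a', b'⟩ := tt_sound (cD_qp k true)
    exact ⟨a, a', b, b'⟩
  | one => exact TTp.one (idem_of (by simp)) (idem_of (by simp)) kqp_com
  | mul x y _ _ hx hy => exact hx.mul hy
  | inv x _ hx => exact hx.inv

lemma P_idm : Idm (endo kp) (endo kq) (uJ 11) := by
  have h := cP false
  have h' := cP true
  rw [Bool.and_eq_true] at h h'
  have c := chk_sound h.1
  have c' := chk_sound h'.1
  rw [cmp_three, cmp_two] at c c'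
  exact ⟨absb_sound h.2, absb_sound h'.2, c, c'⟩

/-- Lemma b: insertion of the letter `p`. -/
lemma lemb {p2 p1 : UU × UU} (h2 : p2 ∈ P0) (h1 : p1 ∈ P0) :
    Eqv (big (p2.1 * uD 11 * p1.1)) (big (p2.1 * p1.1)) := by
  have hP : p2 * (uD 11, uJ 11) * p1 ∈ P1 :=
    mul_mem (mul_mem (P0_le_P1 h2) (gen_P1 11)) (P0_le_P1 h1)
  have hP' : p2 * p1 ∈ P1 := mul_mem (P0_le_P1 h2) (P0_le_P1 h1)
  refine (lemA hP).trans (Eqv.trans ?_ (lemA hP').symm)
  refine eqv_triple 1 (one_mem _) (fun _ => Iff.rfl) ?_ (fun _ => Iff.rfl)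
  intro x
  have hX : p2.2 * uJ 11 * p2.2⁻¹ ∈ Stab (endo rB) :=
    conj_Stab (idem_of (by simp)) (abs_of (by simp)) (idem_of (by simp)) (P0_TT_J h2) P_idm
      (letck_sound (klet (rB, kq) (by simp)))
  have := hX (((p2.2 * p1.2 : UU) : EE) x)
  have e : ((p2.2 * uJ 11 * p2.2⁻¹ : UU) : EE) (((p2.2 * p1.2 : UU) : EE) x) =
      ((p2.2 * uJ 11 * p1.2 : UU) : EE) x := by
    change (((p2.2 * uJ 11 * p2.2⁻¹ : UU) * (p2.2 * p1.2 : UU) : UU) : EE) x = _
    congr 2
    group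
  rw [e] at this
  exact this.symm

lemma E_facts {t : Tb} (h : t ∈ [tE5, tE5_i, tE4, tE4_i]) :
    endo kq * endo t * endo kp = endo kq * endo kp ∧
      endo kq * endo t = endo kq * endo t * endo kq ∧
      endo rB * endo t = endo rB * endo t * endo rB := by
  have h := cE t h
  rw [Bool.and_eq_true, Bool.and_eq_true] at h
  have c := chk_sound h.1.1
  rw [cmp_three, cmp_two] at c
  exact ⟨c, absb_sound h.1.2, absb_sound h.2⟩

/-- Lemma c: the exchange trick. -/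
lemma lemc {E : UU} {Δ : UU} (hEidm : Idm (endo kq) (endo kp) E) (hEB : E ∈ Stab (endo rB))
    (hEf : E ∈ fixB) (hΔ : E * uD 11 = Δ * uD 11 * E) {p2 p1 : UU × UU} (h2 : p2 ∈ P0)
    (h1 : p1 ∈ P0) : Eqv (big (p2.1 * Δ * uD 11 * p1.1)) (big (p2.1 * uD 11 * p1.1)) := by
  have hA : p1.1⁻¹ * E⁻¹ * p1.1⁻¹⁻¹ ∈ Stab (endo rA) :=
    conj_Stab (idem_of (by simp)) (abs_of (by simp)) (idem_of (by simp)) (P0_TT_D h1).inv
      hEidm.inv (letck_sound (klet (rA, kp) (by simp)))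
  have hG : p2.1 * E⁻¹ * p2.1⁻¹ ∈ Stab (endo rG) :=
    conj_Stab (idem_of (by simp)) (abs_of (by simp)) (idem_of (by simp)) (P0_TT_D h2)
      hEidm.inv (letck_sound (klet (rG, kp) (by simp)))
  have hd1 := P1_stab (P0_le_P1 h1)
  have hd2 := P1_stab (P0_le_P1 h2)
  have hf1 := P1_fixB (P0_le_P1 h1)
  rw [inv_inv] at hA
  refine eqv_triple (p1.1⁻¹ * E⁻¹ * p1.1)
    (mul_mem (mul_mem (inv_mem hf1.1) (inv_mem hEf)) hf1.1) hA
    (mul_mem (mul_mem (inv_mem hd1.1) (inv_mem hEB)) hd1.1) ?_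
  intro x
  have key : p2.1 * uD 11 * p1.1 * (p1.1⁻¹ * E⁻¹ * p1.1) =
      (p2.1 * E⁻¹ * p2.1⁻¹) * (p2.1 * Δ * uD 11 * p1.1) := by
    have : uD 11 * E⁻¹ = E⁻¹ * (Δ * uD 11) := by
      rw [eq_inv_mul_iff_mul_eq, ← mul_assoc, hΔ]; group
    calc p2.1 * uD 11 * p1.1 * (p1.1⁻¹ * E⁻¹ * p1.1) = p2.1 * (uD 11 * E⁻¹) * p1.1 := by group
      _ = p2.1 * (E⁻¹ * (Δ * uD 11)) * p1.1 := by rw [this]
      _ = _ := by group
  have := hG (((p2.1 * Δ * uD 11 * p1.1 : UU) : EE) x)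
  have e : ((p2.1 * E⁻¹ * p2.1⁻¹ : UU) : EE) (((p2.1 * Δ * uD 11 * p1.1 : UU) : EE) x) =
      ((p2.1 * uD 11 * p1.1 : UU) : EE) (((p1.1⁻¹ * E⁻¹ * p1.1 : UU) : EE) x) := by
    change (((p2.1 * E⁻¹ * p2.1⁻¹) * (p2.1 * Δ * uD 11 * p1.1) : UU) : EE) x =
      ((p2.1 * uD 11 * p1.1 * (p1.1⁻¹ * E⁻¹ * p1.1) : UU) : EE) x
    rw [key]
  rw [e] at this
  exact this

/-- Deletion of the commutator `Δ`. -/
lemma lemd {E : UU} {δ : UU × UU} (hδ : δ ∈ P0) (hEidm : Idm (endo kq) (endo kp) E)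
    (hEB : E ∈ Stab (endo rB)) (hEf : E ∈ fixB) (hΔ : E * uD 11 = δ.1 * uD 11 * E)
    {p2 p1 : UU × UU} (h2 : p2 ∈ P0) (h1 : p1 ∈ P0) :
    Eqv (big ((p2 * δ * p1).1)) (big (p2 * p1).1) := by
  have e1 := lemb (mul_mem h2 hδ) h1
  have e2 := lemc hEidm hEB hEf hΔ h2 h1
  have e3 := lemb h2 h1
  exact e1.symm.trans (e2.trans e3)

end Pool.Agent.Y524
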