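import Pool.Agent.Y524.Core2

/-!
Deleting all letters of the two trivial blocks.
-/

namespace Pool.Agent.Y524

/-- The letter pairs. -/
def gg (k : Fin 11) : UU × UU := (uD k.castSucc, uJ k.castSucc)

/-- Subgroups generated by some of the letters. -/
def PS (s : Fin 11 → Prop) : Subgroup (UU × UU) := Subgroup.closure (gg '' {k | s k})

lemma gg_mem {s : Fin 11 → Prop} {k : Fin 11} (h : s k) : gg k ∈ PS s :=
  Subgroup.subset_closure ⟨k, h, rfl⟩

lemma PS_mono {s t : Fin 11 → Prop} (h : ∀ k, s k → t k) : PS s ≤ PS t :=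
  Subgroup.closure_mono (Set.image_mono h)

lemma PS_le_P0 (s : Fin 11 → Prop) : PS s ≤ P0 := by
  refine Subgroup.closure_mono ?_
  rintro _ ⟨k, _, rfl⟩
  exact ⟨k, rfl⟩

lemma gg_P0 (k : Fin 11) : gg k ∈ P0 := gen_P0 k

/-- Sweeping from left to right. -/
lemma sweep (S : Set (UU × UU)) (G : Subgroup (UU × UU))
    (hstep : ∀ g ∈ S, ∀ p2 ∈ G, ∀ p1 ∈ Subgroup.closure S,
      (∃ p' ∈ G, Eqv (big (p2 * g * p1).1) (big (p2 * p' * p1).1)) ∧
        ∃ p' ∈ G, Eqv (big (p2 * g⁻¹ * p1).1) (big (p2 * p' * p1).1)) :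
    ∀ p ∈ Subgroup.closure S, ∃ p' ∈ G, Eqv (big p.1) (big p'.1) := by
  have key : ∀ l : List (UU × UU), (∀ x ∈ l, x ∈ S ∨ x⁻¹ ∈ S) → ∀ p2 ∈ G,
      ∃ p' ∈ G, Eqv (big (p2 * l.prod).1) (big p'.1) := by
    intro l
    induction l with
    | nil =>
      intro _ p2 h2
      exact ⟨p2, h2, by simpa using Eqv.refl _⟩
    | cons g l ih =>
      intro hl p2 h2
      have hl' : l.prod ∈ Subgroup.closure S := by
        refine Subgroup.list_prod_mem _ fun x hx => ?_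
        rcases hl x (List.mem_cons_of_mem _ hx) with h | h
        · exact Subgroup.subset_closure h
        · have := inv_mem (Subgroup.subset_closure h : x⁻¹ ∈ Subgroup.closure S)
          rwa [inv_inv] at this
      have hg : ∃ p' ∈ G, Eqv (big (p2 * g * l.prod).1) (big (p2 * p' * l.prod).1) := by
        rcases hl g List.mem_cons_self with h | h
        · exact (hstep g h p2 h2 _ hl').1
        · have := (hstep g⁻¹ h p2 h2 _ hl').2
          rwa [inv_inv] at this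
      obtain ⟨p', hp', he⟩ := hg
      obtain ⟨p'', hp'', he'⟩ := ih (fun x hx => hl x (List.mem_cons_of_mem _ hx)) (p2 * p')
        (mul_mem h2 hp')
      refine ⟨p'', hp'', ?_⟩
      rw [List.prod_cons, ← mul_assoc]
      exact he.trans he'
  intro p hp
  have hp1 : p ∈ (Subgroup.closure S).toSubmonoid := hp
  rw [Subgroup.closure_toSubmonoid] at hp1
  obtain ⟨l, hl, rfl⟩ := Submonoid.exists_list_of_mem_closure hp1
  have hl' : ∀ x ∈ l, x ∈ S ∨ x⁻¹ ∈ S := fun x hx => by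
    rcases hl x hx with h | h
    · exact Or.inl h
    · exact Or.inr h
  obtain ⟨p', hp', he⟩ := key l hl' 1 (one_mem _)
  exact ⟨p', hp', by rwa [one_mul] at he⟩

/-- Data of an exchange automorphism. -/
structure Exch (E : UU) (δ : UU × UU) : Prop where
  mem : δ ∈ P0
  idm : Idm (endo kq) (endo kp) E
  stab : E ∈ Stab (endo rB)
  fix : E ∈ fixB
  eq : E * uD 11 = δ.1 * uD 11 * E

lemma Exch.del {E : UU} {δ : UU × UU} (h : Exch E δ) {p2 p1 : UU × UU} (h2 : p2 ∈ P0)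
    (h1 : p1 ∈ P0) : Eqv (big ((p2 * δ * p1).1)) (big (p2 * p1).1) :=
  lemd h.mem h.idm h.stab h.fix h.eq h2 h1

/-- Removing a `B` letter. -/
lemma stepB {E : UU} {iA iB : Fin 11}
    (hE : Exch E ((gg iA)⁻¹ * (gg iB)⁻¹ * gg iA * gg 10 * gg 10)) (s t : Fin 11 → Prop)
    (hst : ∀ k, s k → k = iB ∨ t k) (htA : t iA) (ht10 : t 10) :
    ∀ p ∈ PS s, ∃ p' ∈ PS t, Eqv (big p.1) (big p'.1) := by
  refine sweep _ _ ?_
  rintro _ ⟨k, hk, rfl⟩ p2 h2 p1 h1
  have h2' := PS_le_P0 _ h2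
  have h1' : p1 ∈ P0 := PS_le_P0 s h1
  rcases hst k hk with rfl | hk'
  · constructor
    · refine ⟨gg iA * gg 10 * gg 10 * (gg iA)⁻¹, mul_mem (mul_mem (mul_mem (gg_mem htA)
        (gg_mem ht10)) (gg_mem ht10)) (inv_mem (gg_mem htA)), ?_⟩
      have := hE.del (p2 := p2 * gg iA * gg 10 * gg 10)
        (p1 := ((gg iA)⁻¹ * (gg k)⁻¹ * gg iA * gg 10 * gg 10)⁻¹ * (gg iA)⁻¹ * p1)
        (mul_mem (mul_mem (mul_mem h2' (gg_P0 _)) (gg_P0 _)) (gg_P0 _))
        (mul_mem (mul_mem (inv_mem hE.mem) (inv_mem (gg_P0 _))) h1')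
      refine Eqv.trans ?_ (Eqv.symm (Eqv.trans ?_ this))
      · convert Eqv.refl _ using 3
        group
      · convert Eqv.refl _ using 3
        group
    · refine ⟨gg iA * (gg 10)⁻¹ * (gg 10)⁻¹ * (gg iA)⁻¹, mul_mem (mul_mem (mul_mem (gg_mem htA)
        (inv_mem (gg_mem ht10))) (inv_mem (gg_mem ht10))) (inv_mem (gg_mem htA)), ?_⟩
      have := hE.del (p2 := p2 * gg iA)
        (p1 := (gg 10)⁻¹ * (gg 10)⁻¹ * (gg iA)⁻¹ * p1)
        (mul_mem h2' (gg_P0 _))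
        (mul_mem (mul_mem (mul_mem (inv_mem (gg_P0 _)) (inv_mem (gg_P0 _)))
          (inv_mem (gg_P0 _))) h1')
      refine Eqv.trans ?_ (Eqv.trans this ?_)
      · convert Eqv.refl _ using 3
        group
      · convert Eqv.refl _ using 3
        group
  · exact ⟨⟨gg k, gg_mem hk', Eqv.refl _⟩, ⟨(gg k)⁻¹, inv_mem (gg_mem hk'), Eqv.refl _⟩⟩

/-- Removing an `A` letter. -/
lemma stepA {l k : Tb} {iA : Fin 11} (hl : endo l * endo l = endo l)
    (hrl : endo rG * endo l = endo rG)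
    (hlet : letck rG k = true) (hA : Idm (endo l) (endo k) (gg iA).1) (s t : Fin 11 → Prop)
    (hst : ∀ j, s j → j = iA ∨ t j)
    (ht : ∀ p ∈ PS t, TTp (endo l) (endo k) p.1) :
    ∀ p ∈ PS s, ∃ p' ∈ PS t, Eqv (big p.1) (big p'.1) := by
  have key : ∀ X : UU, Idm (endo l) (endo k) X → ∀ p2 ∈ PS t, ∀ p1 : UU × UU,
      Eqv (big (p2.1 * X * p1.1)) (big (p2.1 * p1.1)) := by
    intro X hX p2 h2 p1
    refine eqv_triple 1 (one_mem _) (fun _ => Iff.rfl) (fun _ => Iff.rfl) ?_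
    intro x
    have hS : p2.1 * X * p2.1⁻¹ ∈ Stab (endo rG) :=
      conj_Stab hl hrl (idem_of (by simp)) (ht p2 h2) hX (letck_sound hlet)
    have := hS (((p2.1 * p1.1 : UU) : EE) x)
    have e : ((p2.1 * X * p2.1⁻¹ : UU) : EE) (((p2.1 * p1.1 : UU) : EE) x) =
        ((p2.1 * X * p1.1 : UU) : EE) x := by
      change (((p2.1 * X * p2.1⁻¹ : UU) * (p2.1 * p1.1 : UU) : UU) : EE) x = _
      congr 2
      group
    rw [e] at this
    exact this.symm
  refine sweep _ _ ?_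
  rintro _ ⟨j, hj, rfl⟩ p2 h2 p1 h1
  rcases hst j hj with rfl | hj'
  · constructor
    · refine ⟨1, one_mem _, ?_⟩
      rw [mul_one]
      exact key _ hA p2 h2 p1
    · refine ⟨1, one_mem _, ?_⟩
      rw [mul_one]
      exact key _ hA.inv p2 h2 p1
  · exact ⟨⟨gg j, gg_mem hj', Eqv.refl _⟩, ⟨(gg j)⁻¹, inv_mem (gg_mem hj'), Eqv.refl _⟩⟩

lemma cmp_seven (a b c d e f g : Tb) : cmp [a, b, c, d, e, f, g] =
    endo a * endo b * endo c * endo d * endo e * endo f * endo g := by simp [mul_assoc]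

lemma exch5 : Exch uE5 ((gg 0)⁻¹ * (gg 1)⁻¹ * gg 0 * gg 10 * gg 10) where
  mem := mul_mem (mul_mem (mul_mem (mul_mem (inv_mem (gg_P0 _)) (inv_mem (gg_P0 _))) (gg_P0 _))
    (gg_P0 _)) (gg_P0 _)
  idm := by
    obtain ⟨a, b, _⟩ := E_facts (t := tE5) (by simp)
    obtain ⟨a', b', _⟩ := E_facts (t := tE5_i) (by simp)
    exact ⟨b, b', a, a'⟩
  stab := Stab_of (E_facts (t := tE5) (by simp)).2.2 (E_facts (t := tE5_i) (by simp)).2.2
  fix := fix_of (cM_bd tE5 (by simp))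
  eq := by
    have := chk_sound cDel5
    rw [cmp_two, cmp_seven] at this
    exact Units.ext this

lemma exch4 : Exch uE4 ((gg 2)⁻¹ * (gg 3)⁻¹ * gg 2 * gg 10 * gg 10) where
  mem := mul_mem (mul_mem (mul_mem (mul_mem (inv_mem (gg_P0 _)) (inv_mem (gg_P0 _))) (gg_P0 _))
    (gg_P0 _)) (gg_P0 _)
  idm := by
    obtain ⟨a, b, _⟩ := E_facts (t := tE4) (by simp)
    obtain ⟨a', b', _⟩ := E_facts (t := tE4_i) (by simp)
    exact ⟨b, b', a, a'⟩
  stab := Stab_of (E_facts (t := tE4) (by simp)).2.2 (E_facts (t := tE4_i) (by simp)).2.2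
  fix := fix_of (cM_bd tE4 (by simp))
  eq := by
    have := chk_sound cDel4
    rw [cmp_two, cmp_seven] at this
    exact Units.ext this

lemma TT5 {s : Fin 11 → Prop} (hs : ∀ k, s k → k ≠ 1) :
    ∀ p ∈ PS s, TTp (endo ka5) (endo kb5) p.1 := by
  intro p hp
  induction hp using Subgroup.closure_induction with
  | mem x hx =>
    obtain ⟨k, hk, rfl⟩ := hx
    obtain ⟨a, b⟩ := tt_sound ((cD_5 k false).resolve_left (hs k hk))
    obtain ⟨a', b'⟩ := tt_sound ((cD_5 k true).resolve_left (hs k hk))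
    exact ⟨a, a', b, b'⟩
  | one => exact TTp.one (idem_of (by simp)) (idem_of (by simp)) (com_of (by simp))
  | mul x y _ _ hx hy => exact hx.mul hy
  | inv x _ hx => exact hx.inv

lemma TT4 {s : Fin 11 → Prop} (hs : ∀ k, s k → k ≠ 3) :
    ∀ p ∈ PS s, TTp (endo ka4) (endo kb4) p.1 := by
  intro p hp
  induction hp using Subgroup.closure_induction with
  | mem x hx =>
    obtain ⟨k, hk, rfl⟩ := hx
    obtain ⟨a, b⟩ := tt_sound ((cD_4 k false).resolve_left (hs k hk))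
    obtain ⟨a', b'⟩ := tt_sound ((cD_4 k true).resolve_left (hs k hk))
    exact ⟨a, a', b, b'⟩
  | one => exact TTp.one (idem_of (by simp)) (idem_of (by simp)) (com_of (by simp))
  | mul x y _ _ hx hy => exact hx.mul hy
  | inv x _ hx => exact hx.inv

lemma idmA5 : Idm (endo ka5) (endo kb5) (gg 0).1 := by
  obtain ⟨a, _⟩ := tt_sound ((cD_5 0 false).resolve_left (by decide))
  obtain ⟨a', _⟩ := tt_sound ((cD_5 0 true).resolve_left (by decide))
  have c := chk_sound (cA5 false)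
  have c' := chk_sound (cA5 true)
  rw [cmp_three, cmp_two] at c c'
  exact ⟨a, a', c, c'⟩

lemma idmA4 : Idm (endo ka4) (endo kb4) (gg 2).1 := by
  obtain ⟨a, _⟩ := tt_sound ((cD_4 2 false).resolve_left (by decide))
  obtain ⟨a', _⟩ := tt_sound ((cD_4 2 true).resolve_left (by decide))
  have c := chk_sound (cA4 false)
  have c' := chk_sound (cA4 true)
  rw [cmp_three, cmp_two] at c c'
  exact ⟨a, a', c, c'⟩

lemma P0_eq : P0 = PS (fun _ => True) := by
  refine le_antisymm ?_ (PS_le_P0 _)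
  refine Subgroup.closure_mono ?_
  rintro _ ⟨k, rfl⟩
  exact ⟨k, trivial, rfl⟩

/-- Claim B: all letters of blocks 5 and 4 can be deleted. -/
theorem claimB : ∀ p ∈ P0, ∃ p' ∈ PS (fun k => 4 ≤ k), Eqv (big p.1) (big p'.1) := by
  intro p hp
  rw [P0_eq] at hp
  obtain ⟨p1, h1, e1⟩ := stepB exch5 (fun _ => True) (fun k => k ≠ 1)
    (fun k _ => by by_cases h : k = 1 <;> simp [h]) (by decide) (by decide) p hp
  obtain ⟨p2, h2, e2⟩ := stepA (l := ka5) (k := kb5) (idem_of (by simp)) (abs_of (by simp))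
    (klet (rG, kb5) (by simp)) idmA5 (fun k => k ≠ 1) (fun k => k ≠ 1 ∧ k ≠ 0)
    (fun k hk => by by_cases h : k = 0 <;> simp [h, hk]) (TT5 fun k hk => hk.1) p1 h1
  obtain ⟨p3, h3, e3⟩ := stepB exch4 (fun k => k ≠ 1 ∧ k ≠ 0) (fun k => (k ≠ 1 ∧ k ≠ 0) ∧ k ≠ 3)
    (fun k hk => by by_cases h : k = 3 <;> simp [h, hk]) (by decide) (by decide) p2 h2
  obtain ⟨p4, h4, e4⟩ := stepA (l := ka4) (k := kb4) (idem_of (by simp)) (abs_of (by simp))
    (klet (rG, kb4) (by simp)) idmA4 (fun k => (k ≠ 1 ∧ k ≠ 0) ∧ k ≠ 3) (fun k => 4 ≤ k)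
    (by decide) (TT4 (s := fun k => 4 ≤ k) (by decide)) p3 h3
  exact ⟨p4, h4, ((e1.trans e2).trans e3).trans e4⟩

end Pool.Agent.Y524
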