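import Pool.Agent.Y524.Tables

/-!
Normalisation checks, part 1: conjugation by the foot pushes maps letter pushes to words in letter pushes.
-/

namespace Pool.Agent.Y524

set_option maxRecDepth 100000

/-- words for the conjugates of the letters by `tF 0 false` -/
def nw_R41 (k : Fin 11) : List (Fin 11 × Bool) :=
  match k with
  | 0 => [(0, false)]
  | 1 => [(1, false)]
  | 2 => [(3, true), (4, true), (5, false), (4, false), (5, true), (4, false), (3, false), (2, false), (10, true), (10, true)]
  | 3 => [(3, true), (4, true), (5, false), (4, false), (5, true), (4, false), (3, false), (4, true), (5, false), (4, true), (5, true), (4, false), (3, false)]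
  | 4 => [(4, false)]
  | 5 => [(4, false), (3, true), (4, true), (5, false)]
  | 6 => [(6, false)]
  | 7 => [(7, false)]
  | 8 => [(8, false)]
  | 9 => [(9, false)]
  | 10 => [(10, false)]

lemma cnw_R41 : ∀ k : Fin 11, chk [tF 0 false, tD k.castSucc false]
    ((nw_R41 k).map (fun p => tD p.1.castSucc p.2) ++ [tF 0 false]) = true := by decide +kernel

/-- words for the conjugates of the letters by `tF 0 true` -/
def nw_R41i (k : Fin 11) : List (Fin 11 × Bool) :=
  match k with
  | 0 => [(0, false)]
  | 1 => [(1, false)]
  | 2 => [(4, true), (5, false), (4, true), (5, true), (4, false), (2, false), (10, false), (10, false)]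
  | 3 => [(4, true), (5, false), (4, true), (5, true), (4, false), (3, false), (4, true), (5, false), (4, false), (5, true), (4, false)]
  | 4 => [(4, false)]
  | 5 => [(5, false), (4, true), (5, true), (4, false), (3, false), (4, true), (5, false), (4, false)]
  | 6 => [(6, false)]
  | 7 => [(7, false)]
  | 8 => [(8, false)]
  | 9 => [(9, false)]
  | 10 => [(10, false)]

lemma cnw_R41i : ∀ k : Fin 11, chk [tF 0 true, tD k.castSucc false]
    ((nw_R41i k).map (fun p => tD p.1.castSucc p.2) ++ [tF 0 true]) = true := by decide +kernel

/-- words for the conjugates of the letters by `tF 1 false` -/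
def nw_R43 (k : Fin 11) : List (Fin 11 × Bool) :=
  match k with
  | 0 => [(0, false)]
  | 1 => [(1, false)]
  | 2 => [(3, true), (8, true), (9, false), (8, false), (9, true), (8, false), (3, false), (2, false), (10, true), (10, true)]
  | 3 => [(3, true), (8, true), (9, false), (8, false), (9, true), (8, false), (3, false), (8, true), (9, false), (8, true), (9, true), (8, false), (3, false)]
  | 4 => [(3, true), (8, true), (9, false), (8, false), (9, true), (8, false), (3, false), (8, true), (9, false), (8, true), (9, true), (8, false), (4, false), (8, true), (9, false), (8, false), (9, true), (8, false), (3, true), (8, true), (9, false), (8, true), (9, true), (8, false), (3, false)]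
  | 5 => [(3, true), (8, true), (9, false), (8, false), (9, true), (8, false), (3, false), (8, true), (9, false), (8, true), (9, true), (8, false), (5, false), (8, true), (9, false), (8, false), (9, true), (8, false), (3, true), (8, true), (9, false), (8, true), (9, true), (8, false), (3, false)]
  | 6 => [(3, true), (8, true), (9, false), (8, false), (9, true), (8, false), (3, false), (8, true), (9, false), (8, true), (9, true), (8, false), (6, false), (8, true), (9, false), (8, false), (9, true), (8, false), (3, true), (8, true), (9, false), (8, true), (9, true), (8, false), (3, false)]
  | 7 => [(3, true), (8, true), (9, false), (8, false), (9, true), (8, false), (3, false), (8, true), (9, false), (8, true), (9, true), (8, false), (7, false), (8, true), (9, false), (8, false), (9, true), (8, false), (3, true), (8, true), (9, false), (8, true), (9, true), (8, false), (3, false)]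
  | 8 => [(8, false)]
  | 9 => [(8, false), (3, true), (8, true), (9, false)]
  | 10 => [(10, false)]

lemma cnw_R43 : ∀ k : Fin 11, chk [tF 1 false, tD k.castSucc false]
    ((nw_R43 k).map (fun p => tD p.1.castSucc p.2) ++ [tF 1 false]) = true := by decide +kernel

end Pool.Agent.Y524
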