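import Pool.Agent.Y524.Tables

/-!
Normalisation checks, part 4: conjugation by the foot pushes maps letter pushes to words in letter pushes.
-/

namespace Pool.Agent.Y524

set_option maxRecDepth 100000

/-- words for the conjugates of the letters by `tF 5 true` -/
def nw_L2i (k : Fin 11) : List (Fin 11 × Bool) :=
  match k with
  | 0 => [(0, false)]
  | 1 => [(1, false)]
  | 2 => [(2, false)]
  | 3 => [(3, false)]
  | 4 => [(4, false)]
  | 5 => [(5, false)]
  | 6 => [(6, true), (8, true), (9, false), (8, false), (6, false), (8, true), (9, true), (8, false), (6, false)]
  | 7 => [(6, true), (8, true), (9, false), (8, false), (6, false), (8, true), (9, true), (8, false), (7, false), (6, true), (8, true), (9, true), (8, false), (6, false), (10, false), (10, false)]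
  | 8 => [(8, false), (6, false)]
  | 9 => [(9, false)]
  | 10 => [(10, false)]

lemma cnw_L2i : ∀ k : Fin 11, chk [tF 5 true, tD k.castSucc false]
    ((nw_L2i k).map (fun p => tD p.1.castSucc p.2) ++ [tF 5 true]) = true := by decide +kernel

/-- words for the conjugates of the letters by `tF 6 false` -/
def nw_L4 (k : Fin 11) : List (Fin 11 × Bool) :=
  match k with
  | 0 => [(0, false)]
  | 1 => [(1, false)]
  | 2 => [(8, true), (9, true), (8, false), (2, false), (8, true), (9, false), (8, false)]
  | 3 => [(8, true), (9, true), (8, false), (2, false), (8, true), (9, false), (8, false), (2, true), (3, false), (8, true), (9, false), (8, false), (10, true), (10, true)]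
  | 4 => [(8, true), (9, true), (8, false), (2, false), (8, true), (9, false), (8, false), (2, true), (4, false), (2, false), (8, true), (9, true), (8, false), (2, true), (8, true), (9, false), (8, false)]
  | 5 => [(8, true), (9, true), (8, false), (2, false), (8, true), (9, false), (8, false), (2, true), (5, false), (2, false), (8, true), (9, true), (8, false), (2, true), (8, true), (9, false), (8, false)]
  | 6 => [(8, true), (9, true), (8, false), (2, false), (8, true), (9, false), (8, false), (2, true), (6, false), (2, false), (8, true), (9, true), (8, false), (2, true), (8, true), (9, false), (8, false)]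
  | 7 => [(8, true), (9, true), (8, false), (2, false), (8, true), (9, false), (8, false), (2, true), (7, false), (2, false), (8, true), (9, true), (8, false), (2, true), (8, true), (9, false), (8, false)]
  | 8 => [(9, true), (8, false), (2, true), (8, true), (9, false), (8, false)]
  | 9 => [(9, false)]
  | 10 => [(10, false)]

lemma cnw_L4 : ∀ k : Fin 11, chk [tF 6 false, tD k.castSucc false]
    ((nw_L4 k).map (fun p => tD p.1.castSucc p.2) ++ [tF 6 false]) = true := by decide +kernel

/-- words for the conjugates of the letters by `tF 7 true` -/
def nw_L5i (k : Fin 11) : List (Fin 11 × Bool) :=
  match k with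
  | 0 => [(0, true), (8, true), (9, false), (8, false), (0, false), (8, true), (9, true), (8, false), (0, false)]
  | 1 => [(0, true), (8, true), (9, false), (8, false), (0, false), (8, true), (9, true), (8, false), (1, false), (0, true), (8, true), (9, true), (8, false), (0, false), (10, false), (10, false)]
  | 2 => [(0, true), (8, true), (9, false), (8, false), (0, false), (8, true), (9, true), (8, false), (2, false), (8, true), (9, false), (8, false), (0, true), (8, true), (9, true), (8, false), (0, false)]
  | 3 => [(0, true), (8, true), (9, false), (8, false), (0, false), (8, true), (9, true), (8, false), (3, false), (8, true), (9, false), (8, false), (0, true), (8, true), (9, true), (8, false), (0, false)]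
  | 4 => [(0, true), (8, true), (9, false), (8, false), (0, false), (8, true), (9, true), (8, false), (4, false), (8, true), (9, false), (8, false), (0, true), (8, true), (9, true), (8, false), (0, false)]
  | 5 => [(0, true), (8, true), (9, false), (8, false), (0, false), (8, true), (9, true), (8, false), (5, false), (8, true), (9, false), (8, false), (0, true), (8, true), (9, true), (8, false), (0, false)]
  | 6 => [(0, true), (8, true), (9, false), (8, false), (0, false), (8, true), (9, true), (8, false), (6, false), (8, true), (9, false), (8, false), (0, true), (8, true), (9, true), (8, false), (0, false)]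
  | 7 => [(0, true), (8, true), (9, false), (8, false), (0, false), (8, true), (9, true), (8, false), (7, false), (8, true), (9, false), (8, false), (0, true), (8, true), (9, true), (8, false), (0, false)]
  | 8 => [(8, false), (0, false)]
  | 9 => [(9, false)]
  | 10 => [(10, false)]

lemma cnw_L5i : ∀ k : Fin 11, chk [tF 7 true, tD k.castSucc false]
    ((nw_L5i k).map (fun p => tD p.1.castSucc p.2) ++ [tF 7 true]) = true := by decide +kernel

end Pool.Agent.Y524
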