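import Pool.Agent.Y524.Core3
import Pool.Agent.Y524.Norm1
import Pool.Agent.Y524.Norm2
import Pool.Agent.Y524.Norm3
import Pool.Agent.Y524.Norm4

/-!
The letter pushes are normalised by the foot pushes; the core equivalence.
-/

namespace Pool.Agent.Y524

/-- The group of letter pushes. -/
def PD : Subgroup UU := P0.map (MonoidHom.fst UU UU)

lemma mem_PD {d : UU} : d ∈ PD ↔ ∃ j, (d, j) ∈ P0 := by
  constructor
  · rintro ⟨⟨a, b⟩, h, rfl⟩
    exact ⟨b, h⟩
  · rintro ⟨j, h⟩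
    exact ⟨(d, j), h, rfl⟩

lemma gen_PD (k : Fin 11) : uD k.castSucc ∈ PD := mem_PD.2 ⟨_, gen_P0 k⟩

lemma PD_eq : PD = Subgroup.closure (Set.range fun k : Fin 11 => uD k.castSucc) := by
  unfold PD P0
  rw [MonoidHom.map_closure]
  congr 1
  ext x
  constructor
  · rintro ⟨_, ⟨k, rfl⟩, rfl⟩
    exact ⟨k, rfl⟩
  · rintro ⟨k, rfl⟩
    exact ⟨_, ⟨k, rfl⟩, rfl⟩

/-- Product of a word in the letters. -/
def wU (w : List (Fin 11 × Bool)) : UU :=
  (w.map fun p => if p.2 then (uD p.1.castSucc)⁻¹ else uD p.1.castSucc).prod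

lemma wU_mem (w : List (Fin 11 × Bool)) : wU w ∈ PD := by
  refine Subgroup.list_prod_mem _ fun x hx => ?_
  obtain ⟨p, _, rfl⟩ := List.mem_map.1 hx
  by_cases h : p.2
  · simp only [h, if_true]; exact inv_mem (gen_PD _)
  · simp only [h]; exact gen_PD _

lemma cmp_wU (w : List (Fin 11 × Bool)) :
    cmp (w.map (fun p => tD p.1.castSucc p.2)) = (wU w : EE) := by
  induction w with
  | nil => rfl
  | cons p w ih =>
    have e : wU (p :: w) = (if p.2 then (uD p.1.castSucc)⁻¹ else uD p.1.castSucc) * wU w := by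
      simp [wU]
    rw [List.map_cons, cmp_cons, ih, e, Units.val_mul]
    congr 1
    obtain ⟨k, s⟩ := p
    cases s
    · rfl
    · rfl

/-- `f` normalises the group of letter pushes. -/
def Nrm (f : UU) : Prop := ∀ d ∈ PD, f * d * f⁻¹ ∈ PD

lemma Nrm_of {f : UU} (h : ∀ k : Fin 11, f * uD k.castSucc * f⁻¹ ∈ PD) : Nrm f := by
  intro d hd
  rw [PD_eq] at hd
  induction hd using Subgroup.closure_induction with
  | mem x hx => obtain ⟨k, rfl⟩ := hx; exact h k
  | one => simp [one_mem]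
  | mul x y _ _ hx hy =>
    have : f * (x * y) * f⁻¹ = (f * x * f⁻¹) * (f * y * f⁻¹) := by group
    rw [this]; exact mul_mem hx hy
  | inv x _ hx =>
    have : f * x⁻¹ * f⁻¹ = (f * x * f⁻¹)⁻¹ := by group
    rw [this]; exact inv_mem hx

lemma Nrm.mul {f g : UU} (hf : Nrm f) (hg : Nrm g) : Nrm (f * g) := by
  intro d hd
  have : f * g * d * (f * g)⁻¹ = f * (g * d * g⁻¹) * f⁻¹ := by group
  rw [this]
  exact hf _ (hg _ hd)

lemma Nrm_tab {f : UU} {t : Tb} (hf : (f : EE) = endo t) (w : Fin 11 → List (Fin 11 × Bool))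
    (h : ∀ k : Fin 11, chk [t, tD k.castSucc false]
      ((w k).map (fun p => tD p.1.castSucc p.2) ++ [t]) = true) : Nrm f := by
  refine Nrm_of fun k => ?_
  have h1 := chk_sound (h k)
  rw [cmp_two, cmp_append, cmp_wU, cmp_one, ← hf, ← uD_val, ← Units.val_mul, ← Units.val_mul] at h1
  have h2 : f * uD k.castSucc = wU (w k) * f := Units.ext h1
  rw [h2, mul_inv_cancel_right]
  exact wU_mem _

lemma N_R41 : Nrm (uF 0) := Nrm_tab rfl _ cnw_R41
lemma N_R41i : Nrm (uF 0)⁻¹ := Nrm_tab rfl _ cnw_R41i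
lemma N_R43 : Nrm (uF 1) := Nrm_tab rfl _ cnw_R43
lemma N_R53 : Nrm (uF 2) := Nrm_tab rfl _ cnw_R53
lemma N_R52 : Nrm (uF 3) := Nrm_tab rfl _ cnw_R52
lemma N_R52i : Nrm (uF 3)⁻¹ := Nrm_tab rfl _ cnw_R52i
lemma N_L1 : Nrm (uF 4) := Nrm_tab rfl _ cnw_L1
lemma N_L1i : Nrm (uF 4)⁻¹ := Nrm_tab rfl _ cnw_L1i
lemma N_L2 : Nrm (uF 5) := Nrm_tab rfl _ cnw_L2
lemma N_L2i : Nrm (uF 5)⁻¹ := Nrm_tab rfl _ cnw_L2i
lemma N_L4 : Nrm (uF 6) := Nrm_tab rfl _ cnw_L4
lemma N_L5i : Nrm (uF 7)⁻¹ := Nrm_tab rfl _ cnw_L5i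

/-- The list of foot pushes (number, sign). -/
def feet : List (Fin 8 × Bool) :=
  [(2, false), (3, false), (2, false), (3, true),
   (1, false), (1, false), (0, false), (1, false), (0, true),
   (6, false), (6, false), (4, false), (6, false), (5, false), (6, false), (6, false), (5, true),
   (4, true), (7, true), (7, true), (4, false), (7, true), (7, true), (7, true), (7, true),
   (4, true)]

/-- signed foot push -/
def sF (p : Fin 8 × Bool) : UU := if p.2 then (uF p.1)⁻¹ else uF p.1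

lemma sF_val (p : Fin 8 × Bool) : (sF p : EE) = endo (tF p.1 p.2) := by
  obtain ⟨k, s⟩ := p
  cases s <;> rfl

lemma sF_inv (p : Fin 8 × Bool) : (((sF p)⁻¹ : UU) : EE) = endo (tF p.1 (!p.2)) := by
  obtain ⟨k, s⟩ := p
  cases s
  · rfl
  · change ((((uF k)⁻¹)⁻¹ : UU) : EE) = _
    rw [inv_inv]; rfl

/-- The product of the foot pushes. -/
def Finv : UU := (feet.map sF).prod

lemma N_feet : ∀ p ∈ feet, Nrm (sF p) := by
  intro p hp
  fin_cases hp
  all_goals first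
    | exact N_R41 | exact N_R41i | exact N_R43 | exact N_R53 | exact N_R52 | exact N_R52i
    | exact N_L1 | exact N_L1i | exact N_L2 | exact N_L2i | exact N_L4 | exact N_L5i

lemma N_list : ∀ l : List (Fin 8 × Bool), (∀ p ∈ l, Nrm (sF p)) → Nrm ((l.map sF).prod) := by
  intro l
  induction l with
  | nil => intro _ d hd; simpa using hd
  | cons p l ih =>
    intro h
    rw [List.map_cons, List.prod_cons]
    exact (h p List.mem_cons_self).mul (ih fun q hq => h q (List.mem_cons_of_mem _ hq))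

lemma N_Finv : Nrm Finv := N_list _ N_feet

lemma sF_AB (p : Fin 8 × Bool) : sF p ∈ Stab (endo rA) ∧ sF p ∈ Stab (endo rB) ∧ sF p ∈ fixB := by
  have h := cF_AB p.1 p.2
  have h' := cF_AB p.1 (!p.2)
  rw [Bool.and_eq_true] at h h'
  refine ⟨Stab_of ?_ ?_, Stab_of ?_ ?_, ?_⟩
  · rw [sF_val]; exact absb_sound h.1
  · rw [sF_inv]; exact absb_sound h'.1
  · rw [sF_val]; exact absb_sound h.2
  · rw [sF_inv]; exact absb_sound h'.2
  · change (sF p : EE) bdF = bdF
    rw [sF_val]; exact fix_of (cF_bd p.1 p.2)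

lemma Finv_AB : Finv ∈ Stab (endo rA) ∧ Finv ∈ Stab (endo rB) ∧ Finv ∈ fixB := by
  refine ⟨?_, ?_, ?_⟩ <;>
  · refine Subgroup.list_prod_mem _ fun x hx => ?_
    obtain ⟨p, _, rfl⟩ := List.mem_map.1 hx
    first
      | exact (sF_AB p).1
      | exact (sF_AB p).2.1
      | exact (sF_AB p).2.2

lemma Th_AB : uTh ∈ Stab (endo rA) ∧ uTh ∈ Stab (endo rB) ∧ uTh ∈ fixB := by
  have h := cTh_AB tTh (by simp)
  have h' := cTh_AB tTh_i (by simp)
  rw [Bool.and_eq_true] at h h'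
  exact ⟨Stab_of (absb_sound h.1) (absb_sound h'.1), Stab_of (absb_sound h.2) (absb_sound h'.2),
    fix_of (cM_bd tTh (by simp))⟩

/-- The automorphism defining the gamma handlebody of the second trisection. -/
def XX : UU := Finv * uD 8 * uTh

/-- The core equivalence. -/
theorem core : ∃ p ∈ PS (fun k => 4 ≤ k), Eqv (big p.1) (big XX) := by
  have h8 : Finv * uD 8 * Finv⁻¹ ∈ PD := N_Finv _ (gen_PD 8)
  obtain ⟨j, hj⟩ := mem_PD.1 h8
  obtain ⟨p', hp', he⟩ := claimB _ hj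
  refine ⟨p', hp', he.symm.trans ?_⟩
  refine eqv_triple (uTh⁻¹ * Finv⁻¹) (mul_mem (inv_mem Th_AB.2.2) (inv_mem Finv_AB.2.2))
    (mul_mem (inv_mem Th_AB.1) (inv_mem Finv_AB.1))
    (mul_mem (inv_mem Th_AB.2.1) (inv_mem Finv_AB.2.1)) ?_
  intro x
  have : XX * (uTh⁻¹ * Finv⁻¹) = Finv * uD 8 * Finv⁻¹ := by unfold XX; group
  change endo rG (((XX * (uTh⁻¹ * Finv⁻¹) : UU) : EE) x) = 1 ↔ _
  rw [this]
  exact Iff.rfl

end Pool.Agent.Y524
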