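import Pool.Agent.Y524.SideB

/-!
Final assembly: the genus eight trisection is stably isomorphic to a genus five trisection of the
same manifold, and it is not a stabilization.
-/

namespace Pool.Agent.Y524

open Pool.Agent.Y524E

set_option maxRecDepth 100000

lemma bd_eleven : (bd 11 : FF) = bdF := by
  unfold bd bdF bdw
  simp only [List.ofFn_succ, List.ofFn_zero, List.prod_cons, List.prod_nil, ev_cons, ev_nil,
    mul_one]
  simp only [of_gen']
  simp [gl, mul_assoc]

lemma uf1_fixB : uf1 ∈ fixB := fix_of (cM_bd tf1 (by simp))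
lemma uf2_fixB : uf2 ∈ fixB := fix_of (cM_bd tf2 (by simp))

/-- the automorphism of a unit -/
def eqU (u : UU) : FF ≃* FF where
  toFun := fun x => (u : EE) x
  invFun := fun x => ((u⁻¹ : UU) : EE) x
  left_inv := inv_apply_self u
  right_inv := apply_inv_self u
  map_mul' := fun x y => map_mul (u : EE) x y

lemma eqU_apply (u : UU) (x : FF) : eqU u x = (u : EE) x := rfl

theorem iso_of {X : UU} {P : EE} (h : Xd X P) {p : UU × UU} (hp : p ∈ PS (fun k => 4 ≤ k))
    (he : Eqv (big p.1) (big X)) : Trisection.Iso (T5 p hp).stab.stab (T8X h).stab := by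
  obtain ⟨u, hu, hk⟩ := he
  have hbd : eqU (uf2⁻¹ * u * uf1) (bd 11) = bd 11 := by
    rw [eqU_apply, bd_eleven]
    exact mul_mem (mul_mem (inv_mem uf2_fixB) hu) uf1_fixB
  have key : ∀ (i : Fin 3) (x : FF), S2 h i (eqU (uf2⁻¹ * u * uf1) x) = 1 ↔ S1 hp i x = 1 := by
    intro i x
    rw [sideB_iff h, sideA_iff hp, eqU_apply, ← hk i]
    have e : (uf2 : EE) (((uf2⁻¹ * u * uf1 : UU) : EE) x) = (u : EE) ((uf1 : EE) x) := by
      rw [Units.val_mul, Units.val_mul, mul_apply', mul_apply', apply_inv_self]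
    rw [e]
  exact ⟨eqU (uf2⁻¹ * u * uf1), hbd, fun i x => key i x⟩

/-- Everything together. -/
theorem main0 : ∃ T₀ T : Trisection, T₀.g = 5 ∧ T₀.k = 3 ∧ T.g = 8 ∧ T.k = 4 ∧
    Trisection.Iso T₀.stab.stab T.stab ∧ T.NotStab ∧ ¬ T.Minimal ∧
    ∀ (M : Trisection) (n : ℕ), M.Minimal → ¬ Trisection.Iso (Trisection.stab^[n] M) T := by
  obtain ⟨p, hp, he⟩ := core
  have hiso := iso_of XX_d hp he
  have hg : (T5 p hp).g < T8.g := by change 5 < 8; decide
  obtain ⟨h1, h2⟩ := Trisection.final (T5 p hp) T8 hiso hg T8_notStab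
  exact ⟨T5 p hp, T8, rfl, rfl, rfl, rfl, hiso, T8_notStab, h1, h2⟩

end Pool.Agent.Y524
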