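import Pool.Agent.Y524.Sub

/-!
Injections of free groups on letters into `FF`, and the kernels of pairs.
-/

namespace Pool.Agent.Y524

/-- An injection of a set of letters into the `22` letters of `FF`. -/
structure Inj (X : Type) where
  c : X → ℕ
  c' : ℕ → Option X
  kt : Tb
  hc : ∀ x, c x < 22
  h1 : ∀ x, c' (c x) = some x
  h2 : ∀ k < 22, ∀ x, c' k = some x → c x = k
  h3 : ∀ k < 22, look kt k = if (c' k).isSome then [2 * k] else []

namespace Inj

variable {X : Type} (I : Inj X)

/-- inclusion -/
def inc : FreeGroup X →* FF := FreeGroup.lift fun x => gen (I.c x)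

/-- projection -/
def prj : FF →* FreeGroup X := FreeGroup.lift fun p =>
  match I.c' (2 * p.1.val + p.2.toNat) with
  | some x => FreeGroup.of x
  | none => 1

lemma inc_of (x : X) : I.inc (FreeGroup.of x) = gen (I.c x) := FreeGroup.lift_apply_of

lemma prj_of (p : Fin 11 × Bool) : I.prj (FreeGroup.of p) =
    match I.c' (2 * p.1.val + p.2.toNat) with
    | some x => FreeGroup.of x
    | none => 1 := FreeGroup.lift_apply_of

lemma code_lt (p : Fin 11 × Bool) : 2 * p.1.val + p.2.toNat < 22 := by
  have := p.1.isLt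
  cases p.2 <;> simp <;> omega

lemma code_gen {k : ℕ} (hk : k < 22) :
    2 * (Fin.ofNat 11 (k / 2)).val + (k % 2 == 1).toNat = k := by
  have h1 : ((Fin.ofNat 11 (k / 2)).val : ℕ) = (k / 2) % 11 := rfl
  have h2 : (k % 2 == 1).toNat = k % 2 := by
    rcases Nat.mod_two_eq_zero_or_one k with h | h <;> simp [h]
  rw [h1, h2]
  omega

lemma prj_gen {k : ℕ} (hk : k < 22) : I.prj (gen k) =
    match I.c' k with
    | some x => FreeGroup.of x
    | none => 1 := by
  unfold gen
  rw [prj_of]
  simp only [code_gen hk]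

lemma prj_gen_c (x : X) : I.prj (gen (I.c x)) = FreeGroup.of x := by
  rw [I.prj_gen (I.hc x), I.h1]

lemma prj_inc (x : FreeGroup X) : I.prj (I.inc x) = x := by
  have : I.prj.comp I.inc = MonoidHom.id _ := by
    refine FreeGroup.ext_hom _ _ fun y => ?_
    change I.prj (I.inc (FreeGroup.of y)) = FreeGroup.of y
    rw [inc_of, prj_gen_c]
  exact DFunLike.congr_fun this x

lemma inc_prj (x : FF) : I.inc (I.prj x) = endo I.kt x := by
  have : (I.inc.comp I.prj : Monoid.End FF) = endo I.kt := by
    refine End_ext fun k hk => ?_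
    change I.inc (I.prj (gen k)) = endo I.kt (gen k)
    rw [endo_gen, Nat.mod_eq_of_lt hk, I.h3 k hk, I.prj_gen hk]
    cases h : I.c' k with
    | none => simp
    | some y =>
      simp only [Option.isSome_some, if_true]
      rw [inc_of, I.h2 k hk y h, gen_eq_ev]
  exact DFunLike.congr_fun this x

lemma inc_eq (x : FreeGroup X) : endo I.kt (I.inc x) = I.inc x := by
  rw [← inc_prj, prj_inc]

end Inj

/-- Witness check for pairs of kernels. -/
def wchk (q ri rj w : Tb) : Bool :=
  (List.range 22).all fun j => leq (sb q [2 * j]) [2 * j] ||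
    (leq (sb q [2 * j]) [] && leq (sb ri (look w j)) [] &&
      leq (sb rj (rapp (winv (look w j)) [2 * j])) [])

lemma wchk_sound {q ri rj w : Tb} (h : wchk q ri rj w = true) (x : FF) (hx : endo q x = 1) :
    x ∈ Ker (endo ri) ⊔ Ker (endo rj) := by
  refine ker_le_of_letters (q := endo q) (fun j hj => ?_) hx
  unfold wchk at h
  rw [List.all_eq_true] at h
  have h1 := h j (List.mem_range.mpr hj)
  rw [Bool.or_eq_true, Bool.and_eq_true, Bool.and_eq_true] at h1
  rcases h1 with h1 | ⟨⟨h1, h2⟩, h3⟩
  · rw [gen_eq_ev, endo_ev, leq_sound _ _ h1, mul_inv_cancel]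
    exact one_mem _
  · have e1 : endo q (gen j) = 1 := by rw [gen_eq_ev, endo_ev, leq_sound _ _ h1, ev_nil]
    rw [e1, inv_one, mul_one]
    have e : gen j = ev (look w j) * ev (rapp (winv (look w j)) [2 * j]) := by
      rw [ev_rapp, ev_winv, gen_eq_ev]; group
    rw [e]
    refine Subgroup.mul_mem_sup ?_ ?_
    · rw [mem_Ker, endo_ev, leq_sound _ _ h2, ev_nil]
    · rw [mem_Ker, endo_ev, leq_sound _ _ h3, ev_nil]

/-- quotient by alpha and beta -/
def qAB : Tb := [(0, []), (1, []), (3, []), (5, []), (7, []), (9, []), (11, []), (12, []),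
  (13, []), (14, []), (15, []), (16, []), (17, []), (18, []), (19, []), (20, []), (21, [])]
/-- quotient by beta and gamma -/
def qBG : Tb := [(0, []), (1, []), (2, []), (3, []), (4, []), (5, []), (7, []), (9, []),
  (11, []), (12, []), (13, []), (14, []), (15, []), (17, []), (19, []), (20, []), (21, [])]
/-- quotient by gamma and alpha -/
def qGA : Tb := [(1, []), (2, []), (3, []), (4, []), (5, []), (7, []), (9, []),
  (11, []), (12, []), (13, []), (14, []), (15, []), (16, []), (17, []), (18, []), (19, []),
  (21, [])]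

/-- witness tables -/
def wAB : Tb := [(0, []), (13, []), (15, []), (17, []), (19, []), (20, [])]
def wBG : Tb := [(1, []), (2, []), (4, []), (12, [30]), (14, [26]), (21, [])]
def wGA : Tb := [(3, []), (5, []), (12, []), (14, []), (13, [26, 29]), (15, [30, 25]), (16, []),
  (18, [])]

set_option maxRecDepth 100000

lemma w_AB : wchk qAB rA rB wAB = true := by decide +kernel
lemma w_BG : wchk qBG rB rG wBG = true := by decide +kernel
lemma w_GA : wchk qGA rG rA wGA = true := by decide +kernel

lemma qabs : ∀ t ∈ [(qAB, rA), (qAB, rB), (qBG, rB), (qBG, rG), (qGA, rG), (qGA, rA)],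
    chk [t.1, t.2] [t.1] = true := by decide +kernel

lemma qabs_of {q r : Tb}
    (h : (q, r) ∈ [(qAB, rA), (qAB, rB), (qBG, rB), (qBG, rG), (qGA, rG), (qGA, rA)]) {x : FF}
    (hx : endo r x = 1) : endo q x = 1 := by
  have := chk_sound (qabs (q, r) h)
  rw [cmp_two, cmp_one] at this
  have h1 := DFunLike.congr_fun this x
  change endo q (endo r x) = endo q x at h1
  rw [← h1, hx, map_one]

end Pool.Agent.Y524
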