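import Mathlib

/-! Statement of the irreducibility theorem (Part I) used for `MP_fc0641_gt`. -/

namespace Pool.Agent.Y524

/-- The word `U_a(T1,T2,C) = C² · T1 C T1⁻¹`. -/
def Ua {G : Type*} [Group G] (t1 _t2 c : G) : G := c * c * (t1 * c * t1⁻¹)

/-- The word `U_b(T1,T2,C) = C · T2 C T2⁻¹`. -/
def Ub {G : Type*} [Group G] (_t1 t2 c : G) : G := c * (t2 * c * t2⁻¹)

/-- The word `W(T1,T2,A,B)`. -/
def Wab {G : Type*} [Group G] (t1 t2 a b : G) : G :=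
  a ^ 2 * (t1 * a * t1⁻¹) * (t1 * t2 * a * t2⁻¹ * t1⁻¹) ^ 2 * (b⁻¹) ^ 2 * (t1 * b⁻¹ * t1⁻¹) ^ 4

/-- Part I: there is a group with elements `t1 t2 s` such that, with
`a = U_a(t1,t2,s)` and `b = U_b(t1,t2,s)`, one has `W(t1,t2,a,b) = s`, but no member of a free
basis of the free group of rank four is killed by `x₀ ↦ t1, x₁ ↦ t2, x₂ ↦ a, x₃ ↦ b`. -/
def PartI : Prop :=
  ∃ (M : Type) (_ : Group M) (t1 t2 s : M),
    Wab t1 t2 (Ua t1 t2 s) (Ub t1 t2 s) = s ∧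
    ∀ f : FreeGroup (Fin 4) ≃* FreeGroup (Fin 4),
      FreeGroup.lift ![t1, t2, Ua t1 t2 s, Ub t1 t2 s] (f (FreeGroup.of 3)) ≠ 1

end Pool.Agent.Y524
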