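import Pool.Agent.Y524.TTwoE
import Pool.Agent.Y524.StatementI

/-!
The obstruction data of the genus eight trisection.
-/

namespace Pool.Agent.Y524

set_option maxRecDepth 100000

variable {M : Type} [Group M]

/-- Values on the letters `a5, a4, a1, a2, a3`; all other letters go to `1`. -/
def nuF (v : M × M × M × M × M) (p : Fin 11 × Bool) : M :=
  if p.2 then 1 else
    if p.1 = 1 then v.1 else if p.1 = 2 then v.2.1 else if p.1 = 3 then v.2.2.1 else
      if p.1 = 4 then v.2.2.2.1 else if p.1 = 5 then v.2.2.2.2 else 1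

/-- The corresponding homomorphism. -/
def nu (v : M × M × M × M × M) : FF →* M := FreeGroup.lift (nuF v)

lemma nu_of (v : M × M × M × M × M) (p : Fin 11 × Bool) : nu v (FreeGroup.of p) = nuF v p :=
  FreeGroup.lift_apply_of

/-- number of letters -/
def nuN (v : M × M × M × M × M) (k : ℕ) : M :=
  if k = 2 then v.1 else if k = 4 then v.2.1 else if k = 6 then v.2.2.1 else
      if k = 8 then v.2.2.2.1 else if k = 10 then v.2.2.2.2 else 1

lemma nu_gen (v : M × M × M × M × M) {k : ℕ} (hk : k < 22) : nu v (gen k) = nuN v k := by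
  unfold gen
  rw [nu_of]
  interval_cases k <;> rfl

lemma hom_ext {f g : FF →* M} (h : ∀ k < 22, f (gen k) = g (gen k)) : f = g := by
  refine FreeGroup.ext_hom _ _ fun p => ?_
  rw [of_eq_gen]
  exact h _ (by have := p.1.isLt; cases p.2 <;> simp <;> omega)

/-- kill everything except `a5, a4, a1, a2, a3` -/
def kaa : Tb := kcomp [2, 4, 6, 8, 10]

lemma nu_kaa (v : M × M × M × M × M) (x : FF) : nu v (endo kaa x) = nu v x := by
  have : (nu v).comp (endo kaa : FF →* FF) = nu v := by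
    refine hom_ext fun k hk => ?_
    change nu v (endo kaa (gen k)) = _
    rw [endo_gen, Nat.mod_eq_of_lt hk]
    have hh : look kaa k = [2 * k] ∨ (look kaa k = [] ∧ k ≠ 2 ∧ k ≠ 4 ∧ k ≠ 6 ∧ k ≠ 8 ∧
        k ≠ 10) := by
      revert k; decide
    rcases hh with h1 | ⟨h1, h2, h3, h4, h5, h6⟩
    · rw [h1, ← gen_eq_ev]
    · rw [h1, ev_nil, map_one, nu_gen v hk]
      unfold nuN
      rw [if_neg h2, if_neg h3, if_neg h4, if_neg h5, if_neg h6]
  exact DFunLike.congr_fun this x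

/-- the simplified foot tables -/
def tG (k : Fin 8) (s : Bool) : Tb :=
  match k, s with
  | 0, false => [(4, [8, 12])]
  | 0, true => [(4, [8, 13])]
  | 1, false => [(4, [8, 20])]
  | 1, true => [(4, [8, 21])]
  | 2, false => [(2, [4, 20])]
  | 2, true => [(2, [4, 21])]
  | 3, false => [(2, [4, 16])]
  | 3, true => [(2, [4, 17])]
  | 4, false => [(10, [13, 20])]
  | 4, true => [(10, [12, 20])]
  | 5, false => [(10, [17, 20])]
  | 5, true => [(10, [16, 20])]
  | 6, false => [(10, [9, 20])]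
  | 6, true => [(10, [8, 20])]
  | 7, false => [(10, [5, 20])]
  | 7, true => [(10, [4, 20])]

lemma c_tG : ∀ (k : Fin 8) (s : Bool), chk [kaa, tF k s] [kaa, tG k s] = true := by
  decide +kernel

/-- the action of the foot pushes on tuples -/
def act (v : M × M × M × M × M) (p : Fin 8 × Bool) : M × M × M × M × M :=
  match p with
  | (0, false) => (v.1, v.2.1 * v.2.2.1, v.2.2)
  | (0, true) => (v.1, v.2.1 * v.2.2.1⁻¹, v.2.2)
  | (1, false) => (v.1, v.2.1 * v.2.2.2.2, v.2.2)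
  | (1, true) => (v.1, v.2.1 * v.2.2.2.2⁻¹, v.2.2)
  | (2, false) => (v.1 * v.2.2.2.2, v.2)
  | (2, true) => (v.1 * v.2.2.2.2⁻¹, v.2)
  | (3, false) => (v.1 * v.2.2.2.1, v.2)
  | (3, true) => (v.1 * v.2.2.2.1⁻¹, v.2)
  | (4, false) => (v.1, v.2.1, v.2.2.1, v.2.2.2.1, v.2.2.1⁻¹ * v.2.2.2.2)
  | (4, true) => (v.1, v.2.1, v.2.2.1, v.2.2.2.1, v.2.2.1 * v.2.2.2.2)
  | (5, false) => (v.1, v.2.1, v.2.2.1, v.2.2.2.1, v.2.2.2.1⁻¹ * v.2.2.2.2)
  | (5, true) => (v.1, v.2.1, v.2.2.1, v.2.2.2.1, v.2.2.2.1 * v.2.2.2.2)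
  | (6, false) => (v.1, v.2.1, v.2.2.1, v.2.2.2.1, v.2.1⁻¹ * v.2.2.2.2)
  | (6, true) => (v.1, v.2.1, v.2.2.1, v.2.2.2.1, v.2.1 * v.2.2.2.2)
  | (7, false) => (v.1, v.2.1, v.2.2.1, v.2.2.2.1, v.1⁻¹ * v.2.2.2.2)
  | (7, true) => (v.1, v.2.1, v.2.2.1, v.2.2.2.1, v.1 * v.2.2.2.2)

lemma look_cons (j : ℕ) (w : List ℕ) (t : Tb) (k : ℕ) :
    look ((j, w) :: t) k = if j = k then w else look t k := by
  by_cases h : j = k
  · subst h; simp [look]
  · simp [look, nbeq_ne h, h]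

lemma look_nil (k : ℕ) : look [] k = [2 * k] := rfl

lemma nu_tG (v : M × M × M × M × M) (p : Fin 8 × Bool) (x : FF) :
    nu v (endo (tG p.1 p.2) x) = nu (act v p) x := by
  have : (nu v).comp (endo (tG p.1 p.2) : FF →* FF) = nu (act v p) := by
    refine hom_ext fun k hk => ?_
    change nu v (endo (tG p.1 p.2) (gen k)) = _
    rw [endo_gen, Nat.mod_eq_of_lt hk, nu_gen _ hk]
    obtain ⟨n, s⟩ := p
    obtain ⟨x5, x4, x1, x2, x3⟩ := v
    fin_cases n <;> cases s <;> interval_cases k <;>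
      simp [tG, look_cons, look_nil, gl, nu_gen, nuN, act]
  exact DFunLike.congr_fun this x

lemma nu_tF (v : M × M × M × M × M) (p : Fin 8 × Bool) (x : FF) :
    nu v (endo (tF p.1 p.2) x) = nu (act v p) x := by
  have h := chk_sound (c_tG p.1 p.2)
  rw [cmp_two, cmp_two] at h
  have h' := DFunLike.congr_fun h x
  rw [mul_apply', mul_apply'] at h'
  rw [← nu_kaa, h', nu_kaa, nu_tG]

lemma nu_list (l : List (Fin 8 × Bool)) (v : M × M × M × M × M) (x : FF) :
    nu v ((((l.map sF).prod : UU) : EE) x) = nu (l.foldl act v) x := by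
  induction l generalizing v with
  | nil => rfl
  | cons p l ih =>
    rw [List.map_cons, List.prod_cons, Units.val_mul, mul_apply', sF_val, nu_tF, ih,
      List.foldl_cons]

lemma nu_Finv (t1 t2 s : M) (hW : Wab t1 t2 (Ua t1 t2 s) (Ub t1 t2 s) = s) (x : FF) :
    nu (1, 1, t1, t2, s) ((Finv : EE) x) = nu (Ub t1 t2 s, Ua t1 t2 s, t1, t2, 1) x := by
  unfold Finv
  rw [nu_list]
  congr 1
  congr 1
  have e : feet.foldl act ((1 : M), (1 : M), t1, t2, s) =
      (Ub t1 t2 s, Ua t1 t2 s, t1, t2,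
        (Wab t1 t2 (Ua t1 t2 s) (Ub t1 t2 s))⁻¹ * s) := by
    simp only [feet, List.foldl_cons, List.foldl_nil, act, Ua, Ub, Wab]
    refine Prod.ext ?_ (Prod.ext ?_ (Prod.ext ?_ (Prod.ext ?_ ?_)))
    · group
    · group
    · rfl
    · rfl
    · simp only [pow_succ, pow_zero, one_mul, mul_inv_rev, inv_inv]
      group
  rw [e, hW, inv_mul_cancel]

lemma nu_rG (t1 t2 s : M) (x : FF) :
    nu (1, 1, t1, t2, s) (endo rG x) = nu (1, 1, t1, t2, s) x := by
  have : (nu (1, 1, t1, t2, s)).comp (endo rG : FF →* FF) = nu (1, 1, t1, t2, s) := by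
    refine hom_ext fun k hk => ?_
    change nu _ (endo rG (gen k)) = _
    rw [endo_gen, Nat.mod_eq_of_lt hk, nu_gen _ hk]
    interval_cases k <;> simp [rG, look_cons, look_nil, gl, nu_gen, nuN]
  exact DFunLike.congr_fun this x

lemma nu_tS (x5 x4 t1 t2 : M) (x : FF) :
    nu (x5, x4, t1, t2, 1) (endo tS x) = nu (x5, x4, t1, t2, 1) x := by
  have : (nu (x5, x4, t1, t2, 1)).comp (endo tS : FF →* FF) = nu (x5, x4, t1, t2, 1) := by
    refine hom_ext fun k hk => ?_
    change nu _ (endo tS (gen k)) = _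
    rw [endo_gen, Nat.mod_eq_of_lt hk, nu_gen _ hk]
    interval_cases k <;> simp [tS, look_cons, look_nil, gl, nu_gen, nuN]
  exact DFunLike.congr_fun this x

lemma nu_PP (t1 t2 s : M) (hW : Wab t1 t2 (Ua t1 t2 s) (Ub t1 t2 s) = s) (x : FF) :
    nu (1, 1, t1, t2, s) (PP x) = nu (Ub t1 t2 s, Ua t1 t2 s, t1, t2, 1) x := by
  unfold PP
  rw [mul_apply', nu_rG, nu_Finv t1 t2 s hW]

/-- the map `μ` -/
def muM (t1 t2 s : M) : FreeGroup (Fin 4) →* M :=
  FreeGroup.lift ![t1, t2, Ua t1 t2 s, Ub t1 t2 s]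

/-- the map `Λ` -/
def Lam8 : Fg' 8 →* FreeGroup (Fin 4) :=
  J4AB.prj.comp (((endo qAB * ((1 : UU) : EE) : EE) : FF →* FF).comp I8.inc)

lemma mu_q (t1 t2 s : M) (x : FF) : muM t1 t2 s (J4AB.prj (endo qAB x)) =
    nu (Ub t1 t2 s, Ua t1 t2 s, t1, t2, 1) x := by
  have : (muM t1 t2 s).comp (J4AB.prj.comp (endo qAB : FF →* FF)) =
      nu (Ub t1 t2 s, Ua t1 t2 s, t1, t2, 1) := by
    refine hom_ext fun k hk => ?_
    change muM t1 t2 s (J4AB.prj (endo qAB (gen k))) = _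
    rw [endo_gen, Nat.mod_eq_of_lt hk, nu_gen _ hk]
    have hq : ∀ k < 22, (k = 2 ∨ k = 4 ∨ k = 6 ∨ k = 8 ∨ k = 10) ∨ look qAB k = [] := by decide
    have hp : ∀ n, J4AB.prj (gen (J4AB.c n)) = FreeGroup.of n := J4AB.prj_gen_c
    have hm : ∀ n, muM t1 t2 s (FreeGroup.of n) = ![t1, t2, Ua t1 t2 s, Ub t1 t2 s] n :=
      fun n => FreeGroup.lift_apply_of
    rcases hq k hk with (rfl | rfl | rfl | rfl | rfl) | h
    · rw [show look qAB 2 = [2 * 2] from by decide, ← gen_eq_ev]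
      have := hp 3
      rw [show J4AB.c 3 = 2 from by decide] at this
      rw [this, hm]; rfl
    · rw [show look qAB 4 = [2 * 4] from by decide, ← gen_eq_ev]
      have := hp 2
      rw [show J4AB.c 2 = 4 from by decide] at this
      rw [this, hm]; rfl
    · rw [show look qAB 6 = [2 * 6] from by decide, ← gen_eq_ev]
      have := hp 0
      rw [show J4AB.c 0 = 6 from by decide] at this
      rw [this, hm]; rfl
    · rw [show look qAB 8 = [2 * 8] from by decide, ← gen_eq_ev]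
      have := hp 1
      rw [show J4AB.c 1 = 8 from by decide] at this
      rw [this, hm]; rfl
    · rw [show look qAB 10 = [2 * 10] from by decide, ← gen_eq_ev, J4AB.prj_gen (by decide),
        show J4AB.c' 10 = none from by decide, map_one]
      rfl
    · rw [h, ev_nil, map_one, map_one]
      have hn : ∀ k < 22, look qAB k = [] → k ≠ 2 ∧ k ≠ 4 ∧ k ≠ 6 ∧ k ≠ 8 := by decide
      obtain ⟨h2, h3, h4, h5⟩ := hn k hk h
      unfold nuN
      rw [if_neg h2, if_neg h3, if_neg h4, if_neg h5]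
      split_ifs <;> rfl
  exact DFunLike.congr_fun this x

/-- The obstruction condition for the genus eight trisection. -/
lemma obs8 (t1 t2 s : M) (hW : Wab t1 t2 (Ua t1 t2 s) (Ub t1 t2 s) = s) (x : Fg' 8)
    (hx : big XX 2 (I8.inc x) = 1) : muM t1 t2 s (Lam8 x) = 1 := by
  have e : muM t1 t2 s (Lam8 x) = nu (Ub t1 t2 s, Ua t1 t2 s, t1, t2, 1) (I8.inc x) :=
    mu_q t1 t2 s (I8.inc x)
  rw [e, ← nu_tS, ← nu_PP t1 t2 s hW]
  rw [psi_eq, mul_apply'] at hx
  rw [hx, map_one]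

end Pool.Agent.Y524
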