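import Mathlib

/-!
Reflection engine: endomorphisms of the free group of rank 22 given by tables of words, and a
kernel-evaluable check for equality of compositions.
Letter `k < 22` is the generator `(k / 2, k % 2 = 1)`; the code `2 * k` stands for the letter and
`2 * k + 1` for its inverse.
-/

namespace Pool.Agent.Y524

/-- The free group on the `22` standard generators of a genus `11` surface with one boundary. -/
abbrev FF := FreeGroup (Fin 11 × Bool)

/-- Tables. -/
abbrev Tb := List (ℕ × List ℕ)

/-- Flip the sign of a letter code. -/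
def flip (x : ℕ) : ℕ := bif Nat.beq (x % 2) 0 then x + 1 else x - 1

/-- Reduced cons. -/
def rcons (x : ℕ) (l : List ℕ) : List ℕ :=
  match l with
  | [] => [x]
  | y :: t => bif Nat.beq (flip x) y then t else x :: y :: t

/-- Reduced append. -/
def rapp (u v : List ℕ) : List ℕ := u.foldr rcons v

/-- Table lookup with default the letter itself. -/
def look (t : Tb) (k : ℕ) : List ℕ :=
  match t with
  | [] => [2 * k]
  | (j, w) :: t => bif Nat.beq j k then w else look t k

/-- Inverse word. -/
def winv (w : List ℕ) : List ℕ := (w.map flip).reverse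

/-- Substitution in one letter. -/
def sb1 (t : Tb) (x : ℕ) : List ℕ :=
  bif Nat.beq (x % 2) 0 then look t ((x / 2) % 22) else winv (look t ((x / 2) % 22))

/-- Substitution in a word. -/
def sb (t : Tb) (w : List ℕ) : List ℕ := w.foldr (fun x acc => rapp (sb1 t x) acc) []

/-- Composition of a list of tables applied to a word. -/
def apps (ts : List Tb) (w : List ℕ) : List ℕ := ts.foldr (fun t acc => sb t acc) w

/-- Equality of words. -/
def leq : List ℕ → List ℕ → Bool
  | [], [] => true
  | x :: u, y :: v => bif Nat.beq x y then leq u v else false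
  | _, _ => false

/-- Equality check of two compositions on the first `22` letters. -/
def chk (ts us : List Tb) : Bool :=
  (List.range 22).all fun k => leq (apps ts [2 * k]) (apps us [2 * k])

/-- The generator with number `k`. -/
def gen (k : ℕ) : FF := FreeGroup.of (Fin.ofNat 11 (k / 2), k % 2 == 1)

/-- The letter with code `x`. -/
def gl (x : ℕ) : FF := if x % 2 = 0 then gen (x / 2) else (gen (x / 2))⁻¹

/-- Evaluation of words. -/
def ev (w : List ℕ) : FF := (w.map gl).prod

lemma nbeq_self (x : ℕ) : Nat.beq x x = true := Nat.beq_refl x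

lemma nbeq_ne {x y : ℕ} (h : x ≠ y) : Nat.beq x y = false := by
  cases hb : Nat.beq x y with
  | false => rfl
  | true => exact absurd (Nat.eq_of_beq_eq_true hb) h

@[simp] lemma ev_nil : ev [] = 1 := rfl
@[simp] lemma ev_cons (x : ℕ) (w : List ℕ) : ev (x :: w) = gl x * ev w := by simp [ev]
lemma ev_append (u v : List ℕ) : ev (u ++ v) = ev u * ev v := by simp [ev]

lemma flip_eq (x : ℕ) : flip x = if x % 2 = 0 then x + 1 else x - 1 := by
  unfold flip
  by_cases h : x % 2 = 0
  · rw [h]; simp
  · rw [nbeq_ne h]; simp [h]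

lemma gl_flip (x : ℕ) : gl (flip x) = (gl x)⁻¹ := by
  rw [flip_eq]
  unfold gl
  by_cases h : x % 2 = 0
  · have h1 : ¬ (x + 1) % 2 = 0 := by omega
    have h2 : (x + 1) / 2 = x / 2 := by omega
    simp [h, h1, h2]
  · have h1 : (x - 1) % 2 = 0 := by omega
    have h2 : (x - 1) / 2 = x / 2 := by omega
    simp [h, h1, h2]

lemma ev_winv (w : List ℕ) : ev (winv w) = (ev w)⁻¹ := by
  induction w with
  | nil => simp [winv]
  | cons x w ih =>
    have : winv (x :: w) = winv w ++ [flip x] := by simp [winv]
    rw [this, ev_append, ih]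
    simp [gl_flip]

lemma ev_rcons (x : ℕ) (l : List ℕ) : ev (rcons x l) = gl x * ev l := by
  cases l with
  | nil => simp [rcons]
  | cons y t =>
    unfold rcons
    by_cases h : flip x = y
    · subst h
      simp only [nbeq_self, cond_true, ev_cons, gl_flip]
      simp
    · simp only [nbeq_ne h, cond_false, ev_cons]

lemma ev_rapp (u v : List ℕ) : ev (rapp u v) = ev u * ev v := by
  induction u with
  | nil => simp [rapp]
  | cons x u ih =>
    have : rapp (x :: u) v = rcons x (rapp u v) := rfl
    rw [this, ev_rcons, ih, ev_cons, mul_assoc]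

/-- The endomorphism of a table. -/
def endo (t : Tb) : Monoid.End FF :=
  FreeGroup.lift (fun p : Fin 11 × Bool => ev (look t (2 * p.1.val + p.2.toNat)))

lemma endo_of (t : Tb) (p : Fin 11 × Bool) :
    endo t (FreeGroup.of p) = ev (look t (2 * p.1.val + p.2.toNat)) :=
  FreeGroup.lift_apply_of

lemma endo_gen (t : Tb) (k : ℕ) : endo t (gen k) = ev (look t (k % 22)) := by
  unfold gen
  rw [endo_of]
  congr 2
  have h1 : ((Fin.ofNat 11 (k / 2)).val : ℕ) = (k / 2) % 11 := rfl
  have h2 : (k % 2 == 1).toNat = k % 2 := by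
    rcases Nat.mod_two_eq_zero_or_one k with h | h <;> simp [h]
  rw [h1, h2]
  omega

lemma endo_gl (t : Tb) (x : ℕ) : endo t (gl x) = ev (sb1 t x) := by
  unfold gl sb1
  by_cases h : x % 2 = 0
  · simp [h, endo_gen]
  · rw [nbeq_ne h, if_neg h]
    simp [endo_gen, ev_winv]

lemma endo_ev (t : Tb) (w : List ℕ) : endo t (ev w) = ev (sb t w) := by
  induction w with
  | nil => simp [sb]
  | cons x w ih =>
    have : sb t (x :: w) = rapp (sb1 t x) (sb t w) := rfl
    rw [this, ev_rapp, ev_cons, map_mul, ih, endo_gl]

/-- Composition of a list of tables. -/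
def cmp (ts : List Tb) : Monoid.End FF := (ts.map endo).prod

@[simp] lemma cmp_nil : cmp [] = 1 := rfl
@[simp] lemma cmp_cons (t : Tb) (ts : List Tb) : cmp (t :: ts) = endo t * cmp ts := by simp [cmp]
lemma cmp_append (ts us : List Tb) : cmp (ts ++ us) = cmp ts * cmp us := by simp [cmp]

lemma cmp_ev (ts : List Tb) (w : List ℕ) : cmp ts (ev w) = ev (apps ts w) := by
  induction ts with
  | nil => simp [apps]
  | cons t ts ih =>
    have : apps (t :: ts) w = sb t (apps ts w) := rfl
    rw [this, ← endo_ev, ← ih, cmp_cons]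
    rfl

lemma leq_sound : ∀ u v : List ℕ, leq u v = true → u = v
  | [], [], _ => rfl
  | [], _ :: _, h => by simp [leq] at h
  | _ :: _, [], h => by simp [leq] at h
  | x :: u, y :: v, h => by
    unfold leq at h
    by_cases hxy : x = y
    · subst hxy
      simp only [nbeq_self, cond_true] at h
      rw [leq_sound u v h]
    · simp [nbeq_ne hxy] at h

lemma of_eq_gen (p : Fin 11 × Bool) : FreeGroup.of p = gen (2 * p.1.val + p.2.toNat) := by
  obtain ⟨i, b⟩ := p
  unfold gen
  congr 1
  ext
  · simp only [Fin.ofNat]
    have := i.isLt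
    cases b <;> simp <;> omega
  · cases b <;> simp

lemma gen_eq_ev (k : ℕ) : gen k = ev [2 * k] := by
  simp [gl]

/-- Two endomorphisms agreeing on the `22` letters are equal. -/
lemma End_ext {f g : Monoid.End FF} (h : ∀ k < 22, f (gen k) = g (gen k)) : f = g := by
  refine FreeGroup.ext_hom _ _ fun p => ?_
  rw [of_eq_gen]
  exact h _ (by have := p.1.isLt; cases p.2 <;> simp <;> omega)

theorem chk_sound {ts us : List Tb} (h : chk ts us = true) : cmp ts = cmp us := by
  refine End_ext fun k hk => ?_
  unfold chk at h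
  rw [List.all_eq_true] at h
  have h1 := leq_sound _ _ (h k (List.mem_range.mpr hk))
  rw [gen_eq_ev, cmp_ev, cmp_ev, h1]

end Pool.Agent.Y524
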