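import Pool.Agent.Y524.Tri

/-!
The stabilizations inside the genus eleven surface.
-/

namespace Pool.Agent.Y524

set_option maxRecDepth 100000

/-- letter permutation given by a block permutation -/
def pim (m : List ℕ) (k : ℕ) : ℕ := 2 * m.getD (k / 2) 0 + k % 2

def mm1 : List ℕ := [3, 4, 5, 6, 7, 8, 0, 2, 9, 10, 1]
def mm2 : List ℕ := [1, 2, 3, 4, 6, 7, 8, 0, 9, 10, 5]

def cs1 (k : ℕ) : List ℕ :=
  if k < 12 then [0, 2, 1, 3, 4, 6, 5, 7, 8, 10, 9, 11] else
    if 14 ≤ k ∧ k < 20 then [4, 6, 5, 7] else []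

def cs2 (k : ℕ) : List ℕ :=
  if k < 8 then [0, 2, 1, 3] else
    if k < 14 then [0, 2, 1, 3, 20, 22, 21, 23] else
    if 16 ≤ k ∧ k < 20 then [20, 22, 21, 23] else []

lemma c_cs1 : ∀ k < 22, leq (look tf1 k) (rapp (cs1 k) (rapp [2 * pim mm1 k] (winv (cs1 k)))) =
    true := by decide +kernel
lemma c_cs2 : ∀ k < 22, leq (look tf2 k) (rapp (cs2 k) (rapp [2 * pim mm2 k] (winv (cs2 k)))) =
    true := by decide +kernel

lemma side_gen {t : Tb} {m : List ℕ} {cs : ℕ → List ℕ} {R : EE} {k : ℕ} (hk : k < 22)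
    (hc : leq (look t k) (rapp (cs k) (rapp [2 * pim m k] (winv (cs k)))) = true)
    (hR : R (ev (cs k)) = 1) : R (endo t (gen k)) = R (gen (pim m k)) := by
  rw [endo_gen, Nat.mod_eq_of_lt hk, leq_sound _ _ hc, ev_rapp, ev_rapp, ev_winv, map_mul, map_mul,
    map_inv, hR, gen_eq_ev]
  simp

/-- value on the conjugating words -/
lemma big_dfix {d : UU} {i : Fin 3} {j : ℕ} (hd : (d : EE) (gen j) = gen j) :
    big d i (gen j) = ev (sb (rr i) [2 * j]) := by
  rw [big_eq', mul_apply']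
  have : ((dfac d i : UU) : EE) (gen j) = gen j := by
    unfold dfac
    split_ifs
    · exact hd
    · rfl
  rw [this, gen_eq_ev, endo_ev]

/-- the pushes fix the small blocks -/
lemma c_Dfix : ∀ k : Fin 12, 4 ≤ k → k ≠ 11 → ∀ j ∈ [0, 1, 2, 3, 4, 5, 16, 17, 18, 19, 20, 21],
    leq (sb (tD k false) [2 * j]) [2 * j] = true := by decide +kernel

lemma inv_fix {u : UU} {x : FF} (h : (u : EE) x = x) : ((u⁻¹ : UU) : EE) x = x := by
  have := inv_apply_self u x
  rwa [h] at this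

lemma PS_fix {p : UU × UU} (hp : p ∈ PS (fun k => 4 ≤ k)) {j : ℕ}
    (hj : j ∈ [0, 1, 2, 3, 4, 5, 16, 17, 18, 19, 20, 21]) : (p.1 : EE) (gen j) = gen j := by
  induction hp using Subgroup.closure_induction with
  | mem x hx =>
    obtain ⟨k, hk, rfl⟩ := hx
    have hk' : (4 : Fin 12) ≤ k.castSucc := by
      have : (4 : Fin 11) ≤ k := hk
      revert this; revert k; decide
    have hk2 : k.castSucc ≠ 11 := by
      intro h; have := congrArg Fin.val h; have := k.isLt; simp at *; omega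
    exact endo_gen_fix (c_Dfix k.castSucc hk' hk2 j hj)
  | one => rfl
  | mul x y _ _ hx hy =>
    change ((x.1 * y.1 : UU) : EE) (gen j) = gen j
    rw [Units.val_mul, mul_apply', hy, hx]
  | inv x _ hx => exact inv_fix hx

/-- target letters of the twice stabilized genus five trisection -/
def K1l (i : Fin 3) : List ℕ := match i with
  | 0 => [6, 8, 10, 13, 15, 17, 0, 4, 19, 20, 2]
  | 1 => [6, 8, 10, 12, 14, 16, 1, 4, 18, 21, 2]
  | 2 => [6, 8, 10, 14, 15, 16, 0, 5, 18, 20, 3]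

def K1 (i : Fin 3) : Inj (Fin 11) := IL (K1l i) 11 (by revert i; decide) (by revert i; decide)
  (by revert i; decide) (by revert i; decide)

lemma K1_c (i : Fin 3) (n : Fin 11) : (K1 i).c n = (K1l i).getD n.val 0 := rfl

lemma K1_old : ∀ (i : Fin 3) (n : Fin 5), (K1 i).c (Fin.castAdd 3 (Fin.castAdd 3 n)) = (J5 i).c n := by
  decide

lemma K1_J5 (i : Fin 3) (y : FreeGroup (Fin 5)) :
    (K1 i).inc (FreeGroup.map (Fin.castAdd 3) (FreeGroup.map (Fin.castAdd 3) y)) =
      (J5 i).inc y := by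
  have : ((K1 i).inc.comp (FreeGroup.map (Fin.castAdd 3))).comp (FreeGroup.map (Fin.castAdd 3)) =
      (J5 i).inc := by
    refine FreeGroup.ext_hom _ _ fun n => ?_
    simp only [MonoidHom.comp_apply, FreeGroup.map.of, Inj.inc_of]
    rw [K1_old]
  exact DFunLike.congr_fun this y

end Pool.Agent.Y524
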