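import Pool.Agent.Y524.Side

/-!
The twice stabilized genus five trisection.
-/

namespace Pool.Agent.Y524

open Pool.Agent.Y524E

set_option maxRecDepth 100000

variable {p : UU × UU} (hp : p ∈ PS (fun k => 4 ≤ k))

/-- The handlebody maps of the twice stabilized genus five trisection. -/
def S1 (i : Fin 3) : FF →* FreeGroup (Fin 11) := (T5 p hp).stab.stab.φ i

lemma S1_old (i : Fin 3) (j : Fin 5) (b : Bool) :
    S1 hp i (FreeGroup.of (Fin.castAdd 3 (Fin.castAdd 3 j), b)) =
      FreeGroup.map (Fin.castAdd 3) (FreeGroup.map (Fin.castAdd 3)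
        ((D5 p.1 (comm5 hp).1).φ i (FreeGroup.of (j, b)))) := by
  refine (Trisection.lift_stab_old (T5 p hp).stab i (Fin.castAdd 3 j) b).trans ?_
  congr 1
  exact Trisection.lift_stab_old (T5 p hp) i j b

lemma S1_mid (i : Fin 3) (r : Fin 3) (b : Bool) :
    S1 hp i (FreeGroup.of (Fin.castAdd 3 (Fin.natAdd 5 r), b)) =
      if (b = false ↔ r = i) then 1 else FreeGroup.of (Fin.castAdd 3 (Fin.natAdd 5 r)) := by
  refine (Trisection.lift_stab_old (T5 p hp).stab i (Fin.natAdd 5 r) b).trans ?_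
  have := Trisection.lift_stab_new (T5 p hp) i r b
  refine (congrArg (FreeGroup.map (Fin.castAdd 3)) this).trans ?_
  split_ifs
  · exact map_one _
  · exact FreeGroup.map.of

lemma S1_new (i : Fin 3) (r : Fin 3) (b : Bool) :
    S1 hp i (FreeGroup.of (Fin.natAdd 8 r, b)) =
      if (b = false ↔ r = i) then 1 else FreeGroup.of (Fin.natAdd 8 r) :=
  Trisection.lift_stab_new (T5 p hp).stab i r b

lemma of_gen' (n : Fin 11) (b : Bool) : (FreeGroup.of (n, b) : FF) = gen (2 * n.val + b.toNat) :=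
  of_eq_gen (n, b)

lemma I5_c' : ∀ (j : Fin 5) (b : Bool),
    I5.c (j, b) = pim mm1 (2 * (Fin.castAdd 3 (Fin.castAdd 3 j) : Fin 11).val + b.toNat) := by
  decide

lemma c_mid1 : ∀ (i r : Fin 3) (b : Bool),
    (pim mm1 (2 * (Fin.castAdd 3 (Fin.natAdd 5 r) : Fin 11).val + b.toNat) ∈
      [0, 1, 2, 3, 4, 5, 16, 17, 18, 19, 20, 21]) ∧
    sb (rr i) [2 * pim mm1 (2 * (Fin.castAdd 3 (Fin.natAdd 5 r) : Fin 11).val + b.toNat)] =
      if (b = false ↔ r = i) then [] else [2 * (K1 i).c (Fin.castAdd 3 (Fin.natAdd 5 r))] := by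
  decide +kernel

lemma c_new1 : ∀ (i r : Fin 3) (b : Bool),
    (pim mm1 (2 * (Fin.natAdd 8 r : Fin 11).val + b.toNat) ∈
      [0, 1, 2, 3, 4, 5, 16, 17, 18, 19, 20, 21]) ∧
    sb (rr i) [2 * pim mm1 (2 * (Fin.natAdd 8 r : Fin 11).val + b.toNat)] =
      if (b = false ↔ r = i) then [] else [2 * (K1 i).c (Fin.natAdd 8 r)] := by
  decide +kernel

/-- Values of the triple on the letters of the surface. -/
lemma sideA_gen (i : Fin 3) (n : Fin 11) (b : Bool) :
    big p.1 i (gen (pim mm1 (2 * n.val + b.toNat))) =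
      (K1 i).inc (S1 hp i (FreeGroup.of (n, b))) := by
  refine Fin.addCases (m := 8) (n := 3) (motive := fun n : Fin 11 =>
    big p.1 i (gen (pim mm1 (2 * n.val + b.toNat))) =
      (K1 i).inc (S1 hp i (FreeGroup.of (n, b)))) (fun m => ?_) (fun r => ?_) n
  · refine Fin.addCases (m := 5) (n := 3) (motive := fun m : Fin 8 =>
      big p.1 i (gen (pim mm1 (2 * (Fin.castAdd 3 m : Fin 11).val + b.toNat))) =
      (K1 i).inc (S1 hp i (FreeGroup.of (Fin.castAdd 3 m, b)))) (fun j => ?_) (fun r => ?_) m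
    · rw [S1_old, K1_J5, ← I5_c']
      have := (D5 p.1 (comm5 hp).1).hσ i (FreeGroup.of (j, b))
      have e : I5.inc (FreeGroup.of (j, b)) = gen (I5.c (j, b)) := I5.inc_of (j, b)
      change (J5 i).inc ((J5 i).prj (big p.1 i (I5.inc (FreeGroup.of (j, b))))) =
        big p.1 i (I5.inc (FreeGroup.of (j, b))) at this
      rw [e] at this
      rw [← this]
      change _ = (J5 i).inc ((J5 i).prj (big p.1 i (I5.inc (FreeGroup.of (j, b)))))
      rw [e]
    · obtain ⟨h1, h2⟩ := c_mid1 i r b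
      rw [S1_mid, big_dfix (PS_fix hp h1), h2]
      split_ifs
      · rw [ev_nil]; exact (map_one _).symm
      · rw [Inj.inc_of, ← gen_eq_ev]
  · obtain ⟨h1, h2⟩ := c_new1 i r b
    rw [S1_new, big_dfix (PS_fix hp h1), h2]
    split_ifs
    · rw [ev_nil]; exact (map_one _).symm
    · rw [Inj.inc_of, ← gen_eq_ev]

include hp in
/-- The conjugating words are killed. -/
lemma cs1_one (i : Fin 3) {k : ℕ} (hk : k < 22) : big p.1 i (ev (cs1 k)) = 1 := by
  have hfix : ∀ w : List ℕ, (∀ x ∈ w, x < 12) → (p.1 : EE) (ev w) = ev w := by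
    intro w hw
    induction w with
    | nil => exact map_one _
    | cons x w ih =>
      rw [ev_cons, map_mul, ih (fun y hy => hw y (List.mem_cons_of_mem _ hy))]
      congr 1
      have hx : x < 12 := hw x List.mem_cons_self
      have hx2 : x / 2 ∈ [0, 1, 2, 3, 4, 5, 16, 17, 18, 19, 20, 21] := by
        have : x / 2 < 6 := by omega
        interval_cases (x / 2) <;> simp
      unfold gl
      split_ifs
      · exact PS_fix hp hx2
      · rw [map_inv, PS_fix hp hx2]
  have hd : ((dfac p.1 i : UU) : EE) (ev (cs1 k)) = ev (cs1 k) := by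
    unfold dfac
    split_ifs
    · refine hfix _ ?_
      revert k
      decide
    · rfl
  rw [big_eq', mul_apply', hd, endo_ev]
  have : ∀ i : Fin 3, ∀ k < 22, sb (rr i) (cs1 k) = [] := by decide +kernel
  rw [this i k hk, ev_nil]

/-- The comparison of the twice stabilized genus five trisection. -/
lemma sideA (i : Fin 3) (x : FF) : big p.1 i ((uf1 : EE) x) = (K1 i).inc (S1 hp i x) := by
  have : (big p.1 i * (uf1 : EE) : FF →* FF) = (K1 i).inc.comp (S1 hp i) := by
    refine FreeGroup.ext_hom _ _ fun q => ?_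
    obtain ⟨n, b⟩ := q
    change big p.1 i (endo tf1 (FreeGroup.of (n, b))) = (K1 i).inc (S1 hp i (FreeGroup.of (n, b)))
    rw [← sideA_gen hp, of_gen']
    have hk : 2 * n.val + b.toNat < 22 := by
      have := n.isLt
      cases b <;> simp <;> omega
    exact side_gen hk (c_cs1 _ hk) (cs1_one hp i hk)
  exact DFunLike.congr_fun this x

lemma sideA_iff (i : Fin 3) (x : FF) : S1 hp i x = 1 ↔ big p.1 i ((uf1 : EE) x) = 1 := by
  rw [sideA hp]
  constructor
  · intro h
    rw [h, map_one]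
  · intro h
    rw [← (K1 i).prj_inc (S1 hp i x), h, map_one]

end Pool.Agent.Y524
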