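import Pool.Agent.Y524.SideA

/-!
The stabilized genus eight trisection.
-/

namespace Pool.Agent.Y524

open Pool.Agent.Y524E

set_option maxRecDepth 100000

variable {X : UU} {P : EE}

/-- The handlebody maps of the stabilized genus eight trisection. -/
def S2 (h : Xd X P) (i : Fin 3) : FF →* FreeGroup (Fin 11) := (T8X h).stab.φ i

lemma S2_old (h : Xd X P) (i : Fin 3) (j : Fin 8) (b : Bool) :
    S2 h i (FreeGroup.of (Fin.castAdd 3 j, b)) =
      FreeGroup.map (Fin.castAdd 3) ((D8 h).φ i (FreeGroup.of (j, b))) :=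
  Trisection.lift_stab_old (T8X h) i j b

lemma S2_new (h : Xd X P) (i : Fin 3) (r : Fin 3) (b : Bool) :
    S2 h i (FreeGroup.of (Fin.natAdd 8 r, b)) =
      if (b = false ↔ r = i) then 1 else FreeGroup.of (Fin.natAdd 8 r) :=
  Trisection.lift_stab_new (T8X h) i r b

def K2l (i : Fin 3) : List ℕ := match i with
  | 0 => [2, 4, 6, 8, 13, 15, 17, 0, 19, 20, 10]
  | 1 => [2, 4, 6, 8, 12, 14, 16, 1, 18, 21, 10]
  | 2 => [3, 5, 6, 8, 10, 15, 16, 0, 18, 20, 14]

def K2 (i : Fin 3) : Inj (Fin 11) := IL (K2l i) 11 (by revert i; decide) (by revert i; decide)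
  (by revert i; decide) (by revert i; decide)

/-- comparison homomorphism for the target -/
def hh (X : UU) (i : Fin 3) : FreeGroup (Fin 11) →* FF :=
  FreeGroup.lift fun n => if i = 2 ∧ n = 10 then big X 2 (gen 11) else gen ((K2 i).c n)

lemma hh_of (X : UU) (i : Fin 3) (n : Fin 11) : hh X i (FreeGroup.of n) =
    if i = 2 ∧ n = 10 then big X 2 (gen 11) else gen ((K2 i).c n) := FreeGroup.lift_apply_of

lemma K2_old : ∀ (i : Fin 3) (n : Fin 8), (K2 i).c (Fin.castAdd 3 n) = (J8 i).c n ∧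
    (Fin.castAdd 3 n : Fin 11) ≠ 10 := by
  decide

lemma hh_J8 (X : UU) (i : Fin 3) (y : FreeGroup (Fin 8)) :
    hh X i (FreeGroup.map (Fin.castAdd 3) y) = (J8 i).inc y := by
  have : (hh X i).comp (FreeGroup.map (Fin.castAdd 3)) = (J8 i).inc := by
    refine FreeGroup.ext_hom _ _ fun n => ?_
    simp only [MonoidHom.comp_apply, FreeGroup.map.of, Inj.inc_of]
    rw [hh_of, (K2_old i n).1, if_neg (fun h => (K2_old i n).2 h.2)]
  exact DFunLike.congr_fun this y

lemma I8_c' : ∀ (j : Fin 8) (b : Bool),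
    I8.c (j, b) = pim mm2 (2 * (Fin.castAdd 3 j : Fin 11).val + b.toNat) := by
  decide

/-- the remaining letters: values of the triple -/
lemma Xd.out (h : Xd X P) (i : Fin 3) {j : ℕ} (hj : j ∈ [0, 1, 18, 19, 20, 21]) :
    big X i (gen j) = ev (sb (rr i) [2 * j]) := by
  have h3 : ∀ i : Fin 3, i = 0 ∨ i = 1 ∨ i = 2 := by decide
  rcases h3 i with rfl | rfl | rfl
  · change endo rA (gen j) = _
    rw [gen_eq_ev, endo_ev]; rfl
  · change endo rB (gen j) = _
    rw [gen_eq_ev, endo_ev]; rfl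
  · have h2 : ∀ j ∈ [0, 1, 18, 19, 20, 21], j < 22 ∧ j ∉ [2, 3, 4, 5, 6, 7, 8, 9] ∧ j ≠ 10 ∧
        j ≠ 11 ∧ j ≠ 12 ∧ ¬ (j = 13 ∨ j = 14) := by decide
    obtain ⟨h0, ha, hb, hc, hd, he⟩ := h2 j hj
    rw [h.psi, mul_apply', h.hP.gen_val h0, if_neg ha, if_neg hb, if_neg hc, if_neg hd,
      if_neg he]
    rfl

lemma c_new2 : ∀ (i r : Fin 3) (b : Bool), r ≠ 2 →
    (pim mm2 (2 * (Fin.natAdd 8 r : Fin 11).val + b.toNat) ∈ [0, 1, 18, 19, 20, 21]) ∧
    (Fin.natAdd 8 r : Fin 11) ≠ 10 ∧
    sb (rr i) [2 * pim mm2 (2 * (Fin.natAdd 8 r : Fin 11).val + b.toNat)] =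
      if (b = false ↔ r = i) then [] else [2 * (K2 i).c (Fin.natAdd 8 r)] := by
  decide +kernel

/-- Values of the triple on the letters of the surface. -/
lemma sideB_gen (h : Xd X P) (i : Fin 3) (n : Fin 11) (b : Bool) :
    big X i (gen (pim mm2 (2 * n.val + b.toNat))) =
      hh X i (S2 h i (FreeGroup.of (n, b))) := by
  refine Fin.addCases (m := 8) (n := 3) (motive := fun n : Fin 11 =>
    big X i (gen (pim mm2 (2 * n.val + b.toNat))) =
      hh X i (S2 h i (FreeGroup.of (n, b)))) (fun j => ?_) (fun r => ?_) n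
  · rw [S2_old, hh_J8, ← I8_c']
    have := (D8 h).hσ i (FreeGroup.of (j, b))
    have e : I8.inc (FreeGroup.of (j, b)) = gen (I8.c (j, b)) := I8.inc_of (j, b)
    change (J8 i).inc ((J8 i).prj (big X i (I8.inc (FreeGroup.of (j, b))))) =
      big X i (I8.inc (FreeGroup.of (j, b))) at this
    rw [e] at this
    rw [← this]
    change _ = (J8 i).inc ((J8 i).prj (big X i (I8.inc (FreeGroup.of (j, b)))))
    rw [e]
  · rw [S2_new]
    by_cases hr : r = 2
    · subst hr
      have e1 : (Fin.natAdd 8 (2 : Fin 3) : Fin 11) = 10 := rfl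
      rw [e1]
      have h3 : ∀ i : Fin 3, i = 0 ∨ i = 1 ∨ i = 2 := by decide
      have c0 : pim mm2 (2 * (10 : Fin 11).val + false.toNat) = 10 := by decide
      have c1 : pim mm2 (2 * (10 : Fin 11).val + true.toNat) = 11 := by decide
      cases b
      · rw [c0]
        rcases h3 i with rfl | rfl | rfl
        · rw [if_neg (by decide), hh_of, if_neg (by decide)]
          exact endo_gen_fix (by decide +kernel)
        · rw [if_neg (by decide), hh_of, if_neg (by decide)]
          exact endo_gen_fix (by decide +kernel)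
        · rw [if_pos (by decide), map_one, h.psi10]
      · rw [c1]
        rcases h3 i with rfl | rfl | rfl
        · rw [if_pos (by decide), map_one]
          exact rAB11.1
        · rw [if_pos (by decide), map_one]
          exact rAB11.2
        · rw [if_neg (by decide), hh_of, if_pos ⟨rfl, rfl⟩]
    · obtain ⟨h1, h2, h3⟩ := c_new2 i r b hr
      rw [h.out i h1, h3]
      split_ifs
      · rw [ev_nil]; exact (map_one _).symm
      · rw [hh_of, if_neg (fun h => h2 h.2), ← gen_eq_ev]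

/-- The conjugating words are killed. -/
lemma cs2_one (h : Xd X P) (i : Fin 3) (k : ℕ) : big X i (ev (cs2 k)) = 1 := by
  have h3 : ∀ i : Fin 3, i = 0 ∨ i = 1 ∨ i = 2 := by decide
  have w0 : big X i (ev [0, 2, 1, 3]) = 1 := by
    have : ev [0, 2, 1, 3] = gen 0 * gen 1 * (gen 0)⁻¹ * (gen 1)⁻¹ := by
      simp [gl, mul_assoc]
    rw [this, map_mul, map_mul, map_mul, map_inv, map_inv, h.out i (by simp), h.out i (by simp)]
    rcases h3 i with rfl | rfl | rfl
    · rw [show sb (rr 0) [2 * 1] = [] from leq_sound _ _ (by decide +kernel), ev_nil]; group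
    · rw [show sb (rr 1) [2 * 0] = [] from leq_sound _ _ (by decide +kernel), ev_nil]; group
    · rw [show sb (rr 2) [2 * 1] = [] from leq_sound _ _ (by decide +kernel), ev_nil]; group
  have w5 : big X i (ev [20, 22, 21, 23]) = 1 := by
    have : ev [20, 22, 21, 23] = gen 10 * gen 11 * (gen 10)⁻¹ * (gen 11)⁻¹ := by
      simp [gl, mul_assoc]
    rw [this, map_mul, map_mul, map_mul, map_inv, map_inv]
    rcases h3 i with rfl | rfl | rfl
    · rw [show big X 0 (gen 11) = 1 from rAB11.1]; group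
    · rw [show big X 1 (gen 11) = 1 from rAB11.2]; group
    · rw [h.psi10]; group
  have w05 : ev [0, 2, 1, 3, 20, 22, 21, 23] = ev [0, 2, 1, 3] * ev [20, 22, 21, 23] := by
    rw [← ev_append]; rfl
  unfold cs2
  split_ifs
  · exact w0
  · rw [w05, map_mul, w0, w5, one_mul]
  · exact w5
  · exact map_one _

/-- The comparison of the stabilized genus eight trisection. -/
lemma sideB (h : Xd X P) (i : Fin 3) (x : FF) :
    big X i ((uf2 : EE) x) = hh X i (S2 h i x) := by
  have : (big X i * (uf2 : EE) : FF →* FF) = (hh X i).comp (S2 h i) := by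
    refine FreeGroup.ext_hom _ _ fun q => ?_
    obtain ⟨n, b⟩ := q
    change big X i (endo tf2 (FreeGroup.of (n, b))) = hh X i (S2 h i (FreeGroup.of (n, b)))
    rw [← sideB_gen h, of_gen']
    have hk : 2 * n.val + b.toNat < 22 := by
      have := n.isLt
      cases b <;> simp <;> omega
    exact side_gen hk (c_cs2 _ hk) (cs2_one h i _)
  exact DFunLike.congr_fun this x

/-- left inverse for the gamma comparison -/
def gW (w : FreeGroup (Fin 11)) : FF →* FreeGroup (Fin 11) :=
  FreeGroup.lift fun q => if 2 * q.1.val + q.2.toNat = 14 then w else (K2 2).prj (FreeGroup.of q)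

lemma gW_gen (w : FreeGroup (Fin 11)) {k : ℕ} (hk : k < 22) :
    gW w (gen k) = if k = 14 then w else (K2 2).prj (gen k) := by
  unfold gen
  have e : gW w (FreeGroup.of (Fin.ofNat 11 (k / 2), k % 2 == 1)) =
      if 2 * (Fin.ofNat 11 (k / 2)).val + (k % 2 == 1).toNat = 14 then w else
        (K2 2).prj (FreeGroup.of (Fin.ofNat 11 (k / 2), k % 2 == 1)) := FreeGroup.lift_apply_of
  rw [e, Inj.code_gen hk]

lemma gW_kk (w : FreeGroup (Fin 11)) (x : FF) :
    gW w (endo (kk8 2) x) = (K2 2).prj (endo (kk8 2) x) := by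
  have : (gW w).comp (endo (kk8 2) : FF →* FF) = (K2 2).prj.comp (endo (kk8 2) : FF →* FF) := by
    refine hom_ext fun k hk => ?_
    change gW w (endo (kk8 2) (gen k)) = (K2 2).prj (endo (kk8 2) (gen k))
    rw [endo_gen, Nat.mod_eq_of_lt hk]
    have hh : look (kk8 2) k = [2 * k] ∧ k ≠ 14 ∨ look (kk8 2) k = [] := by
      revert k; decide
    rcases hh with ⟨h1, h2⟩ | h1
    · rw [h1, ← gen_eq_ev, gW_gen w hk, if_neg h2]
    · rw [h1, ev_nil, map_one, map_one]
  exact DFunLike.congr_fun this x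

lemma gW_alg {G : Type*} [Group G] (a b c d : G) :
    b * c * ((c⁻¹ * b⁻¹ * a * b * d⁻¹ * c)⁻¹)⁻¹ * c⁻¹ * d * b⁻¹ = a := by
  group

lemma hh_inj (h : Xd X P) (i : Fin 3) (y : FreeGroup (Fin 11)) (hy : hh X i y = 1) : y = 1 := by
  have h3 : ∀ i : Fin 3, i ≠ 2 ∨ i = 2 := by decide
  rcases h3 i with h0 | rfl
  · have : hh X i = (K2 i).inc := by
      refine FreeGroup.ext_hom _ _ fun n => ?_
      rw [hh_of, if_neg (fun h => h0 h.1), Inj.inc_of]
    rw [this] at hy
    rw [← (K2 i).prj_inc y, hy, map_one]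
  · obtain ⟨w, hw⟩ : ∃ w, w = (((K2 2).prj (gen 15))⁻¹ * ((K2 2).prj (P (gen 10)))⁻¹ *
      FreeGroup.of 10 * (K2 2).prj (P (gen 10)) * ((K2 2).prj (P (gen 11)))⁻¹ *
      (K2 2).prj (gen 15))⁻¹ := ⟨_, rfl⟩
    have hg : ∀ j ∈ [10, 11], gW w (P (gen j)) = (K2 2).prj (P (gen j)) := by
      intro j hj
      have hj' : j ∈ [2, 3, 4, 5, 6, 7, 8, 9, 10, 11] := by revert j; decide
      rw [← h.hP.inn hj', gW_kk, h.hP.inn hj']
    have key : (gW w).comp (hh X 2) = MonoidHom.id _ := by
      refine FreeGroup.ext_hom _ _ fun n => ?_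
      rw [MonoidHom.comp_apply, MonoidHom.id_apply, hh_of]
      by_cases hn : n = 10
      · subst hn
        rw [if_pos ⟨rfl, rfl⟩, h.psi, mul_apply', h.hP.gen_val (by decide), if_neg (by decide),
          if_neg (by decide), if_pos rfl]
        have m6 : ∀ (f : FF →* FreeGroup (Fin 11)) (a b c d : FF),
            f (a * b * c⁻¹ * b⁻¹ * d * a⁻¹) =
              f a * f b * (f c)⁻¹ * (f b)⁻¹ * f d * (f a)⁻¹ := by
          intro f a b c d
          simp only [map_mul, map_inv]
        rw [m6, hg 10 (by decide), hg 11 (by decide), gW_gen w (k := 15) (by decide),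
          gW_gen w (k := 14) (by decide), if_neg (by decide), if_pos rfl, hw]
        exact gW_alg _ _ _ _
      · rw [if_neg (fun h => hn h.2)]
        have hc : ∀ n : Fin 11, n ≠ 10 → (K2 2).c n < 22 ∧ (K2 2).c n ≠ 14 := by decide
        rw [gW_gen w (hc n hn).1, if_neg (hc n hn).2, Inj.prj_gen_c]
    have := DFunLike.congr_fun key y
    rw [MonoidHom.comp_apply, hy, map_one] at this
    exact this.symm

lemma sideB_iff (h : Xd X P) (i : Fin 3) (x : FF) :
    S2 h i x = 1 ↔ big X i ((uf2 : EE) x) = 1 := by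
  rw [sideB h]
  constructor
  · intro h
    rw [h, map_one]
  · exact hh_inj h i _

end Pool.Agent.Y524
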