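import Pool.Agent.Y524.Core4

/-!
Restricting a triple of endomorphisms of `FF` to a subsurface.
-/

namespace Pool.Agent.Y524

/-- The free group on `a_i = (i, false)`, `b_i = (i, true)`, `i < g`. -/
abbrev Fg' (g : ℕ) := FreeGroup (Fin g × Bool)

/-- Kernel of an endomorphism. -/
def Ker (r : EE) : Subgroup FF where
  carrier := {x | r x = 1}
  one_mem' := map_one r
  mul_mem' := by
    intro a b ha hb
    change r (a * b) = 1
    rw [map_mul, show r a = 1 from ha, show r b = 1 from hb, one_mul]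
  inv_mem' := by
    intro a ha
    change r a⁻¹ = 1
    rw [map_inv, show r a = 1 from ha, inv_one]

lemma mem_Ker {r : EE} {x : FF} : x ∈ Ker r ↔ r x = 1 := Iff.rfl

instance (r : EE) : (Ker r).Normal where
  conj_mem := by
    intro n hn g
    rw [mem_Ker] at hn ⊢
    rw [map_mul, map_mul, hn, map_inv]
    group

/-- Data of a subsurface and of the free targets. -/
structure SubD (g : ℕ) (R : Fin 3 → EE) where
  ι : Fg' g →* FF
  ρ : FF →* Fg' g
  η : Fin 3 → (FF →* FF)
  τ : Fin 3 → (FF →* FreeGroup (Fin g))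
  σ : Fin 3 → (FreeGroup (Fin g) →* FF)
  hρ : ∀ x, ρ (ι x) = x
  hη : ∀ i x, η i (R i x) = R i (ι (ρ x))
  hσ : ∀ i x, σ i (τ i (R i (ι x))) = R i (ι x)

namespace SubD

variable {g : ℕ} {R : Fin 3 → EE} (D : SubD g R)

/-- The handlebody maps. -/
def φ (i : Fin 3) : Fg' g →* FreeGroup (Fin g) := (D.τ i).comp ((R i : FF →* FF).comp D.ι)

lemma φ_apply (i : Fin 3) (x : Fg' g) : D.φ i x = D.τ i (R i (D.ι x)) := rfl

lemma φ_eq_one (i : Fin 3) (x : Fg' g) : D.φ i x = 1 ↔ R i (D.ι x) = 1 := by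
  constructor
  · intro h
    rw [← D.hσ, ← φ_apply, h, map_one]
  · intro h
    rw [φ_apply, h, map_one]

/-- The pair lemma. -/
lemma pair (i j : Fin 3) (L : EE) (h1 : ∀ x, R i x = 1 → L x = 1)
    (h2 : ∀ x, R j x = 1 → L x = 1)
    (h3 : ∀ x, L x = 1 → x ∈ Ker (R i) ⊔ Ker (R j))
    (x : Fg' g) : L (D.ι x) = 1 ↔ x ∈ (D.φ i).ker ⊔ (D.φ j).ker := by
  constructor
  · intro h
    have := h3 _ h
    rw [Subgroup.mem_sup_of_normal_right] at this
    obtain ⟨u, hu, v, hv, huv⟩ := this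
    have e : x = D.ρ u * D.ρ v := by rw [← map_mul, huv, D.hρ]
    rw [e]
    refine Subgroup.mul_mem_sup ?_ ?_
    · rw [MonoidHom.mem_ker, φ_eq_one, ← D.hη]
      rw [mem_Ker] at hu
      rw [hu, map_one]
    · rw [MonoidHom.mem_ker, φ_eq_one, ← D.hη]
      rw [mem_Ker] at hv
      rw [hv, map_one]
  · intro h
    have hle : (D.φ i).ker ⊔ (D.φ j).ker ≤ ((L : FF →* FF).comp D.ι).ker := by
      refine sup_le ?_ ?_
      · intro y hy
        rw [MonoidHom.mem_ker, φ_eq_one] at hy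
        exact h1 _ hy
      · intro y hy
        rw [MonoidHom.mem_ker, φ_eq_one] at hy
        exact h2 _ hy
    exact hle h

/-- The sector map. -/
lemma sector {k : ℕ} (i j : Fin 3) (L : EE) (h1 : ∀ x, R i x = 1 → L x = 1)
    (h2 : ∀ x, R j x = 1 → L x = 1)
    (h3 : ∀ x, L x = 1 → x ∈ Ker (R i) ⊔ Ker (R j))
    (lam : FF →* FreeGroup (Fin k)) (mu : FreeGroup (Fin k) →* FF)
    (hmu : ∀ x, mu (lam (L (D.ι x))) = L (D.ι x))
    (hs : ∀ n : Fin k, ∃ x, lam (L (D.ι x)) = FreeGroup.of n) :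
    ∃ M : Fg' g →* FreeGroup (Fin k), Function.Surjective M ∧
      M.ker = (D.φ i).ker ⊔ (D.φ j).ker ∧ M = lam.comp ((L : FF →* FF).comp D.ι) := by
  refine ⟨lam.comp ((L : FF →* FF).comp D.ι), ?_, ?_, rfl⟩
  · rw [← MonoidHom.range_eq_top, eq_top_iff]
    rintro y -
    induction y using FreeGroup.induction_on with
    | C1 => exact one_mem _
    | of n => exact hs n
    | inv_of n h => exact inv_mem h
    | mul a b ha hb => exact mul_mem ha hb
  · ext x
    rw [← D.pair i j L h1 h2 h3, MonoidHom.mem_ker]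
    constructor
    · intro h
      rw [← hmu]
      change lam (L (D.ι x)) = 1 at h
      rw [h, map_one]
    · intro h
      change lam (L (D.ι x)) = 1
      rw [h, map_one]

end SubD

/-- If `y * (q y)⁻¹ ∈ N` for the letters then for all elements. -/
lemma ker_le_of_letters {q : EE} {N : Subgroup FF} [N.Normal]
    (h : ∀ j < 22, gen j * (q (gen j))⁻¹ ∈ N) {x : FF} (hx : q x = 1) : x ∈ N := by
  have e : (QuotientGroup.mk' N) = (QuotientGroup.mk' N).comp (q : FF →* FF) := by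
    refine FreeGroup.ext_hom _ _ fun p => ?_
    rw [of_eq_gen]
    have := h (2 * p.1.val + p.2.toNat) (by have := p.1.isLt; cases p.2 <;> simp <;> omega)
    change (QuotientGroup.mk' N) _ = (QuotientGroup.mk' N) (q _)
    rw [QuotientGroup.mk'_eq_mk']
    refine ⟨(gen (2 * p.1.val + p.2.toNat))⁻¹ * q (gen (2 * p.1.val + p.2.toNat)), ?_, by group⟩
    have h2 := inv_mem (Subgroup.Normal.conj_mem inferInstance _ this
      (gen (2 * p.1.val + p.2.toNat))⁻¹)
    convert h2 using 1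
    group
  have := DFunLike.congr_fun e x
  change (QuotientGroup.mk' N) x = (QuotientGroup.mk' N) (q x) at this
  rw [hx, map_one] at this
  exact (QuotientGroup.eq_one_iff x).1 this

/-- Transport of the pair condition by an automorphism. -/
lemma sup_transport {r s r' s' : EE} {q : EE} (u : UU)
    (hr : ∀ x, r' ((u : EE) x) = 1 ↔ r x = 1) (hs : ∀ x, s' ((u : EE) x) = 1 ↔ s x = 1)
    (h3 : ∀ x, q x = 1 → x ∈ Ker r' ⊔ Ker s')
    (x : FF) (hx : q ((u : EE) x) = 1) :
    x ∈ Ker r ⊔ Ker s := by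
  have := h3 _ hx
  rw [Subgroup.mem_sup_of_normal_right] at this ⊢
  obtain ⟨a, ha, b, hb, hab⟩ := this
  refine ⟨((u⁻¹ : UU) : EE) a, ?_, ((u⁻¹ : UU) : EE) b, ?_, ?_⟩
  · rw [mem_Ker] at ha ⊢
    refine (hr _).1 ?_
    rw [apply_inv_self]; exact ha
  · rw [mem_Ker] at hb ⊢
    refine (hs _).1 ?_
    rw [apply_inv_self]; exact hb
  · rw [← map_mul, hab, inv_apply_self]

end Pool.Agent.Y524
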