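import Pool.Agent.Y524.Lett

/-!
The genus five trisection.
-/

namespace Pool.Agent.Y524

set_option maxRecDepth 100000

/-- Position of a natural number in a list, as an element of `Fin g`. -/
def posn (l : List ℕ) (g : ℕ) (k : ℕ) : Option (Fin g) :=
  if h : l.idxOf k < g then some ⟨l.idxOf k, h⟩ else none

/-- Complement kill table. -/
def kcomp (l : List ℕ) : Tb := ((List.range 22).filter fun k => !l.contains k).map fun k => (k, [])

/-- letters of a subsurface given by a list of blocks -/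
def blk (m : List ℕ) : List ℕ := m.flatMap fun i => [2 * i, 2 * i + 1]

def cblk (m : List ℕ) {g : ℕ} (x : Fin g × Bool) : ℕ := 2 * m.getD x.1.val 0 + x.2.toNat

def cblk' (m : List ℕ) (g : ℕ) (k : ℕ) : Option (Fin g × Bool) :=
  (posn m g (k / 2)).map fun j => (j, k % 2 == 1)

/-- blocks of the genus five piece -/
def m5 : List ℕ := [3, 4, 5, 6, 7]

/-- kill everything outside the genus five piece -/
def k5 : Tb := kcomp (blk m5)

/-- the injection of the genus five piece -/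
def I5 : Inj (Fin 5 × Bool) where
  c := cblk m5
  c' := cblk' m5 5
  kt := k5
  hc := by decide
  h1 := by decide
  h2 := by decide
  h3 := by decide

/-- injections of target letters -/
def IL (l : List ℕ) (g : ℕ) (hc : ∀ x : Fin g, l.getD x.val 0 < 22)
    (h1 : ∀ x : Fin g, posn l g (l.getD x.val 0) = some x)
    (h2 : ∀ k < 22, ∀ x : Fin g, posn l g k = some x → l.getD x.val 0 = k)
    (h3 : ∀ k < 22, look (kcomp l) k = if (posn l g k).isSome then [2 * k] else []) :
    Inj (Fin g) where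
  c x := l.getD x.val 0
  c' := posn l g
  kt := kcomp l
  hc := hc
  h1 := h1
  h2 := h2
  h3 := h3

def lA5 : List ℕ := [6, 8, 10, 13, 15]
def lB5 : List ℕ := [6, 8, 10, 12, 14]
def lG5 : List ℕ := [6, 8, 10, 14, 15]

/-- target letters for the genus five piece -/
def J5 (i : Fin 3) : Inj (Fin 5) :=
  match i with
  | 0 => IL lA5 5 (by decide) (by decide) (by decide) (by decide)
  | 1 => IL lB5 5 (by decide) (by decide) (by decide) (by decide)
  | 2 => IL lG5 5 (by decide) (by decide) (by decide) (by decide)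

def l3 : List ℕ := [6, 8, 10]
/-- target letters of the sectors -/
def J3 : Inj (Fin 3) := IL l3 3 (by decide) (by decide) (by decide) (by decide)

/-- The three retractions. -/
def rr (i : Fin 3) : Tb := match i with
  | 0 => rA
  | 1 => rB
  | 2 => rG

/-- target kill tables -/
def kk5 (i : Fin 3) : Tb := match i with
  | 0 => kcomp lA5
  | 1 => kcomp lB5
  | 2 => kcomp lG5

lemma J5_kt (i : Fin 3) : (J5 i).kt = kk5 i := by fin_cases i <;> rfl

lemma c5_r : ∀ i : Fin 3, chk [k5, rr i] [rr i, k5] = true := by decide +kernel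
lemma c5_k : ∀ i : Fin 3, chk [kk5 i, rr i, k5] [rr i, k5] = true := by decide +kernel
lemma c5_idem : chk [k5, k5] [k5] = true := by decide +kernel
lemma c5_D : ∀ k : Fin 12, 4 ≤ k → k ≠ 11 → chk [tD k false, k5] [k5, tD k false] = true := by
  decide +kernel
lemma c5_J : ∀ k : Fin 12, 4 ≤ k → k ≠ 11 → chk [tJ k false, k5] [k5, tJ k false] = true := by
  decide +kernel
lemma c5_q : ∀ q ∈ [qAB, qBG, qGA], (chk [k5, q] [q, k5] && chk [kcomp l3, q, k5] [q, k5]) = true :=
  by decide +kernel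
lemma c5_q3 : ∀ q ∈ [qAB, qBG, qGA], ∀ k ∈ l3, (leq (sb q [2 * k]) [2 * k] &&
    leq (sb k5 [2 * k]) [2 * k]) = true := by decide +kernel
lemma c5_bd : ∀ i : Fin 3, leq (sb (rr i) (sb k5 bdw)) [] = true := by decide +kernel
lemma c5_s : ∀ i : Fin 3, ∀ n : Fin 5, (leq (sb (rr i) [2 * (J5 i).c n]) [2 * (J5 i).c n] &&
    leq (sb k5 [2 * (J5 i).c n]) [2 * (J5 i).c n]) = true := by decide +kernel

/-- Commutation with `κ5`. -/
lemma comm5 {p : UU × UU} (hp : p ∈ PS (fun k => 4 ≤ k)) :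
    (p.1 : EE) * endo k5 = endo k5 * p.1 ∧ (p.2 : EE) * endo k5 = endo k5 * p.2 := by
  have aux : ∀ {u : UU}, (u : EE) * endo k5 = endo k5 * u →
      ((u⁻¹ : UU) : EE) * endo k5 = endo k5 * ((u⁻¹ : UU) : EE) := by
    intro u hu
    have : (Commute (u : EE) (endo k5)) := hu
    exact (this.units_inv_left : _)
  induction hp using Subgroup.closure_induction with
  | mem x hx =>
    obtain ⟨k, hk, rfl⟩ := hx
    have hk' : (4 : Fin 12) ≤ k.castSucc := by
      have : (4 : Fin 11) ≤ k := hk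
      revert this; revert k; decide
    have hk2 : k.castSucc ≠ 11 := by
      intro h; have := congrArg Fin.val h; have := k.isLt; simp at *; omega
    have h1 := chk_sound (c5_D k.castSucc hk' hk2)
    have h2 := chk_sound (c5_J k.castSucc hk' hk2)
    rw [cmp_two, cmp_two] at h1 h2
    exact ⟨h1, h2⟩
  | one => simp
  | mul x y _ _ hx hy =>
    refine ⟨?_, ?_⟩
    · change ((x.1 * y.1 : UU) : EE) * _ = _ * ((x.1 * y.1 : UU) : EE)
      rw [Units.val_mul, mul_assoc, hy.1, ← mul_assoc, hx.1, mul_assoc]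
    · change ((x.2 * y.2 : UU) : EE) * _ = _ * ((x.2 * y.2 : UU) : EE)
      rw [Units.val_mul, mul_assoc, hy.2, ← mul_assoc, hx.2, mul_assoc]
  | inv x _ hx => exact ⟨aux hx.1, aux hx.2⟩

lemma big_eq (d : UU) (i : Fin 3) :
    big d i = endo (rr i) * (if i = 2 then (d : EE) else 1) := by
  fin_cases i <;> simp [big, rr]

/-- The factor. -/
def dfac (d : UU) (i : Fin 3) : UU := if i = 2 then d else 1

lemma big_eq' (d : UU) (i : Fin 3) : big d i = endo (rr i) * (dfac d i : UU) := by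
  fin_cases i <;> simp [big, rr, dfac]

lemma dfac_comm {d : UU} (h : (d : EE) * endo k5 = endo k5 * d) (i : Fin 3) :
    ((dfac d i : UU) : EE) * endo k5 = endo k5 * (dfac d i : UU) := by
  unfold dfac
  split_ifs
  · exact h
  · simp

lemma mul_apply' (f g : EE) (x : FF) : (f * g) x = f (g x) := rfl

/-- Subsurface data for the genus five trisection. -/
def D5 (d : UU) (h : (d : EE) * endo k5 = endo k5 * d) : SubD 5 (big d) where
  ι := I5.inc
  ρ := I5.prj
  η := fun _ => endo k5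
  τ := fun i => (J5 i).prj
  σ := fun i => (J5 i).inc
  hρ := I5.prj_inc
  hη := by
    intro i x
    rw [I5.inc_prj]
    have h1 := chk_sound (c5_r i)
    rw [cmp_two, cmp_two] at h1
    have : endo k5 * big d i = big d i * endo k5 := by
      rw [big_eq', ← mul_assoc, h1, mul_assoc, ← dfac_comm h, mul_assoc]
    exact DFunLike.congr_fun this x
  hσ := by
    intro i x
    rw [Inj.inc_prj, J5_kt]
    have h1 := chk_sound (c5_k i)
    rw [cmp_three, cmp_two] at h1
    have h2 : endo (kk5 i) * (big d i * endo k5) = big d i * endo k5 := by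
      rw [big_eq', mul_assoc, dfac_comm h, ← mul_assoc, ← mul_assoc, ← mul_assoc, h1]
    have := DFunLike.congr_fun h2 (I5.inc x)
    have e : (big d i * endo k5) (I5.inc x) = big d i (I5.inc x) := by
      rw [mul_apply']; congr 1; exact I5.inc_eq x
    rw [mul_apply', e] at this
    exact this


/-- The boundary word. -/
def bd' (g : ℕ) : Fg' g :=
  (List.ofFn fun i : Fin g => FreeGroup.of (i, false) * FreeGroup.of (i, true) *
    (FreeGroup.of (i, false))⁻¹ * (FreeGroup.of (i, true))⁻¹).prod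

lemma I5_bd : I5.inc (bd' 5) = endo k5 bdF := by
  have h : endo k5 bdF = ev (sb k5 bdw) := by unfold bdF; rw [endo_ev]
  rw [h]
  have h2 : sb k5 bdw = [12, 14, 13, 15, 16, 18, 17, 19, 20, 22, 21, 23, 24, 26, 25, 27, 28, 30,
    29, 31] := leq_sound _ _ (by decide +kernel)
  rw [h2]
  unfold bd'
  simp only [List.ofFn_succ, List.ofFn_zero, List.prod_cons, List.prod_nil, map_mul, map_inv,
    Inj.inc_of, ev_cons, ev_nil, mul_one]
  have c : ∀ j : Fin 5, ∀ b : Bool, I5.c (j, b) = 2 * (3 + j.val) + b.toNat := by decide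
  simp only [c]
  simp [gl, mul_assoc]

lemma endo_gen_fix {t : Tb} {k : ℕ} (h : leq (sb t [2 * k]) [2 * k] = true) :
    endo t (gen k) = gen k := by
  rw [gen_eq_ev, endo_ev, leq_sound _ _ h]

/-- General sector lemma. -/
lemma sec_gen {g k : ℕ} {R : Fin 3 → EE} (D : SubD g R) (i j : Fin 3) (q kl : Tb) (u : UU)
    (J : Inj (Fin k))
    (h1 : ∀ x, R i x = 1 → endo q ((u : EE) x) = 1) (h2 : ∀ x, R j x = 1 → endo q ((u : EE) x) = 1)
    (h3 : ∀ x, endo q ((u : EE) x) = 1 → x ∈ Ker (R i) ⊔ Ker (R j))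
    (hL : ∀ x, endo q ((u : EE) (D.ι (D.ρ x))) = endo kl (endo q ((u : EE) x)))
    (hkc : chk [J.kt, kl, q] [kl, q] = true)
    (hfix : ∀ n, (leq (sb q [2 * J.c n]) [2 * J.c n] && leq (sb kl [2 * J.c n]) [2 * J.c n]) = true) :
    ∃ M : Fg' g →* FreeGroup (Fin k), Function.Surjective M ∧
      M.ker = (D.φ i).ker ⊔ (D.φ j).ker ∧
      M = J.prj.comp (((endo q * (u : EE) : EE) : FF →* FF).comp D.ι) := by
  have hkc' := chk_sound hkc
  rw [cmp_three, cmp_two] at hkc'
  have hL' : ∀ x, endo q ((u : EE) (D.ι x)) = endo kl (endo q ((u : EE) (D.ι x))) := by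
    intro x
    have := hL (D.ι x)
    rwa [D.hρ] at this
  refine D.sector i j (endo q * (u : EE)) h1 h2 h3 J.prj J.inc ?_ ?_
  · intro x
    rw [Inj.inc_prj]
    change endo J.kt (endo q ((u : EE) (D.ι x))) = endo q ((u : EE) (D.ι x))
    rw [hL' x]
    exact DFunLike.congr_fun hkc' ((u : EE) (D.ι x))
  · intro n
    refine ⟨D.ρ (((u⁻¹ : UU) : EE) (gen (J.c n))), ?_⟩
    change J.prj (endo q ((u : EE) (D.ι (D.ρ (((u⁻¹ : UU) : EE) (gen (J.c n))))))) = _
    have hf := hfix n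
    rw [Bool.and_eq_true] at hf
    rw [hL, apply_inv_self, endo_gen_fix hf.1, endo_gen_fix hf.2, Inj.prj_gen_c]

lemma dfac_fixB {d : UU} (h : d ∈ fixB) (i : Fin 3) : dfac d i ∈ fixB := by
  unfold dfac; split_ifs
  · exact h
  · exact one_mem _

lemma inv_comm {u : UU} {k : EE} (hu : (u : EE) * k = k * u) :
    ((u⁻¹ : UU) : EE) * k = k * ((u⁻¹ : UU) : EE) := by
  have : (Commute (u : EE) k) := hu
  exact (this.units_inv_left : _)

lemma rr_sb {i : Fin 3} {w v : List ℕ} (h : leq (sb (rr i) w) v = true) :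
    endo (rr i) (ev w) = ev v := by
  rw [endo_ev, leq_sound _ _ h]

lemma D5_surj (d : UU) (h : (d : EE) * endo k5 = endo k5 * d) (i : Fin 3) :
    Function.Surjective ((D5 d h).φ i) := by
  rw [← MonoidHom.range_eq_top, eq_top_iff]
  rintro y -
  induction y using FreeGroup.induction_on with
  | C1 => exact one_mem _
  | of n =>
    have hc := c5_s i n
    rw [Bool.and_eq_true] at hc
    refine ⟨I5.prj ((((dfac d i)⁻¹ : UU) : EE) (gen ((J5 i).c n))), ?_⟩
    rw [SubD.φ_apply]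
    change (J5 i).prj (big d i (I5.inc (I5.prj _))) = _
    rw [I5.inc_prj]
    have e : (endo I5.kt) ((((dfac d i)⁻¹ : UU) : EE) (gen ((J5 i).c n))) =
        (((dfac d i)⁻¹ : UU) : EE) (endo k5 (gen ((J5 i).c n))) :=
      (DFunLike.congr_fun (inv_comm (dfac_comm h i)) (gen ((J5 i).c n))).symm
    rw [e, endo_gen_fix hc.2, big_eq', mul_apply', apply_inv_self, endo_gen_fix hc.1,
      Inj.prj_gen_c]
  | inv_of n h => exact inv_mem h
  | mul a b ha hb => exact mul_mem ha hb

lemma D5_closed (d : UU) (h : (d : EE) * endo k5 = endo k5 * d) (hd : d ∈ fixB) (i : Fin 3) :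
    (D5 d h).φ i (bd' 5) = 1 := by
  rw [SubD.φ_eq_one]
  change big d i (I5.inc (bd' 5)) = 1
  rw [I5_bd, big_eq', mul_apply']
  have e : ((dfac d i : UU) : EE) (endo k5 bdF) = endo k5 bdF := by
    have := DFunLike.congr_fun (dfac_comm h i) bdF
    change ((dfac d i : UU) : EE) (endo k5 bdF) = endo k5 (((dfac d i : UU) : EE) bdF) at this
    rw [this, show ((dfac d i : UU) : EE) bdF = bdF from dfac_fixB hd i]
  rw [e]
  unfold bdF
  rw [endo_ev, endo_ev, leq_sound _ _ (c5_bd i), ev_nil]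

lemma mem_sup_symm {a b : Subgroup FF} {x : FF} (h : x ∈ a ⊔ b) : x ∈ b ⊔ a := by
  rwa [sup_comm]

/-- The three sectors of the genus five trisection. -/
lemma D5_sector {p : UU × UU} (hp : p ∈ PS (fun k => 4 ≤ k)) (i j : Fin 3) (hij : i ≠ j) :
    ∃ M : Fg' 5 →* FreeGroup (Fin 3), Function.Surjective M ∧
      M.ker = ((D5 p.1 (comm5 hp).1).φ i).ker ⊔ ((D5 p.1 (comm5 hp).1).φ j).ker := by
  have hP1 : p ∈ P1 := P0_le_P1 (PS_le_P0 _ hp)
  have hqc : ∀ {q : Tb}, q ∈ [qAB, qBG, qGA] → endo k5 * endo q = endo q * endo k5 := by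
    intro q hq
    have := c5_q q hq
    rw [Bool.and_eq_true] at this
    have := chk_sound this.1
    rwa [cmp_two, cmp_two] at this
  have hqk : ∀ {q : Tb}, q ∈ [qAB, qBG, qGA] → chk [J3.kt, k5, q] [k5, q] = true := by
    intro q hq
    have h1 : q = qAB ∨ q = qBG ∨ q = qGA := by simpa using hq
    rcases h1 with rfl | rfl | rfl <;> decide +kernel
  have hfx : ∀ {q : Tb}, q ∈ [qAB, qBG, qGA] → ∀ n, (leq (sb q [2 * J3.c n]) [2 * J3.c n] &&
      leq (sb k5 [2 * J3.c n]) [2 * J3.c n]) = true := by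
    intro q hq
    have h1 : q = qAB ∨ q = qBG ∨ q = qGA := by simpa using hq
    rcases h1 with rfl | rfl | rfl <;> decide +kernel
  have hLL : ∀ {q : Tb}, q ∈ [qAB, qBG, qGA] → ∀ u : UU, (u : EE) * endo k5 = endo k5 * u →
      ∀ x, endo q ((u : EE) (I5.inc (I5.prj x))) = endo k5 (endo q ((u : EE) x)) := by
    intro q hq u hu x
    rw [I5.inc_prj]
    have e1 : (u : EE) (endo I5.kt x) = endo k5 ((u : EE) x) := DFunLike.congr_fun hu x
    rw [e1]
    exact (DFunLike.congr_fun (hqc hq) ((u : EE) x)).symm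
  have AB : ∃ M : Fg' 5 →* FreeGroup (Fin 3), Function.Surjective M ∧
      M.ker = ((D5 p.1 (comm5 hp).1).φ 0).ker ⊔ ((D5 p.1 (comm5 hp).1).φ 1).ker := by
    obtain ⟨M, h1, h2, _⟩ := sec_gen (D5 p.1 (comm5 hp).1) 0 1 qAB k5 1 J3
      (fun x hx => qabs_of (q := qAB) (r := rA) (by simp) hx)
      (fun x hx => qabs_of (q := qAB) (r := rB) (by simp) hx)
      (fun x hx => wchk_sound w_AB x hx)
      (hLL (by simp) 1 (by simp)) (hqk (by simp)) (hfx (by simp))
    exact ⟨M, h1, h2⟩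
  have BG : ∃ M : Fg' 5 →* FreeGroup (Fin 3), Function.Surjective M ∧
      M.ker = ((D5 p.1 (comm5 hp).1).φ 1).ker ⊔ ((D5 p.1 (comm5 hp).1).φ 2).ker := by
    obtain ⟨M, h1, h2, _⟩ := sec_gen (D5 p.1 (comm5 hp).1) 1 2 qBG k5 p.1 J3
      (fun x hx => qabs_of (q := qBG) (r := rB) (by simp) (((P1_stab hP1).1 x).2 hx))
      (fun x hx => qabs_of (q := qBG) (r := rG) (by simp) hx)
      (fun x hx => sup_transport p.1 (P1_stab hP1).1 (fun _ => Iff.rfl) (wchk_sound w_BG) x hx)
      (hLL (by simp) p.1 (comm5 hp).1) (hqk (by simp)) (hfx (by simp))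
    exact ⟨M, h1, h2⟩
  have hu : ((p.2⁻¹ * p.1 : UU) : EE) * endo k5 = endo k5 * ((p.2⁻¹ * p.1 : UU) : EE) := by
    rw [Units.val_mul, mul_assoc, (comm5 hp).1, ← mul_assoc, inv_comm (comm5 hp).2, mul_assoc]
  have hGG : ∀ x, endo rG (((p.2⁻¹ * p.1 : UU) : EE) x) = 1 ↔ big p.1 2 x = 1 := by
    intro x
    change endo rG (((p.2⁻¹ : UU) : EE) ((p.1 : EE) x)) = 1 ↔ endo rG ((p.1 : EE) x) = 1
    exact (inv_mem (P1_stab hP1).2) _
  have GA : ∃ M : Fg' 5 →* FreeGroup (Fin 3), Function.Surjective M ∧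
      M.ker = ((D5 p.1 (comm5 hp).1).φ 2).ker ⊔ ((D5 p.1 (comm5 hp).1).φ 0).ker := by
    obtain ⟨M, h1, h2, _⟩ := sec_gen (D5 p.1 (comm5 hp).1) 2 0 qGA k5 (p.2⁻¹ * p.1) J3
      (fun x hx => qabs_of (q := qGA) (r := rG) (by simp) ((hGG x).2 hx))
      (fun x hx => qabs_of (q := qGA) (r := rA) (by simp) (((P1_alpha hP1) x).2 hx))
      (fun x hx => sup_transport (p.2⁻¹ * p.1) hGG (P1_alpha hP1) (wchk_sound w_GA) x hx)
      (hLL (by simp) (p.2⁻¹ * p.1) hu) (hqk (by simp)) (hfx (by simp))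
    exact ⟨M, h1, h2⟩
  fin_cases i <;> fin_cases j
  · exact absurd rfl hij
  · exact AB
  · obtain ⟨M, h1, h2⟩ := GA
    exact ⟨M, h1, by rw [h2, sup_comm]; rfl⟩
  · obtain ⟨M, h1, h2⟩ := AB
    exact ⟨M, h1, by rw [h2, sup_comm]; rfl⟩
  · exact absurd rfl hij
  · exact BG
  · exact GA
  · obtain ⟨M, h1, h2⟩ := BG
    exact ⟨M, h1, by rw [h2, sup_comm]; rfl⟩
  · exact absurd rfl hij

end Pool.Agent.Y524
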