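import Pool.Agent.Y524.TOne

/-!
The genus eight trisection.
-/

namespace Pool.Agent.Y524

set_option maxRecDepth 100000

/-- blocks of the genus eight piece -/
def m8 : List ℕ := [1, 2, 3, 4, 6, 7, 8, 0]

/-- kill everything outside the genus eight piece -/
def k8 : Tb := kcomp (blk m8)

/-- the injection of the genus eight piece -/
def I8 : Inj (Fin 8 × Bool) where
  c := cblk m8
  c' := cblk' m8 8
  kt := k8
  hc := by decide
  h1 := by decide
  h2 := by decide
  h3 := by decide

def lA8 : List ℕ := [2, 4, 6, 8, 13, 15, 17, 0]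
def lB8 : List ℕ := [2, 4, 6, 8, 12, 14, 16, 1]
def lG8 : List ℕ := [3, 5, 6, 8, 10, 15, 16, 0]

/-- target letters for the genus eight piece -/
def J8 (i : Fin 3) : Inj (Fin 8) :=
  match i with
  | 0 => IL lA8 8 (by decide) (by decide) (by decide) (by decide)
  | 1 => IL lB8 8 (by decide) (by decide) (by decide) (by decide)
  | 2 => IL lG8 8 (by decide) (by decide) (by decide) (by decide)

def J4AB : Inj (Fin 4) := IL [6, 8, 4, 2] 4 (by decide) (by decide) (by decide) (by decide)
def J4BG : Inj (Fin 4) := IL [6, 8, 10, 16] 4 (by decide) (by decide) (by decide) (by decide)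
def J4GA : Inj (Fin 4) := IL [0, 6, 8, 10] 4 (by decide) (by decide) (by decide) (by decide)

/-- target kill tables -/
def kk8 (i : Fin 3) : Tb := match i with
  | 0 => kcomp lA8
  | 1 => kcomp lB8
  | 2 => kcomp lG8

lemma J8_kt (i : Fin 3) : (J8 i).kt = kk8 i := by fin_cases i <;> rfl

/-- kill blocks 9 and 10 -/
def k910 : Tb := [(18, []), (19, []), (20, []), (21, [])]
/-- kill all but blocks 1..5 -/
def k15 : Tb := kcomp [2, 3, 4, 5, 6, 7, 8, 9, 10, 11]

lemma c8_F : ∀ (k : Fin 8) (s : Bool), (chk [tF k s, rC] [rC, tF k s] &&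
    chk [tF k s, k15] [k15, tF k s] && chk [tF k s, k910] [k910, tF k s]) = true := by
  decide +kernel
lemma c8_Ffix : ∀ (k : Fin 8) (s : Bool), ∀ j ∈ [0, 1, 12, 13, 14, 15, 16, 17, 18, 19, 20, 21],
    leq (sb (tF k s) [2 * j]) [2 * j] = true := by decide +kernel
lemma c8_D8 : chk [tD 8 false, k910] [k910, tD 8 false] = true := by decide +kernel
lemma c8_Th : chk [tTh, k910] [k910, tTh] = true := by decide +kernel
lemma c8_J : ∀ k : Fin 12, chk [tJ k false, k910] [k910, tJ k false] = true := by decide +kernel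
lemma c8_rG : chk [rG, rC] [rG] = true := by decide +kernel
lemma c8_k5 : chk [kcomp [3, 5, 6, 8, 10], rG, k15] [rG, k15] = true := by decide +kernel
lemma c8_k5' : chk [kk8 2, kcomp [3, 5, 6, 8, 10]] [kcomp [3, 5, 6, 8, 10]] = true := by
  decide +kernel
lemma c8_bd : ∀ i : Fin 3, leq (sb (rr i) bdw) [] = true := by decide +kernel
lemma c8_AB : ∀ i : Fin 2, (chk [k8, rr i.castSucc] [rr i.castSucc, k8] &&
    chk [kk8 i.castSucc, rr i.castSucc, k8] [rr i.castSucc, k8]) = true := by decide +kernel
lemma c8_s : ∀ i : Fin 3, ∀ n : Fin 8, (leq (sb (rr i) [2 * (J8 i).c n]) [2 * (J8 i).c n]) = true ∨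
    i = 2 := by decide +kernel
lemma c8_s' : ∀ i : Fin 2, ∀ n : Fin 8, (leq (sb k8 [2 * (J8 i.castSucc).c n])
    [2 * (J8 i.castSucc).c n]) = true := by decide +kernel

/-- The foot pushes commute with a table. -/
lemma feet_comm {k : Tb} (h : ∀ (n : Fin 8) (s : Bool), endo (tF n s) * endo k =
    endo k * endo (tF n s)) : (Finv : EE) * endo k = endo k * Finv := by
  unfold Finv
  generalize feet = l
  induction l with
  | nil => simp
  | cons p l ih =>
    rw [List.map_cons, List.prod_cons, Units.val_mul, mul_assoc, ih, ← mul_assoc, sF_val, h,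
      mul_assoc]

lemma feet_rC : (Finv : EE) * endo rC = endo rC * Finv := feet_comm fun n s => by
  have := c8_F n s
  rw [Bool.and_eq_true, Bool.and_eq_true] at this
  have := chk_sound this.1.1
  rwa [cmp_two, cmp_two] at this

lemma feet_k15 : (Finv : EE) * endo k15 = endo k15 * Finv := feet_comm fun n s => by
  have := c8_F n s
  rw [Bool.and_eq_true, Bool.and_eq_true] at this
  have := chk_sound this.1.2
  rwa [cmp_two, cmp_two] at this

lemma feet_k910 : (Finv : EE) * endo k910 = endo k910 * Finv := feet_comm fun n s => by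
  have := c8_F n s
  rw [Bool.and_eq_true, Bool.and_eq_true] at this
  have := chk_sound this.2
  rwa [cmp_two, cmp_two] at this

lemma feet_fix {j : ℕ} (hj : j ∈ [0, 1, 12, 13, 14, 15, 16, 17, 18, 19, 20, 21]) :
    (Finv : EE) (gen j) = gen j := by
  unfold Finv
  generalize feet = l
  induction l with
  | nil => simp
  | cons p l ih =>
    rw [List.map_cons, List.prod_cons, Units.val_mul, mul_apply', ih, sF_val]
    exact endo_gen_fix (c8_Ffix p.1 p.2 j hj)

/-- `rG ∘ Finv`. -/
def PP : EE := endo rG * (Finv : EE)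

lemma psi_eq : big XX 2 = PP * endo tS := by
  have h1 := chk_sound c8_rG
  have h2 := chk_sound cS
  rw [cmp_two, cmp_one] at h1
  rw [cmp_three, cmp_one] at h2
  change endo rG * ((Finv * uD 8 * uTh : UU) : EE) = endo rG * (Finv : EE) * endo tS
  rw [Units.val_mul, Units.val_mul, ← h2]
  calc endo rG * ((Finv : EE) * (uD 8 : EE) * (uTh : EE)) =
      (endo rG * endo rC) * (Finv : EE) * ((uD 8 : EE) * (uTh : EE)) := by
        rw [h1]; simp only [mul_assoc]
    _ = endo rG * (endo rC * (Finv : EE)) * ((uD 8 : EE) * (uTh : EE)) := by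
        simp only [mul_assoc]
    _ = endo rG * ((Finv : EE) * endo rC) * ((uD 8 : EE) * (uTh : EE)) := by rw [feet_rC]
    _ = endo rG * (Finv : EE) * (endo rC * endo (tD 8 false) * endo tTh) := by
        simp only [mul_assoc]; rfl

lemma PP_fix {j : ℕ} (hj : j ∈ [0, 1, 12, 13, 14, 15, 16, 17, 18, 19, 20, 21]) :
    PP (gen j) = ev (sb rG [2 * j]) := by
  change endo rG ((Finv : EE) (gen j)) = _
  rw [feet_fix hj, gen_eq_ev, endo_ev]

lemma PP_in {j : ℕ} (hj : j ∈ [2, 3, 4, 5, 6, 7, 8, 9, 10, 11]) :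
    endo (kk8 2) (PP (gen j)) = PP (gen j) := by
  have h1 : endo k15 (gen j) = gen j := by
    fin_cases hj <;> exact endo_gen_fix (by decide +kernel)
  have h2 := chk_sound c8_k5
  have h3 := chk_sound c8_k5'
  rw [cmp_three, cmp_two] at h2
  rw [cmp_two, cmp_one] at h3
  have h4 : PP (gen j) = (endo rG * endo k15) ((Finv : EE) (gen j)) := by
    change endo rG ((Finv : EE) (gen j)) = endo rG (endo k15 ((Finv : EE) (gen j)))
    congr 1
    have := DFunLike.congr_fun feet_k15 (gen j)
    change (Finv : EE) (endo k15 (gen j)) = endo k15 ((Finv : EE) (gen j)) at this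
    rw [h1] at this
    exact this
  rw [h4, ← h2]
  change (endo (kk8 2) * endo (kcomp [3, 5, 6, 8, 10])) _ = endo (kcomp [3, 5, 6, 8, 10]) _
  rw [h3]



end Pool.Agent.Y524
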