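import Pool.Agent.Y524.TTwoA

/-!
The gamma handlebody of the genus eight trisection.
-/

namespace Pool.Agent.Y524

set_option maxRecDepth 100000

lemma e10 : endo tS (gen 10) = 1 := by
  rw [gen_eq_ev, endo_ev, show sb tS [2 * 10] = [] from leq_sound _ _ (by decide +kernel), ev_nil]

lemma e11 : endo tS (gen 11) = gen 10 * gen 15 * (gen 14)⁻¹ * (gen 15)⁻¹ * gen 11 * (gen 10)⁻¹ := by
  have h : endo tS (gen 11) = ev [20, 30, 29, 31, 22, 21] := by
    rw [gen_eq_ev, endo_ev, show sb tS [2 * 11] = [20, 30, 29, 31, 22, 21] from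
      leq_sound _ _ (by decide +kernel)]
  rw [h]
  simp [gl, mul_assoc]

lemma e12 : endo tS (gen 12) = gen 10 * gen 15 := by
  have h : endo tS (gen 12) = ev [20, 30] := by
    rw [gen_eq_ev, endo_ev, show sb tS [2 * 12] = [20, 30] from
      leq_sound _ _ (by decide +kernel)]
  rw [h]
  simp [gl]

lemma e13 : endo tS (gen 13) = (gen 15)⁻¹ * gen 11 * gen 15 := by
  have h : endo tS (gen 13) = ev [31, 22, 30] := by
    rw [gen_eq_ev, endo_ev, show sb tS [2 * 13] = [31, 22, 30] from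
      leq_sound _ _ (by decide +kernel)]
  rw [h]
  simp [gl, mul_assoc]

lemma e14 : endo tS (gen 14) = (gen 15)⁻¹ * gen 11 * gen 15 := by
  have h : endo tS (gen 14) = ev [31, 22, 30] := by
    rw [gen_eq_ev, endo_ev, show sb tS [2 * 14] = [31, 22, 30] from
      leq_sound _ _ (by decide +kernel)]
  rw [h]
  simp [gl, mul_assoc]

lemma tS_fix {j : ℕ} (hj : j ∈ [0, 1, 2, 3, 4, 5, 6, 7, 8, 9, 15, 16, 17, 18, 19, 20, 21]) :
    endo tS (gen j) = gen j := by
  fin_cases hj <;> exact endo_gen_fix (by decide +kernel)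

lemma map_six (f : EE) (a b c d : FF) : f (a * b * c⁻¹ * b⁻¹ * d * a⁻¹) =
   f a * f b * (f c)⁻¹ * (f b)⁻¹ * f d * (f a)⁻¹ := by
  simp only [map_mul, map_inv]

lemma map_conj (f : EE) (a b : FF) : f (a⁻¹ * b * a) = (f a)⁻¹ * f b * f a := by
  simp only [map_mul, map_inv]

lemma six_one (a b c : FF) : a * b * (b⁻¹ * c * b)⁻¹ * b⁻¹ * c * a⁻¹ = 1 := by group

lemma E_one (f : EE) : f 1 = 1 := map_one f

lemma map_two (f : EE) (a b : FF) : f (a * b) = f a * f b := map_mul f a b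

lemma k8_gen {j : ℕ} (hj : j < 22) : endo k8 (gen j) =
    if j ∈ [10, 11, 18, 19, 20, 21] then 1 else gen j := by
  rw [endo_gen, Nat.mod_eq_of_lt hj]
  have : look k8 j = if j ∈ [10, 11, 18, 19, 20, 21] then [] else [2 * j] := by
    revert j; decide
  rw [this]
  split_ifs
  · simp
  · rw [← gen_eq_ev]

/-- The function defining the retraction on the gamma targets. -/
def etaF (w : FF) (p : Fin 11 × Bool) : FF :=
  if 2 * p.1.val + p.2.toNat = 14 then w else
    if 18 ≤ 2 * p.1.val + p.2.toNat then 1 else FreeGroup.of p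

/-- The retraction on the gamma targets. -/
def etaW (w : FF) : EE := (FreeGroup.lift (etaF w) : FF →* FF)

lemma etaW_gen (w : FF) {k : ℕ} (hk : k < 22) :
    etaW w (gen k) = if k = 14 then w else if 18 ≤ k then 1 else gen k := by
  have e : etaW w (gen k) = etaF w (Fin.ofNat 11 (k / 2), k % 2 == 1) := FreeGroup.lift_apply_of
  rw [e]
  unfold etaF
  rw [Inj.code_gen hk]
  rfl

lemma etaW_kk (w x : FF) : etaW w (endo (kk8 2) x) = endo (kk8 2) x := by
  have : etaW w * endo (kk8 2) = endo (kk8 2) := by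
    refine End_ext fun k hk => ?_
    rw [mul_apply', endo_gen, Nat.mod_eq_of_lt hk]
    have hh : look (kk8 2) k = [2 * k] ∧ k ≠ 14 ∧ ¬ 18 ≤ k ∨ look (kk8 2) k = [] := by
      revert k; decide
    rcases hh with ⟨h1, h2, h3⟩ | h1
    · rw [h1, ← gen_eq_ev, etaW_gen w hk, if_neg h2, if_neg h3]
    · rw [h1]; simp
  exact DFunLike.congr_fun this x

lemma etaW_fix (w : FF) {k : ℕ}
    (hk : k ∈ [0, 1, 2, 3, 4, 5, 6, 7, 8, 9, 10, 11, 12, 13, 15, 16, 17]) :
    etaW w (gen k) = gen k := by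
  have h : k < 22 ∧ k ≠ 14 ∧ ¬ 18 ≤ k := by revert k; decide
  rw [etaW_gen w h.1, if_neg h.2.1, if_neg h.2.2]

lemma etaW14 (w : FF) : etaW w (gen 14) = w := by rw [etaW_gen w (by decide), if_pos rfl]

lemma rG_out (w : FF) {j : ℕ} (hj : j ∈ [0, 1, 15, 16, 17]) :
    etaW w (ev (sb rG [2 * j])) = ev (sb rG [2 * j]) := by
  have h : sb rG [2 * j] = [2 * j] ∨ sb rG [2 * j] = [] := by revert j; decide +kernel
  have h' : j ∈ [0, 1, 2, 3, 4, 5, 6, 7, 8, 9, 10, 11, 12, 13, 15, 16, 17] := by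
    revert j; decide
  rcases h with h | h
  · rw [h, ← gen_eq_ev, etaW_fix w h']
  · rw [h, ev_nil, map_one]

lemma rG_out2 (w : FF) {j : ℕ} (hj : j ∈ [18, 19, 20, 21]) :
    etaW w (ev (sb rG [2 * j])) = 1 := by
  have h : sb rG [2 * j] = [2 * j] ∨ sb rG [2 * j] = [] := by revert j; decide +kernel
  have h' : j < 22 ∧ ¬ j = 14 ∧ 18 ≤ j := by revert j; decide
  rcases h with h | h
  · rw [h, ← gen_eq_ev, etaW_gen w h'.1, if_neg h'.2.1, if_pos h'.2.2]
  · rw [h, ev_nil, map_one]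

/-- Abstract version of the hypotheses. -/
structure PPd (P : EE) : Prop where
  inn : ∀ {j : ℕ}, j ∈ [2, 3, 4, 5, 6, 7, 8, 9, 10, 11] → endo (kk8 2) (P (gen j)) = P (gen j)
  fixx : ∀ {j : ℕ}, j ∈ [0, 1, 12, 13, 14, 15, 16, 17, 18, 19, 20, 21] →
    P (gen j) = ev (sb rG [2 * j])

variable {P : EE} (hP : PPd P)

include hP in
lemma PPd.p15 : P (gen 15) = gen 15 := by rw [hP.fixx (by simp)]; decide +kernel
include hP in
lemma PPd.p14 : P (gen 14) = gen 14 := by rw [hP.fixx (by simp)]; decide +kernel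

/-- the word -/
def wP (P : EE) : FF := (gen 15)⁻¹ * P (gen 11) * gen 15

include hP in
lemma PPd.eta {w : FF} {j : ℕ} (hj : j ∈ [2, 3, 4, 5, 6, 7, 8, 9, 10, 11]) :
    etaW w (P (gen j)) = P (gen j) := by
  rw [← hP.inn hj, etaW_kk]

include hP in
lemma PPd.gen_val {j : ℕ} (hj : j < 22) : P (endo tS (gen j)) =
    if j ∈ [2, 3, 4, 5, 6, 7, 8, 9] then P (gen j) else
    if j = 10 then 1 else
    if j = 11 then P (gen 10) * gen 15 * (gen 14)⁻¹ * (gen 15)⁻¹ * P (gen 11) * (P (gen 10))⁻¹ else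
    if j = 12 then P (gen 10) * gen 15 else
    if j = 13 ∨ j = 14 then wP P else ev (sb rG [2 * j]) := by
  split_ifs with h1 h2 h3 h4 h5
  · have h : ∀ j, j ∈ [2, 3, 4, 5, 6, 7, 8, 9] →
        j ∈ [0, 1, 2, 3, 4, 5, 6, 7, 8, 9, 15, 16, 17, 18, 19, 20, 21] := by
      intro j hj; revert j; decide
    rw [tS_fix (h j h1)]
  · subst h2; rw [e10, E_one]
  · subst h3; rw [e11, map_six, hP.p15, hP.p14]
  · subst h4; rw [e12, map_two, hP.p15]
  · rcases h5 with rfl | rfl
    · rw [e13, map_conj, hP.p15]; rfl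
    · rw [e14, map_conj, hP.p15]; rfl
  · have h : ∀ j < 22, j ∉ [2, 3, 4, 5, 6, 7, 8, 9] → ¬ j = 10 → ¬ j = 11 → ¬ j = 12 →
        ¬ (j = 13 ∨ j = 14) →
        j ∈ [0, 1, 2, 3, 4, 5, 6, 7, 8, 9, 15, 16, 17, 18, 19, 20, 21] ∧
        j ∈ [0, 1, 12, 13, 14, 15, 16, 17, 18, 19, 20, 21] := by
      intro j hj; interval_cases j <;> simp
    obtain ⟨ha, hb⟩ := h j hj h1 h2 h3 h4 h5
    rw [tS_fix ha, hP.fixx hb]

include hP in
/-- The key identity `η ψ = ψ κ`. -/
lemma PPd.key (x : FF) : etaW (wP P) (P (endo tS x)) = P (endo tS (endo k8 x)) := by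
  have : etaW (wP P) * (P * endo tS) = (P * endo tS) * endo k8 := by
    refine End_ext fun j hj => ?_
    rw [mul_apply', mul_apply', mul_apply', mul_apply', k8_gen hj]
    have hcases : j ∈ [2, 3, 4, 5, 6, 7, 8, 9] ∨ j = 10 ∨ j = 11 ∨ j = 12 ∨ j = 13 ∨ j = 14 ∨
        j ∈ [0, 1, 15, 16, 17] ∨ j ∈ [18, 19, 20, 21] := by
      clear hP; revert j; decide
    rcases hcases with h | rfl | rfl | rfl | rfl | rfl | h | h
    · have h2 : j ∉ [10, 11, 18, 19, 20, 21] ∧ j ∈ [2, 3, 4, 5, 6, 7, 8, 9, 10, 11] := by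
        clear hP; revert j; decide
      rw [if_neg h2.1, hP.gen_val hj, if_pos h, hP.eta h2.2]
    · rw [if_pos (by decide), hP.gen_val hj]
      simp
    · rw [if_pos (by decide), hP.gen_val hj]
      simp only [List.mem_cons, List.not_mem_nil, or_false, if_true, map_one]
      rw [if_neg (by decide), if_neg (by decide), map_six, hP.eta (j := 10) (by decide),
        hP.eta (j := 11) (by decide), etaW_fix _ (k := 15) (by decide), etaW14]
      exact six_one _ _ _
    · rw [if_neg (by decide), hP.gen_val hj, if_neg (by decide), if_neg (by decide),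
        if_neg (by decide), if_pos rfl, map_two, hP.eta (j := 10) (by decide),
        etaW_fix _ (k := 15) (by decide)]
    · rw [if_neg (by decide), hP.gen_val hj, if_neg (by decide), if_neg (by decide),
        if_neg (by decide), if_neg (by decide), if_pos (by decide)]
      unfold wP
      rw [map_conj, hP.eta (j := 11) (by decide), etaW_fix _ (k := 15) (by decide)]
    · rw [if_neg (by decide), hP.gen_val hj, if_neg (by decide), if_neg (by decide),
        if_neg (by decide), if_neg (by decide), if_pos (by decide)]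
      unfold wP
      rw [map_conj, hP.eta (j := 11) (by decide), etaW_fix _ (k := 15) (by decide)]
    · have h2 : j ∉ [10, 11, 18, 19, 20, 21] ∧ j ∉ [2, 3, 4, 5, 6, 7, 8, 9] ∧ j ≠ 10 ∧ j ≠ 11 ∧
          j ≠ 12 ∧ ¬ (j = 13 ∨ j = 14) := by
        clear hP; revert j; decide
      rw [if_neg h2.1, hP.gen_val hj, if_neg h2.2.1, if_neg h2.2.2.1, if_neg h2.2.2.2.1,
        if_neg h2.2.2.2.2.1, if_neg h2.2.2.2.2.2, rG_out _ h]
    · have h2 : j ∈ [10, 11, 18, 19, 20, 21] ∧ j ∉ [2, 3, 4, 5, 6, 7, 8, 9] ∧ j ≠ 10 ∧ j ≠ 11 ∧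
          j ≠ 12 ∧ ¬ (j = 13 ∨ j = 14) := by
        clear hP; revert j; decide
      rw [if_pos h2.1, hP.gen_val hj, if_neg h2.2.1, if_neg h2.2.2.1, if_neg h2.2.2.2.1,
        if_neg h2.2.2.2.2.1, if_neg h2.2.2.2.2.2, rG_out2 _ h, E_one, E_one]
  exact DFunLike.congr_fun this x

end Pool.Agent.Y524
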