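import Pool.Agent.Y524.TTwoB

/-!
The genus eight trisection, abstractly.
-/

namespace Pool.Agent.Y524

set_option maxRecDepth 100000

/-- Abstract description of the automorphism defining the gamma handlebody. -/
structure Xd (X : UU) (P : EE) : Prop where
  hP : PPd P
  psi : big X 2 = P * endo tS
  srj : ∀ t ∈ [3, 5, 6, 8, 10], ∃ y, endo k15 y = y ∧ P y = gen t
  fixB : X ∈ fixB
  stB : X ∈ Stab (endo rB)
  com : (X : EE) * endo k910 = endo k910 * X
  hj : ∃ j : UU, j ∈ Stab (endo rG) ∧ j⁻¹ * X ∈ Stab (endo rA) ∧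
    (j : EE) * endo k910 = endo k910 * j

variable {X : UU} {P : EE}

lemma PPd.kk (hP : PPd P) (x : FF) : endo (kk8 2) (P (endo tS (endo k8 x))) =
    P (endo tS (endo k8 x)) := by
  have hk : ∀ j ∈ [10, 15], endo (kk8 2) (gen j) = gen j := by
    intro j hj
    fin_cases hj <;> exact endo_gen_fix (by decide +kernel)
  have : endo (kk8 2) * (P * endo tS * endo k8) = P * endo tS * endo k8 := by
    refine End_ext fun j hj => ?_
    rw [mul_apply', mul_apply', mul_apply', k8_gen hj]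
    by_cases h0 : j ∈ [10, 11, 18, 19, 20, 21]
    · rw [if_pos h0, E_one, E_one, E_one]
    · rw [if_neg h0, hP.gen_val hj]
      have h2 : ∀ j < 22, j ∉ [10, 11, 18, 19, 20, 21] →
          j ∈ [2, 3, 4, 5, 6, 7, 8, 9] ∨ j = 12 ∨ (j = 13 ∨ j = 14) ∨ j ∈ [0, 1, 15, 16, 17] := by
        intro j hj; interval_cases j <;> simp
      rcases h2 j hj h0 with h | rfl | h | h
      · rw [if_pos h]
        have : ∀ j, j ∈ [2, 3, 4, 5, 6, 7, 8, 9] → j ∈ [2, 3, 4, 5, 6, 7, 8, 9, 10, 11] := by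
          intro j hj; revert j; decide
        exact hP.inn (this j h)
      · rw [if_neg (by decide), if_neg (by decide), if_neg (by decide), if_pos rfl, map_two,
          hP.inn (j := 10) (by decide), hk 15 (by decide)]
      · have h3 : ∀ j, (j = 13 ∨ j = 14) → j ∉ [2, 3, 4, 5, 6, 7, 8, 9] ∧ j ≠ 10 ∧ j ≠ 11 ∧
            j ≠ 12 := by
          rintro j (rfl | rfl) <;> decide
        obtain ⟨ha, hb, hc, hd⟩ := h3 j h
        rw [if_neg ha, if_neg hb, if_neg hc, if_neg hd, if_pos h]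
        unfold wP
        rw [map_conj, hP.inn (j := 11) (by decide), hk 15 (by decide)]
      · have h3 : ∀ j, j ∈ [0, 1, 15, 16, 17] → j ∉ [2, 3, 4, 5, 6, 7, 8, 9] ∧ j ≠ 10 ∧ j ≠ 11 ∧
            j ≠ 12 ∧ ¬ (j = 13 ∨ j = 14) := by
          intro j hj; revert j; decide
        obtain ⟨ha, hb, hc, hd, he⟩ := h3 j h
        rw [if_neg ha, if_neg hb, if_neg hc, if_neg hd, if_neg he, endo_ev]
        have h4 : ∀ j ∈ [0, 1, 15, 16, 17], sb (kk8 2) (sb rG [2 * j]) = sb rG [2 * j] := by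
          decide +kernel
        rw [h4 j h]
  exact DFunLike.congr_fun this x

/-- the retractions -/
def eta8 (P : EE) (i : Fin 3) : EE := match i with
  | 0 => endo k8
  | 1 => endo k8
  | 2 => etaW (wP P)

lemma c8AB (i : Fin 2) : endo k8 * endo (rr i.castSucc) = endo (rr i.castSucc) * endo k8 ∧
    endo (kk8 i.castSucc) * (endo (rr i.castSucc) * endo k8) =
      endo (rr i.castSucc) * endo k8 := by
  have h := c8_AB i
  rw [Bool.and_eq_true] at h
  have h1 := chk_sound h.1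
  have h2 := chk_sound h.2
  rw [cmp_two, cmp_two] at h1
  rw [cmp_three, cmp_two, mul_assoc] at h2
  exact ⟨h1, h2⟩

lemma big_0 (X : UU) : big X 0 = endo (rr (Fin.castSucc (0 : Fin 2))) := rfl
lemma big_1 (X : UU) : big X 1 = endo (rr (Fin.castSucc (1 : Fin 2))) := rfl

lemma Xd.heta (h : Xd X P) (i : Fin 3) (x : FF) : eta8 P i (big X i x) = big X i (endo k8 x) := by
  have h3 : ∀ i : Fin 3, i = 0 ∨ i = 1 ∨ i = 2 := by decide
  rcases h3 i with rfl | rfl | rfl
  · rw [big_0]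
    exact DFunLike.congr_fun (c8AB 0).1 x
  · rw [big_1]
    exact DFunLike.congr_fun (c8AB 1).1 x
  · rw [h.psi, mul_apply', mul_apply']
    exact h.hP.key x

lemma Xd.hkk (h : Xd X P) (i : Fin 3) (x : FF) :
    endo (kk8 i) (big X i (endo k8 x)) = big X i (endo k8 x) := by
  have h3 : ∀ i : Fin 3, i = 0 ∨ i = 1 ∨ i = 2 := by decide
  rcases h3 i with rfl | rfl | rfl
  · rw [big_0]
    exact DFunLike.congr_fun (c8AB 0).2 x
  · rw [big_1]
    exact DFunLike.congr_fun (c8AB 1).2 x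
  · rw [h.psi, mul_apply']
    exact h.hP.kk x

/-- Subsurface data for the genus eight trisection. -/
def D8 (h : Xd X P) : SubD 8 (big X) where
  ι := I8.inc
  ρ := I8.prj
  η := fun i => eta8 P i
  τ := fun i => (J8 i).prj
  σ := fun i => (J8 i).inc
  hρ := I8.prj_inc
  hη := by
    intro i x
    rw [I8.inc_prj]
    exact h.heta i x
  hσ := by
    intro i x
    rw [Inj.inc_prj, J8_kt]
    have e : endo k8 (I8.inc x) = I8.inc x := I8.inc_eq x
    have := h.hkk i (I8.inc x)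
    rwa [e] at this

/-- preimages of the letters -/
def chi : Tb := [(10, [24, 31]), (11, [30, 26, 31])]

lemma c8_chi : chk [tS, k8, chi, k15] [k15] = true := by decide +kernel

lemma k8_r2 : ∀ j ∈ [15, 16, 0], endo k8 (gen j) = gen j ∧ sb rG [2 * j] = [2 * j] := by
  intro j hj
  fin_cases hj <;> exact ⟨endo_gen_fix (by decide +kernel), leq_sound _ _ (by decide +kernel)⟩

lemma rr_fix8 : ∀ i : Fin 2, ∀ n : Fin 8, endo (rr i.castSucc) (gen ((J8 i.castSucc).c n)) =
    gen ((J8 i.castSucc).c n) ∧ endo k8 (gen ((J8 i.castSucc).c n)) =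
    gen ((J8 i.castSucc).c n) := by
  intro i n
  have h : ∀ i : Fin 2, ∀ n : Fin 8, (leq (sb (rr i.castSucc) [2 * (J8 i.castSucc).c n])
    [2 * (J8 i.castSucc).c n] && leq (sb k8 [2 * (J8 i.castSucc).c n])
    [2 * (J8 i.castSucc).c n]) = true := by decide +kernel
  have := h i n
  rw [Bool.and_eq_true] at this
  exact ⟨endo_gen_fix this.1, endo_gen_fix this.2⟩

lemma Xd.surj_pre (h : Xd X P) (i : Fin 3) (n : Fin 8) :
    ∃ x, big X i (endo k8 x) = gen ((J8 i).c n) := by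
  have h3 : ∀ i : Fin 3, i = 0 ∨ i = 1 ∨ i = 2 := by decide
  rcases h3 i with rfl | rfl | rfl
  · refine ⟨gen ((J8 0).c n), ?_⟩
    rw [big_0]
    have := rr_fix8 0 n
    exact (congrArg _ this.2).trans this.1
  · refine ⟨gen ((J8 1).c n), ?_⟩
    rw [big_1]
    have := rr_fix8 1 n
    exact (congrArg _ this.2).trans this.1
  · have hn : ∀ n : Fin 8, (J8 2).c n ∈ [3, 5, 6, 8, 10] ∨ (J8 2).c n ∈ [15, 16, 0] := by
      decide
    rcases hn n with hn | hn
    · obtain ⟨y, hy, hy'⟩ := h.srj _ hn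
      refine ⟨endo chi y, ?_⟩
      rw [h.psi, mul_apply']
      have h1 := chk_sound c8_chi
      rw [cmp_four, cmp_one] at h1
      have h2 := DFunLike.congr_fun h1 y
      rw [mul_apply', mul_apply', mul_apply', hy] at h2
      rw [h2, hy']
    · obtain ⟨h1, h2⟩ := k8_r2 _ hn
      refine ⟨gen ((J8 2).c n), ?_⟩
      have h4 : ∀ j, j ∈ [15, 16, 0] → j ∈ [0, 1, 2, 3, 4, 5, 6, 7, 8, 9, 15, 16, 17, 18, 19, 20, 21]
          ∧ j ∈ [0, 1, 12, 13, 14, 15, 16, 17, 18, 19, 20, 21] := by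
        intro j hj; revert j; decide
      rw [h1, h.psi, mul_apply', tS_fix (h4 _ hn).1, h.hP.fixx (h4 _ hn).2, h2, ← gen_eq_ev]

lemma D8_surj (h : Xd X P) (i : Fin 3) : Function.Surjective ((D8 h).φ i) := by
  rw [← MonoidHom.range_eq_top, eq_top_iff]
  rintro y -
  induction y using FreeGroup.induction_on with
  | C1 => exact one_mem _
  | of n =>
    obtain ⟨x, hx⟩ := h.surj_pre i n
    refine ⟨I8.prj x, ?_⟩
    rw [SubD.φ_apply]
    change (J8 i).prj (big X i (I8.inc (I8.prj x))) = _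
    rw [I8.inc_prj]
    change (J8 i).prj (big X i (endo k8 x)) = _
    rw [hx, Inj.prj_gen_c]
  | inv_of n h => exact inv_mem h
  | mul a b ha hb => exact mul_mem ha hb

lemma I8_bd : I8.inc (bd' 8) = (ev [0, 2, 1, 3])⁻¹ * endo k8 bdF * ev [0, 2, 1, 3] := by
  have h : endo k8 bdF = ev (sb k8 bdw) := by unfold bdF; rw [endo_ev]
  rw [h]
  have h2 : sb k8 bdw = [0, 2, 1, 3, 4, 6, 5, 7, 8, 10, 9, 11, 12, 14, 13, 15, 16, 18, 17, 19,
    24, 26, 25, 27, 28, 30, 29, 31, 32, 34, 33, 35] := leq_sound _ _ (by decide +kernel)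
  rw [h2]
  unfold bd'
  simp only [List.ofFn_succ, List.ofFn_zero, List.prod_cons, List.prod_nil, map_mul, map_inv,
    Inj.inc_of, ev_cons, ev_nil, mul_one]
  have c : ∀ j : Fin 8, ∀ b : Bool, I8.c (j, b) = 2 * m8.getD j.val 0 + b.toNat := by decide
  simp only [c]
  simp [gl, mul_assoc, m8]

lemma D8_closed (h : Xd X P) (i : Fin 3) : (D8 h).φ i (bd' 8) = 1 := by
  rw [SubD.φ_eq_one]
  change big X i (I8.inc (bd' 8)) = 1
  rw [I8_bd, map_mul, map_mul, map_inv, ← h.heta i bdF]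
  have e : big X i bdF = 1 := by
    rw [big_eq', mul_apply', show ((dfac X i : UU) : EE) bdF = bdF from dfac_fixB h.fixB i]
    unfold bdF
    rw [endo_ev, leq_sound _ _ (c8_bd i), ev_nil]
  rw [e, map_one, mul_one, inv_mul_cancel]

end Pool.Agent.Y524
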