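import Pool.Agent.Y524.TTwoC

/-!
The sectors of the genus eight trisection.
-/

namespace Pool.Agent.Y524

set_option maxRecDepth 100000

variable {X : UU} {P : EE}

lemma k910_gen {j : ℕ} (hj : j < 22) : endo k910 (gen j) =
    if j ∈ [18, 19, 20, 21] then 1 else gen j := by
  rw [endo_gen, Nat.mod_eq_of_lt hj]
  have : look k910 j = if j ∈ [18, 19, 20, 21] then [] else [2 * j] := by
    revert j; decide
  rw [this]
  split_ifs
  · simp
  · rw [← gen_eq_ev]

/-- An endomorphism commuting with `k910` and killing `gen 10`, `gen 11` intertwines `k8` and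
`k910`. -/
lemma inter {L : EE} (hc : L * endo k910 = endo k910 * L) (h10 : L (gen 10) = 1)
    (h11 : L (gen 11) = 1) (x : FF) : L (endo k8 x) = endo k910 (L x) := by
  have : L * endo k8 = endo k910 * L := by
    refine End_ext fun j hj => ?_
    rw [mul_apply', mul_apply', k8_gen hj]
    by_cases h1 : j = 10
    · subst h1
      rw [if_pos (by decide), h10, E_one, E_one]
    by_cases h2 : j = 11
    · subst h2
      rw [if_pos (by decide), h11, E_one, E_one]
    have e : endo k910 (L (gen j)) = L (endo k910 (gen j)) := (DFunLike.congr_fun hc (gen j)).symm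
    rw [e, k910_gen hj]
    congr 1
    have : j ∈ [10, 11, 18, 19, 20, 21] ↔ j ∈ [18, 19, 20, 21] := by
      simp [h1, h2]
    simp only [this]
  exact DFunLike.congr_fun this x

lemma q910 : ∀ q ∈ [qAB, qBG, qGA], chk [q, k910] [k910, q] = true := by decide +kernel

lemma q910_of {q : Tb} (h : q ∈ [qAB, qBG, qGA]) : endo q * endo k910 = endo k910 * endo q := by
  have := chk_sound (q910 q h)
  rwa [cmp_two, cmp_two] at this

lemma c8_qAB : chk [qAB, k8] [k8, qAB] = true := by decide +kernel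

lemma c8_kc : chk [J4AB.kt, k8, qAB] [k8, qAB] = true ∧ chk [J4BG.kt, k910, qBG] [k910, qBG] = true ∧
    chk [J4GA.kt, k910, qGA] [k910, qGA] = true := by decide +kernel

lemma c8_fixAB : ∀ n, (leq (sb qAB [2 * J4AB.c n]) [2 * J4AB.c n] &&
    leq (sb k8 [2 * J4AB.c n]) [2 * J4AB.c n]) = true := by decide +kernel
lemma c8_fixBG : ∀ n, (leq (sb qBG [2 * J4BG.c n]) [2 * J4BG.c n] &&
    leq (sb k910 [2 * J4BG.c n]) [2 * J4BG.c n]) = true := by decide +kernel
lemma c8_fixGA : ∀ n, (leq (sb qGA [2 * J4GA.c n]) [2 * J4GA.c n] &&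
    leq (sb k910 [2 * J4GA.c n]) [2 * J4GA.c n]) = true := by decide +kernel

lemma Xd.psi10 (h : Xd X P) : big X 2 (gen 10) = 1 := by
  rw [h.psi, mul_apply', e10, E_one]

lemma rAB11 : endo rA (gen 11) = 1 ∧ endo rB (gen 11) = 1 := by
  constructor
  · rw [gen_eq_ev, endo_ev, show sb rA [2 * 11] = [] from leq_sound _ _ (by decide +kernel), ev_nil]
  · rw [gen_eq_ev, endo_ev, show sb rB [2 * 11] = [] from leq_sound _ _ (by decide +kernel), ev_nil]

lemma sec_AB (h : Xd X P) : ∃ M : Fg' 8 →* FreeGroup (Fin 4), Function.Surjective M ∧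
    M.ker = ((D8 h).φ 0).ker ⊔ ((D8 h).φ 1).ker ∧
      M = J4AB.prj.comp (((endo qAB * ((1 : UU) : EE) : EE) : FF →* FF).comp (D8 h).ι) := by
  refine sec_gen (D8 h) 0 1 qAB k8 1 J4AB
    (fun x hx => qabs_of (q := qAB) (r := rA) (by simp) hx)
    (fun x hx => qabs_of (q := qAB) (r := rB) (by simp) hx)
    (fun x hx => wchk_sound w_AB x hx) ?_ c8_kc.1 c8_fixAB
  intro x
  change endo qAB (I8.inc (I8.prj x)) = endo k8 (endo qAB x)
  rw [I8.inc_prj]
  have := chk_sound c8_qAB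
  rw [cmp_two, cmp_two] at this
  exact DFunLike.congr_fun this x

lemma sec_BG (h : Xd X P) : ∃ M : Fg' 8 →* FreeGroup (Fin 4), Function.Surjective M ∧
    M.ker = ((D8 h).φ 1).ker ⊔ ((D8 h).φ 2).ker := by
  have hL : ∀ x, endo qBG ((X : EE) (endo k8 x)) = endo k910 (endo qBG ((X : EE) x)) := by
    refine inter (L := endo qBG * (X : EE)) ?_ ?_ ?_
    · rw [mul_assoc, h.com, ← mul_assoc, q910_of (by simp), mul_assoc]
    · exact qabs_of (q := qBG) (r := rG) (by simp) h.psi10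
    · exact qabs_of (q := qBG) (r := rB) (by simp) ((h.stB _).2 rAB11.2)
  obtain ⟨M, h1, h2, _⟩ := sec_gen (D8 h) 1 2 qBG k910 X J4BG
      (fun x hx => qabs_of (q := qBG) (r := rB) (by simp) ((h.stB x).2 hx))
      (fun x hx => qabs_of (q := qBG) (r := rG) (by simp) hx)
      (fun x hx => sup_transport X h.stB (fun _ => Iff.rfl) (wchk_sound w_BG) x hx)
      (fun x => by
        change endo qBG ((X : EE) (I8.inc (I8.prj x))) = _
        rw [I8.inc_prj]
        exact hL x) c8_kc.2.1 c8_fixBG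
  exact ⟨M, h1, h2⟩

lemma sec_GA (h : Xd X P) : ∃ M : Fg' 8 →* FreeGroup (Fin 4), Function.Surjective M ∧
    M.ker = ((D8 h).φ 2).ker ⊔ ((D8 h).φ 0).ker := by
  obtain ⟨j, hjG, hjA, hjc⟩ := h.hj
  have huc : ((j⁻¹ * X : UU) : EE) * endo k910 = endo k910 * ((j⁻¹ * X : UU) : EE) := by
    rw [Units.val_mul, mul_assoc, h.com, ← mul_assoc, inv_comm hjc, mul_assoc]
  have hGG : ∀ x, endo rG (((j⁻¹ * X : UU) : EE) x) = 1 ↔ big X 2 x = 1 := by
    intro x
    change endo rG (((j⁻¹ : UU) : EE) ((X : EE) x)) = 1 ↔ endo rG ((X : EE) x) = 1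
    exact (inv_mem hjG) _
  have hL : ∀ x, endo qGA (((j⁻¹ * X : UU) : EE) (endo k8 x)) =
      endo k910 (endo qGA (((j⁻¹ * X : UU) : EE) x)) := by
    refine inter (L := endo qGA * ((j⁻¹ * X : UU) : EE)) ?_ ?_ ?_
    · rw [mul_assoc, huc, ← mul_assoc, q910_of (by simp), mul_assoc]
    · exact qabs_of (q := qGA) (r := rG) (by simp) ((hGG _).2 h.psi10)
    · exact qabs_of (q := qGA) (r := rA) (by simp) ((hjA _).2 rAB11.1)
  obtain ⟨M, h1, h2, _⟩ := sec_gen (D8 h) 2 0 qGA k910 (j⁻¹ * X) J4GA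
      (fun x hx => qabs_of (q := qGA) (r := rG) (by simp) ((hGG x).2 hx))
      (fun x hx => qabs_of (q := qGA) (r := rA) (by simp) ((hjA x).2 hx))
      (fun x hx => sup_transport (j⁻¹ * X) hGG hjA (wchk_sound w_GA) x hx)
      (fun x => by
        change endo qGA (((j⁻¹ * X : UU) : EE) (I8.inc (I8.prj x))) = _
        rw [I8.inc_prj]
        exact hL x) c8_kc.2.2 c8_fixGA
  exact ⟨M, h1, h2⟩

/-- The three sectors of the genus eight trisection. -/
lemma D8_sector (h : Xd X P) (i j : Fin 3) (hij : i ≠ j) :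
    ∃ M : Fg' 8 →* FreeGroup (Fin 4), Function.Surjective M ∧
      M.ker = ((D8 h).φ i).ker ⊔ ((D8 h).φ j).ker := by
  have AB : ∃ M : Fg' 8 →* FreeGroup (Fin 4), Function.Surjective M ∧
      M.ker = ((D8 h).φ 0).ker ⊔ ((D8 h).φ 1).ker := by
    obtain ⟨M, h1, h2, _⟩ := sec_AB h
    exact ⟨M, h1, h2⟩
  have BG := sec_BG h
  have GA := sec_GA h
  fin_cases i <;> fin_cases j
  · exact absurd rfl hij
  · exact AB
  · obtain ⟨M, h1, h2⟩ := GA
    exact ⟨M, h1, by rw [h2, sup_comm]; rfl⟩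
  · obtain ⟨M, h1, h2⟩ := AB
    exact ⟨M, h1, by rw [h2, sup_comm]; rfl⟩
  · exact absurd rfl hij
  · exact BG
  · exact GA
  · obtain ⟨M, h1, h2⟩ := BG
    exact ⟨M, h1, by rw [h2, sup_comm]; rfl⟩
  · exact absurd rfl hij

end Pool.Agent.Y524
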