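import Pool.Agent.Y524.TTwoD

/-!
The automorphism `XX` satisfies the abstract description.
-/

namespace Pool.Agent.Y524

set_option maxRecDepth 100000

lemma PPd_PP : PPd PP := ⟨PP_in, PP_fix⟩

lemma P0_c910 {p : UU × UU} (hp : p ∈ P0) : (p.2 : EE) * endo k910 = endo k910 * p.2 := by
  induction hp using Subgroup.closure_induction with
  | mem x hx =>
    obtain ⟨k, rfl⟩ := hx
    have h2 := chk_sound (c8_J k.castSucc)
    rw [cmp_two, cmp_two] at h2
    exact h2
  | one => simp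
  | mul x y _ _ hx hy =>
    change ((x.2 * y.2 : UU) : EE) * _ = _ * ((x.2 * y.2 : UU) : EE)
    rw [Units.val_mul, mul_assoc, hy, ← mul_assoc, hx, mul_assoc]
  | inv x _ hx => exact inv_comm hx

lemma XX_com : (XX : EE) * endo k910 = endo k910 * XX := by
  have h1 := chk_sound c8_D8
  have h2 := chk_sound c8_Th
  rw [cmp_two, cmp_two] at h1 h2
  have h1' : (uD 8 : EE) * endo k910 = endo k910 * (uD 8 : EE) := h1
  have h2' : (uTh : EE) * endo k910 = endo k910 * (uTh : EE) := h2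
  have e : (XX : EE) = (Finv : EE) * (uD 8 : EE) * (uTh : EE) := by
    unfold XX
    rw [Units.val_mul, Units.val_mul]
  rw [e]
  calc (Finv : EE) * (uD 8 : EE) * (uTh : EE) * endo k910 =
      (Finv : EE) * (uD 8 : EE) * ((uTh : EE) * endo k910) := by rw [mul_assoc]
    _ = (Finv : EE) * ((uD 8 : EE) * endo k910) * (uTh : EE) := by
        rw [h2']; simp only [mul_assoc]
    _ = ((Finv : EE) * endo k910) * (uD 8 : EE) * (uTh : EE) := by
        rw [h1']; simp only [mul_assoc]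
    _ = endo k910 * ((Finv : EE) * (uD 8 : EE) * (uTh : EE)) := by
        rw [feet_k910]; simp only [mul_assoc]

lemma XX_fixB : XX ∈ fixB := by
  unfold XX
  exact mul_mem (mul_mem Finv_AB.2.2 (P1_fixB (gen_P1 8)).1) Th_AB.2.2

lemma XX_stB : XX ∈ Stab (endo rB) := by
  unfold XX
  exact mul_mem (mul_mem Finv_AB.2.1 (P1_stab (gen_P1 8)).1) Th_AB.2.1

lemma XX_j : ∃ j : UU, j ∈ Stab (endo rG) ∧ j⁻¹ * XX ∈ Stab (endo rA) ∧
    (j : EE) * endo k910 = endo k910 * j := by
  have h8 : Finv * uD 8 * Finv⁻¹ ∈ PD := N_Finv _ (gen_PD 8)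
  obtain ⟨j, hj⟩ := mem_PD.1 h8
  refine ⟨j, (P1_stab (P0_le_P1 hj)).2, ?_, P0_c910 hj⟩
  have e : j⁻¹ * XX = (j⁻¹ * (Finv * uD 8 * Finv⁻¹)) * (Finv * uTh) := by
    unfold XX; group
  rw [e]
  exact mul_mem (P1_alpha (P0_le_P1 hj)) (mul_mem Finv_AB.1 Th_AB.1)

lemma XX_srj : ∀ t ∈ [3, 5, 6, 8, 10], ∃ y, endo k15 y = y ∧ PP y = gen t := by
  intro t ht
  have h1 : endo k15 (gen t) = gen t := by
    fin_cases ht <;> exact endo_gen_fix (by decide +kernel)
  have h2 : endo rG (gen t) = gen t := by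
    fin_cases ht <;> exact endo_gen_fix (by decide +kernel)
  refine ⟨((Finv⁻¹ : UU) : EE) (gen t), ?_, ?_⟩
  · have := DFunLike.congr_fun (inv_comm feet_k15) (gen t)
    rw [mul_apply', mul_apply', h1] at this
    exact this.symm
  · unfold PP
    rw [mul_apply', apply_inv_self, h2]

theorem XX_d : Xd XX PP where
  hP := PPd_PP
  psi := psi_eq
  srj := XX_srj
  fixB := XX_fixB
  stB := XX_stB
  com := XX_com
  hj := XX_j

end Pool.Agent.Y524
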