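import Pool.Agent.Y524.Obs
import Pool.Agent.Y524E.Main
import Pool.Agent.Y94.Quat

/-!
The two trisections as structures.
-/

namespace Pool.Agent.Y524

open Pool.Agent.Y524E

/-- The genus five trisection. -/
def T5 (p : UU × UU) (hp : p ∈ PS (fun k => 4 ≤ k)) : Trisection where
  g := 5
  k := 3
  φ := (D5 p.1 (comm5 hp).1).φ
  surj := D5_surj _ _
  closed := D5_closed _ _ (P1_fixB (P0_le_P1 (PS_le_P0 _ hp))).1
  sector := D5_sector hp

/-- The genus eight trisection of an automorphism. -/
def T8X {X : UU} {P : EE} (h : Xd X P) : Trisection where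
  g := 8
  k := 4
  φ := (D8 h).φ
  surj := D8_surj h
  closed := D8_closed h
  sector := D8_sector h

/-- The genus eight trisection. -/
def T8 : Trisection := T8X XX_d

theorem T8_notStab : T8.NotStab := by
  obtain ⟨M, _, t1, t2, s, hW, hirr⟩ := Pool.Agent.Y94.Quat.partI
  obtain ⟨L, h1, h2, h3⟩ := sec_AB XX_d
  refine Trisection.notStab_of T8 L h1 h2 (muM t1 t2 s) ?_ hirr
  intro x hx
  have hx' : big XX 2 (I8.inc x) = 1 := ((D8 XX_d).φ_eq_one 2 x).1 hx
  have := obs8 t1 t2 s hW x hx'
  rw [h3]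
  exact this

end Pool.Agent.Y524
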